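import Mathlib

/-!
# The orbits of affine maps

The definitions and the elementary facts are from helper166's `Run7.h166.TS.Aff`.
-/

set_option autoImplicit false

namespace Pool.Agent.Run7.h189.CO

open Filter Finset

/-- the value of the form is prime -/
def Pr (f : ℤ × ℤ) (n : ℕ) : Prop := (f.1 * n + f.2).toNat.Prime

/-- the `j`-th iterate of `x ↦ a x + b` -/
def It (a b : ℤ) (j : ℕ) (x : ℤ) : ℤ := a ^ j * x + b * ∑ i ∈ range j, a ^ i

/-- the linear forms of the iterates -/
def Fo (a b : ℤ) (j : ℕ) : ℤ × ℤ := (a ^ j, b * ∑ i ∈ range j, a ^ i)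

theorem It_zero (a b x : ℤ) : It a b 0 x = x := by simp [It]

theorem geo (a : ℤ) (n : ℕ) : (∑ i ∈ range n, a ^ i) * (a - 1) = a ^ n - 1 := geom_sum_mul a n

theorem It_add (a b : ℤ) (i j : ℕ) (x : ℤ) : It a b (i + j) x = It a b j (It a b i x) := by
  unfold It
  have h1 : ∑ l ∈ range (i + j), a ^ l = ∑ l ∈ range j, a ^ l + a ^ j * ∑ l ∈ range i, a ^ l := by
    rw [add_comm i j, sum_range_add, mul_sum]
    congr 1
    exact sum_congr rfl fun l _ => pow_add a j l
  rw [h1, pow_add]
  ring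

theorem It_succ (a b : ℤ) (j : ℕ) (x : ℤ) : It a b (j + 1) x = a * It a b j x + b := by
  rw [It_add]
  simp [It]

theorem It_inj {a : ℤ} (ha : 2 ≤ a) (b : ℤ) (j : ℕ) {x y : ℤ} (h : It a b j x = It a b j y) : x = y := by
  unfold It at h
  have h1 : a ^ j * x = a ^ j * y := by linarith
  exact mul_left_cancel₀ (pow_ne_zero _ (by omega)) h1

theorem Fo_inj {a : ℤ} (ha : 2 ≤ a) (b : ℤ) : Function.Injective (Fo a b) := by
  intro i j h
  simp only [Fo, Prod.mk.injEq] at h
  exact (pow_right_strictMono₀ (by omega : 1 < a)).injective h.1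

theorem Fo_ok {a b : ℤ} (ha : 2 ≤ a) (hab : IsCoprime a b) (j : ℕ) :
    1 ≤ (Fo a b j).1 ∧ IsCoprime (Fo a b j).1 (Fo a b j).2 := by
  refine ⟨one_le_pow₀ (by omega), ?_⟩
  show IsCoprime (a ^ j) (b * ∑ i ∈ range j, a ^ i)
  rcases j with - | j
  · rw [pow_zero]
    exact isCoprime_one_left
  · refine IsCoprime.pow_left (IsCoprime.mul_right hab ?_)
    rw [sum_range_succ']
    refine ⟨-(∑ i ∈ range j, a ^ i), 1, ?_⟩
    have : ∑ k ∈ range j, a ^ (k + 1) = a * ∑ i ∈ range j, a ^ i := by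
      rw [mul_sum]
      exact sum_congr rfl fun l _ => by ring
    rw [this]
    ring

/-- **the local condition** -/
theorem Fo_local {a b : ℤ} (hab : IsCoprime a b) {p : ℕ} (hp : p.Prime) (P : ℕ → Prop)
    (h : (p : ℤ) ∣ a - 1 → ¬ (p : ℤ) ∣ b → ∃ c : ℕ, ∀ v, P v → ¬ v ≡ c [MOD p]) :
    ∃ r : ℤ, ∀ v, P v → ¬ (p : ℤ) ∣ (Fo a b v).1 * r + (Fo a b v).2 := by
  have hpz : Prime (p : ℤ) := Nat.prime_iff_prime_int.1 hp
  have hval : ∀ v (r : ℤ), (a - 1) * ((Fo a b v).1 * r + (Fo a b v).2) =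
      a ^ v * ((a - 1) * r + b) - b := by
    intro v r
    simp only [Fo]
    have := geo a v
    have e : (a - 1) * (a ^ v * r + b * ∑ i ∈ range v, a ^ i) =
      a ^ v * ((a - 1) * r) + b * ((∑ i ∈ range v, a ^ i) * (a - 1)) := by ring
    rw [e, this]
    ring
  by_cases hpa : (p : ℤ) ∣ a
  · -- `p` divides `a`
    have hpb : ¬ (p : ℤ) ∣ b := by
      intro h'
      obtain ⟨x, y, hxy⟩ := hab
      exact hpz.not_dvd_one (hxy ▸ dvd_add (hpa.mul_left x) (h'.mul_left y))
    refine ⟨1, fun v _ hd => ?_⟩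
    rcases v with - | v
    · simp only [Fo, pow_zero, range_zero, sum_empty, mul_zero, add_zero, mul_one] at hd
      exact hpz.not_dvd_one hd
    · simp only [Fo] at hd
      have e : a ^ (v + 1) * 1 + b * ∑ i ∈ range (v + 1), a ^ i =
          a * (a ^ v + b * ∑ i ∈ range v, a ^ i) + b := by
        rw [sum_range_succ']
        have : ∑ k ∈ range v, a ^ (k + 1) = a * ∑ i ∈ range v, a ^ i := by
          rw [mul_sum]
          exact sum_congr rfl fun l _ => by ring
        rw [this]
        ring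
      rw [e] at hd
      exact hpb ((dvd_add_right (hpa.mul_right _)).1 hd)
  · by_cases hp1 : (p : ℤ) ∣ a - 1
    · -- `a ≡ 1`
      have hav : ∀ v, (p : ℤ) ∣ a ^ v - 1 := fun v => hp1.trans (sub_one_dvd_pow_sub_one a v)
      have hg : ∀ v : ℕ, (p : ℤ) ∣ (∑ i ∈ range v, a ^ i) - v := by
        intro v
        have e : (∑ i ∈ range v, a ^ i) - (v : ℤ) = ∑ i ∈ range v, (a ^ i - 1) := by
          rw [sum_sub_distrib]
          simp
        rw [e]
        exact dvd_sum fun i _ => hav i
      by_cases hpb : (p : ℤ) ∣ b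
      · refine ⟨1, fun v _ hd => ?_⟩
        simp only [Fo, mul_one] at hd
        have h1 : (p : ℤ) ∣ a ^ v := (dvd_add_left (hpb.mul_right _)).1 hd
        exact hpa (hpz.dvd_of_dvd_pow h1)
      · obtain ⟨c, hc⟩ := h hp1 hpb
        refine ⟨-(b * c), fun v hv hd => ?_⟩
        have h1 : (p : ℤ) ∣ b * ((v : ℤ) - c) := by
          have e : b * ((v : ℤ) - c) = ((Fo a b v).1 * -(b * c) + (Fo a b v).2) +
              (a ^ v - 1) * (b * c) - b * ((∑ i ∈ range v, a ^ i) - v) := by
            simp only [Fo]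
            ring
          rw [e]
          exact dvd_sub (dvd_add hd ((hav v).mul_right _)) ((hg v).mul_left b)
        have h2 := (hpz.dvd_or_dvd h1).resolve_left hpb
        exact hc v hv (Nat.modEq_iff_dvd.2 h2).symm
    · -- `a - 1` is invertible modulo `p`
      by_cases hpb : (p : ℤ) ∣ b
      · refine ⟨1, fun v _ hd => ?_⟩
        simp only [Fo, mul_one] at hd
        have h1 : (p : ℤ) ∣ a ^ v := (dvd_add_left (hpb.mul_right _)).1 hd
        exact hpa (hpz.dvd_of_dvd_pow h1)
      · have hcop : IsCoprime (a - 1) (p : ℤ) := ((Prime.coprime_iff_not_dvd hpz).2 hp1).symm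
        obtain ⟨x, y, hxy⟩ := hcop
        refine ⟨-(x * b), fun v _ hd => ?_⟩
        have h1 := hval v (-(x * b))
        have h2 : (a - 1) * -(x * b) + b = p * (y * b) := by
          have : x * (a - 1) = 1 - y * p := by linarith
          calc (a - 1) * -(x * b) + b = -(x * (a - 1)) * b + b := by ring
            _ = p * (y * b) := by rw [this]; ring
        rw [h2] at h1
        have h3 : (p : ℤ) ∣ b := by
          have e : b = a ^ v * (p * (y * b)) - (a - 1) * ((Fo a b v).1 * -(x * b) + (Fo a b v).2) := by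
            rw [h1]; ring
          rw [e]
          exact dvd_sub ((dvd_mul_right (p : ℤ) _).mul_left _) (hd.mul_left _)
        exact hpb h3


end Pool.Agent.Run7.h189.CO
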