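import Mathlib
import Pool.Agent.H362R2.CM.Final
import Pool.Agent.TH779.Shat.Trace

/-!
# Complete trees of primes in the orbits of several affine maps with the same multiplier: tools
-/

set_option autoImplicit false

namespace Pool.Agent.Run7.h189.CO

open Filter Finset

/-- exact patterns among the members of a family of natural forms -/
theorem exact_gen {ι : Type*} [DecidableEq ι] (α β : ι → ℕ) (hα : ∀ j, 1 ≤ α j)
    (hne : ∀ i j, i ≠ j → α i * β j ≠ α j * β i)
    (X E : Finset ι) (hadm : ∀ p : ℕ, p.Prime → ∃ r : ℕ, ∀ j ∈ X, ¬ p ∣ α j * r + β j)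
    (Good : Finset ι → Prop)
    (hgood : ∀ A B : ι → ℕ, (∀ j ∈ X, 1 ≤ A j) → (∀ i ∈ X, ∀ j ∈ X, A i = A j → B i = B j → i = j) →
      (∀ p : ℕ, p.Prime → ∃ r : ℕ, ∀ j ∈ X, ¬ p ∣ A j * r + B j) →
      {n : ℕ | Good (X.filter (fun j => (A j * n + B j).Prime))}.Infinite) :
    ∃ J ⊆ X, Good J ∧ {n : ℕ | ∀ j ∈ E, (α j * n + β j).Prime ↔ j ∈ J}.Infinite := by
  classical
  set Y : Finset ι := X ∪ E with hY
  set S : Finset {j // j ∈ Y} := univ.filter (fun j => (j : ι) ∈ X) with hS
  obtain ⟨w, ν, hw, hE, hSp⟩ := Pool.Agent.TH779.Shat.congruences (fun j : {j // j ∈ Y} => α j)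
    (fun j : {j // j ∈ Y} => β j) (fun _ => hα _)
    (fun i j hij => hne i j (fun h => hij (Subtype.ext h))) S Sᶜ disjoint_compl_left
  have hmem : ∀ u (hu : u ∈ X), (⟨u, mem_union_left _ hu⟩ : {j // j ∈ Y}) ∈ S := fun u hu =>
    mem_filter.2 ⟨mem_univ _, hu⟩
  have hinf := hgood (fun j => α j * w) (fun j => α j * ν + β j) (fun j _ => Nat.mul_pos (hα _) hw)
    (by
      intro i _ j _ h1 h2
      by_contra hcon
      have h4 := Nat.eq_of_mul_eq_mul_right hw h1
      rw [h4] at h2
      have h5 : β i = β j := by omega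
      exact hne _ _ hcon (by rw [h4, h5]))
    (by
      intro p hp
      by_cases hpw : p ∣ w
      · refine ⟨0, fun j hj hd => ?_⟩
        rw [mul_zero, zero_add] at hd
        exact hSp p hp hpw _ (hmem j hj) hd
      · obtain ⟨r, hr⟩ := hadm p hp
        have : Fact p.Prime := ⟨hp⟩
        have hwZ : (w : ZMod p) ≠ 0 := fun h => hpw ((ZMod.natCast_eq_zero_iff _ _).1 h)
        refine ⟨((((r : ZMod p) - ν) / w).val : ℕ), fun j hj hd => hr j hj ?_⟩
        rw [← ZMod.natCast_eq_zero_iff] at hd ⊢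
        push_cast at hd ⊢
        rw [ZMod.natCast_zmod_val] at hd
        rw [← hd]
        field_simp
        ring)
  -- the exact pattern
  set Q : ℕ → Finset ι := fun n => X.filter (fun j => (α j * (w * n + ν) + β j).Prime) with hQ
  set A : Set ℕ := {n : ℕ | 2 ≤ n ∧ Good (Q n)} with hA
  have hAinf : A.Infinite := by
    refine (hinf.sdiff (Set.finite_Iio 2)).mono ?_
    rintro n ⟨hn, hn2⟩
    refine ⟨not_lt.1 hn2, ?_⟩
    have h1 : Q n = X.filter (fun j => (α j * w * n + (α j * ν + β j)).Prime) := by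
      refine filter_congr fun j _ => ?_
      have : α j * (w * n + ν) + β j = α j * w * n + (α j * ν + β j) := by ring
      rw [this]
    rw [h1]
    exact hn
  obtain ⟨J, hJ⟩ : ∃ J : Finset ι, {n ∈ A | Q n = J}.Infinite := by
    by_contra hcon
    push Not at hcon
    refine hAinf (((X.powerset.finite_toSet).biUnion fun J _ => hcon J).subset ?_)
    intro n hn
    exact Set.mem_biUnion (mem_coe.2 (mem_powerset.2 (filter_subset _ _))) ⟨hn, rfl⟩
  obtain ⟨n₀, hn₀⟩ := hJ.nonempty
  refine ⟨J, by rw [← hn₀.2]; exact filter_subset _ _, by rw [← hn₀.2]; exact hn₀.1.2, ?_⟩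
  have hinj' : Set.InjOn (fun n : ℕ => w * n + ν) {n ∈ A | Q n = J} := by
    intro n _ n' _ e
    simp only at e
    exact Nat.eq_of_mul_eq_mul_left hw (by omega)
  refine (hJ.image hinj').mono ?_
  rintro _ ⟨n, ⟨hn1, hn2⟩, rfl⟩ j hj
  simp only
  constructor
  · intro hp
    have hjD : j ∈ Y := mem_union_right _ hj
    by_cases hjS : (⟨j, hjD⟩ : {j // j ∈ Y}) ∈ S
    · rw [← hn2]
      exact mem_filter.2 ⟨(mem_filter.1 hjS).2, hp⟩
    · exfalso
      obtain ⟨p, hp1, hp2, hp3⟩ := hE ⟨j, hjD⟩ (mem_compl.2 hjS)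
      simp only at hp3
      have h1 : p ∣ α j * (w * n + ν) + β j := by
        have h2 : α j * (w * n + ν) + β j = w * (α j * n) + (α j * ν + β j) := by ring
        rw [h2]
        exact dvd_add (hp2.mul_right _) hp3
      have h2 : p = α j * (w * n + ν) + β j := (Nat.prime_dvd_prime_iff_eq hp1 hp).1 h1
      have h3 : p ≤ w := Nat.le_of_dvd hw hp2
      have h4 : 2 ≤ n := hn1.1
      have h5 : w * 2 ≤ w * n := Nat.mul_le_mul_left _ h4
      have h6 : 1 * (w * n + ν) ≤ α j * (w * n + ν) := Nat.mul_le_mul_right _ (hα j)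
      omega
  · intro hjW
    rw [← hn2] at hjW
    exact (mem_filter.1 hjW).2

/-- few coprime forms are admissible at a prime -/
theorem few_forms {ι : Type*} (X : Finset ι) (A B : ι → ℤ) (hcop : ∀ i ∈ X, IsCoprime (A i) (B i))
    {p : ℕ} (hp : p.Prime) (hpT : X.card < p) : ∃ r : ℤ, ∀ i ∈ X, ¬ (p : ℤ) ∣ A i * r + B i := by
  classical
  have hpz : Prime (p : ℤ) := Nat.prime_iff_prime_int.1 hp
  have : NeZero p := ⟨hp.ne_zero⟩
  have : Fact p.Prime := ⟨hp⟩
  by_contra hcon
  push Not at hcon
  choose f hf using hcon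
  have hcard : X.card < (univ : Finset (ZMod p)).card := by
    rw [card_univ, ZMod.card]
    exact hpT
  obtain ⟨x, -, y, -, hxy, hfxy⟩ := exists_ne_map_eq_of_card_lt_of_maps_to hcard
    (f := fun x : ZMod p => f ((x.val : ℕ) : ℤ)) (fun x _ => (hf _).1)
  set v := f ((x.val : ℕ) : ℤ) with hv
  have h1 := (hf ((x.val : ℕ) : ℤ)).2
  have h2 := (hf ((y.val : ℕ) : ℤ)).2
  rw [← hfxy] at h2
  have h3 : (p : ℤ) ∣ A v * (((x.val : ℕ) : ℤ) - ((y.val : ℕ) : ℤ)) := by
    have := dvd_sub h1 h2
    have e : A v * ((x.val : ℕ) : ℤ) + B v - (A v * ((y.val : ℕ) : ℤ) + B v) =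
      A v * (((x.val : ℕ) : ℤ) - ((y.val : ℕ) : ℤ)) := by ring
    rwa [e] at this
  rcases hpz.dvd_or_dvd h3 with h4 | h4
  · have h5 : (p : ℤ) ∣ B v := by
      have := dvd_sub h1 (h4.mul_right ((x.val : ℕ) : ℤ))
      have e : A v * ((x.val : ℕ) : ℤ) + B v - A v * ((x.val : ℕ) : ℤ) = B v := by ring
      rwa [e] at this
    obtain ⟨x', y', hxy'⟩ := hcop v (hf _).1
    exact hpz.not_dvd_one (hxy' ▸ dvd_add (h4.mul_left x') (h5.mul_left y'))
  · apply hxy
    have h5 : ((((x.val : ℕ) : ℤ) - ((y.val : ℕ) : ℤ) : ℤ) : ZMod p) = 0 :=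
      (ZMod.intCast_zmod_eq_zero_iff_dvd _ _).2 h4
    push_cast at h5
    rw [ZMod.natCast_zmod_val, ZMod.natCast_zmod_val] at h5
    exact sub_eq_zero.1 h5

/-! ### words -/

/-- the value at `x` of the composition of the maps `x ↦ a x + b c`, the last map is the head -/
def Val (a : ℤ) {r : ℕ} (b : Fin r → ℤ) : List (Fin r) → ℤ → ℤ
  | [], x => x
  | c :: w, x => a * Val a b w x + b c

section words

variable {a : ℤ} {r : ℕ} {b : Fin r → ℤ}

theorem Val_append (u w : List (Fin r)) (x : ℤ) : Val a b (u ++ w) x = Val a b u (Val a b w x) := by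
  induction u with
  | nil => rfl
  | cons c u ih => simp only [List.cons_append, Val, ih]

theorem Val_add (w : List (Fin r)) (x y : ℤ) : Val a b w (x + y) = a ^ w.length * x + Val a b w y := by
  induction w with
  | nil => simp [Val]
  | cons c u ih =>
    simp only [Val, ih, List.length_cons, pow_succ]
    ring

theorem Val_zero (w : List (Fin r)) (x : ℤ) : Val a b w x = a ^ w.length * x + Val a b w 0 := by
  have := Val_add (a := a) (b := b) w x 0
  rwa [add_zero] at this

theorem Val_mono (ha : 2 ≤ a) {B : ℤ} (hB : ∀ c, -B ≤ b c) (hB0 : 0 ≤ B) (w : List (Fin r)) :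
    B ≤ Val a b w B := by
  induction w with
  | nil => exact le_rfl
  | cons c u ih =>
    have := hB c
    simp only [Val]
    nlinarith

theorem Val_inj (ha : 2 ≤ a) (w : List (Fin r)) {x y : ℤ} (h : Val a b w x = Val a b w y) : x = y := by
  rw [Val_zero w x, Val_zero w y] at h
  exact mul_left_cancel₀ (pow_ne_zero w.length (by omega)) (add_right_cancel h)

theorem Val_cop (hb : ∀ c, IsCoprime a (b c)) (w : List (Fin r)) (hw : w ≠ []) :
    IsCoprime a (Val a b w 0) := by
  rcases w with - | ⟨c, w⟩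
  · exact absurd rfl hw
  · simp only [Val]
    exact (hb c).mul_add_left_right _

theorem Val_cop' (hb : ∀ c, IsCoprime a (b c)) (w : List (Fin r)) :
    IsCoprime (a ^ w.length) (Val a b w 0) := by
  rcases w with - | ⟨c, w⟩
  · simp only [List.length_nil, pow_zero]
    exact isCoprime_one_left
  · exact (Val_cop hb (c :: w) (List.cons_ne_nil _ _)).pow_left

/-- nonproportionality -/
theorem Val_nonprop (ha : 2 ≤ a) (hb : ∀ c, IsCoprime a (b c)) (hinj : Function.Injective (Val a b))
    (B : ℤ) (w v : List (Fin r)) (hwv : w ≠ v) :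
    a ^ w.length * Val a b v B ≠ a ^ v.length * Val a b w B := by
  have hnu : ¬ IsUnit a := by
    intro h
    rcases Int.isUnit_iff.1 h with h | h <;> omega
  have key : ∀ w v : List (Fin r), w.length < v.length →
      a ^ w.length * Val a b v 0 ≠ a ^ v.length * Val a b w 0 := by
    intro w v hlt h
    obtain ⟨d, hd⟩ := Nat.exists_eq_add_of_lt hlt
    rw [hd, pow_add, pow_add, pow_one, mul_assoc, mul_assoc] at h
    have h2 := mul_left_cancel₀ (pow_ne_zero w.length (by omega : a ≠ 0)) h
    have h3 := Val_cop hb v (by rintro rfl; simp at hlt)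
    apply hnu
    refine h3.isUnit_of_dvd' dvd_rfl ?_
    rw [h2]
    exact ⟨a ^ d * Val a b w 0, by ring⟩
  intro h
  rw [Val_zero v B, Val_zero w B] at h
  have h1 : a ^ w.length * Val a b v 0 = a ^ v.length * Val a b w 0 := by linarith
  rcases lt_trichotomy w.length v.length with hl | hl | hl
  · exact key w v hl h1
  · rw [hl] at h1
    have h2 := mul_left_cancel₀ (pow_ne_zero v.length (by omega : a ≠ 0)) h1
    apply hwv
    apply hinj
    funext x
    rw [Val_zero w x, Val_zero v x, h2, hl]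
  · exact key v w hl h1.symm

/-- powers of one map modulo a prime -/
theorem Val_rep {p : ℕ} (hp : p.Prime) (hpa : ¬ (p : ℤ) ∣ a) (c : Fin r) (n : ℕ) (h1 : p ∣ n)
    (h2 : p - 1 ∣ n) (x : ℤ) : (p : ℤ) ∣ Val a b (List.replicate n c) x - x := by
  have : Fact p.Prime := ⟨hp⟩
  have hform : ∀ (m : ℕ) (x : ℤ), Val a b (List.replicate m c) x = a ^ m * x + b c * ∑ i ∈ range m, a ^ i := by
    intro m x
    induction m with
    | zero => simp [Val]
    | succ m ih =>
      rw [List.replicate_succ]
      simp only [Val, ih]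
      rw [sum_range_succ' (fun i => a ^ i) m]
      have : ∑ k ∈ range m, a ^ (k + 1) = a * ∑ i ∈ range m, a ^ i := by
        rw [mul_sum]
        exact sum_congr rfl fun l _ => by ring
      rw [this]
      ring
  have ha0 : (a : ZMod p) ≠ 0 := fun h => hpa ((ZMod.intCast_zmod_eq_zero_iff_dvd _ _).1 h)
  have hpow : (a : ZMod p) ^ n = 1 := by
    obtain ⟨t, rfl⟩ := h2
    rw [pow_mul, ZMod.pow_card_sub_one_eq_one ha0, one_pow]
  have hsum : ∑ i ∈ range n, (a : ZMod p) ^ i = 0 := by
    have h3 := geom_sum_mul (a : ZMod p) n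
    rw [hpow, sub_self] at h3
    rcases mul_eq_zero.1 h3 with h4 | h4
    · exact h4
    · have h5 : (a : ZMod p) = 1 := sub_eq_zero.1 h4
      rw [h5]
      simp only [one_pow, sum_const, card_range, nsmul_eq_mul, mul_one]
      exact (ZMod.natCast_eq_zero_iff _ _).2 h1
  rw [← ZMod.intCast_zmod_eq_zero_iff_dvd, hform]
  push_cast
  rw [hpow, hsum]
  ring

end words

/-! ### the averaging lemma -/

section averaging

variable {r : ℕ}

/-- a complete tree of height `k` among the `d` levels above `v` -/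
def Emb (h : List (Fin r) → Prop) : ℕ → ℕ → List (Fin r) → Prop
  | 0, k, _ => k = 0
  | d + 1, k, v => k = 0 ∨ (h v ∧ ∀ c, Emb h d (k - 1) (c :: v)) ∨ ∃ c, Emb h d k (c :: v)

/-- the classes -/
def Cl : ℕ → List (Fin r) → Finset (List (Fin r) × ℕ)
  | 0, _ => ∅
  | d + 1, v => (({v} : Finset (List (Fin r))) ×ˢ range (r ^ (d + 1))) ∪ univ.biUnion (fun c => Cl d (c :: v))

theorem Cl_suffix (d : ℕ) (v : List (Fin r)) : ∀ x ∈ Cl d v, v <:+ x.1 ∧ x.1.length < v.length + d ∧
    x.2 < r ^ d := by
  induction d generalizing v with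
  | zero => intro x hx; simp [Cl] at hx
  | succ d ih =>
    intro x hx
    rw [Cl, mem_union] at hx
    rcases hx with hx | hx
    · rw [mem_product, mem_singleton, mem_range] at hx
      rw [hx.1]
      exact ⟨List.suffix_refl _, by omega, hx.2⟩
    · obtain ⟨c, -, hc⟩ := mem_biUnion.1 hx
      obtain ⟨h1, h2, h3⟩ := ih (c :: v) x hc
      have hr : 1 ≤ r := Fin.pos c
      refine ⟨(List.suffix_cons c v).trans h1, ?_, h3.trans_le (Nat.pow_le_pow_right hr (by omega))⟩
      rw [List.length_cons] at h2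
      omega

theorem Cl_card (d : ℕ) (v : List (Fin r)) : (Cl d v).card = d * r ^ d := by
  induction d generalizing v with
  | zero => simp [Cl]
  | succ d ih =>
    rw [Cl, card_union_of_disjoint, card_product, card_singleton, card_range, card_biUnion]
    · rw [sum_congr rfl fun c _ => ih (c :: v), sum_const, card_univ, Fintype.card_fin, smul_eq_mul]
      ring
    · intro c _ c' _ hcc'
      show Disjoint (Cl d (c :: v)) (Cl d (c' :: v))
      rw [disjoint_left]
      intro x hx hx'
      have h1 := (Cl_suffix d _ x hx).1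
      have h2 := (Cl_suffix d _ x hx').1
      have h3 : (c :: v) <:+ (c' :: v) := List.suffix_of_suffix_length_le h1 h2 (by simp)
      have h4 := h3.eq_of_length (by simp)
      exact hcc' (List.cons_eq_cons.1 h4).1
    · rw [disjoint_left]
      intro x hx hx'
      obtain ⟨c, -, hc⟩ := mem_biUnion.1 hx'
      rw [mem_product, mem_singleton] at hx
      have h1 := (Cl_suffix d _ x hc).1.length_le
      rw [hx.1, List.length_cons] at h1
      omega

open Classical in
/-- **the averaging lemma** -/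
theorem avg (h : List (Fin r) → Prop) (d : ℕ) : ∀ (k : ℕ) (v : List (Fin r)), ¬ Emb h d k v →
    ((Cl d v).filter (fun x => h x.1)).card ≤ r * k * r ^ d := by
  induction d with
  | zero => intro k v _; simp [Cl]
  | succ d ih =>
    intro k v hE
    rw [Emb] at hE
    push Not at hE
    obtain ⟨hk, h1, h2⟩ := hE
    have hsub : ((Cl (d + 1) v).filter (fun x => h x.1)).card ≤ (if h v then r ^ (d + 1) else 0) +
        ∑ c, ((Cl d (c :: v)).filter (fun x => h x.1)).card := by
      rw [Cl, filter_union, filter_biUnion]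
      refine (card_union_le _ _).trans (Nat.add_le_add ?_ card_biUnion_le)
      split_ifs with hv
      · refine (card_le_card (filter_subset _ _)).trans ?_
        rw [card_product, card_singleton, card_range, one_mul]
      · rw [Nat.le_zero, card_eq_zero, filter_eq_empty_iff]
        intro x hx
        rw [mem_product, mem_singleton] at hx
        rw [hx.1]
        exact hv
    refine hsub.trans ?_
    by_cases hv : h v
    · rw [if_pos hv]
      obtain ⟨c₀, hc₀⟩ := h1 hv
      have h3 : ((Cl d (c₀ :: v)).filter (fun x => h x.1)).card + r * r ^ d ≤ r * k * r ^ d := by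
        have := ih (k - 1) _ hc₀
        obtain ⟨k, rfl⟩ := Nat.exists_eq_succ_of_ne_zero hk
        rw [Nat.succ_sub_one] at this
        rw [Nat.succ_eq_add_one]
        nlinarith
      have h4 : ∑ c, ((Cl d (c :: v)).filter (fun x => h x.1)).card + r * r ^ d ≤ r * (r * k * r ^ d) := by
        rw [← add_sum_erase univ _ (mem_univ c₀), add_assoc, add_comm (∑ c ∈ univ.erase c₀, _), ← add_assoc]
        have h5 : ∑ c ∈ univ.erase c₀, ((Cl d (c :: v)).filter (fun x => h x.1)).card ≤
            (r - 1) * (r * k * r ^ d) := by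
          refine (sum_le_card_nsmul _ _ _ fun c _ => ih k _ (h2 c)).trans ?_
          rw [card_erase_of_mem (mem_univ _), card_univ, Fintype.card_fin, smul_eq_mul]
        have hr : 1 ≤ r := Fin.pos c₀
        obtain ⟨r', rfl⟩ := Nat.exists_eq_add_of_le hr
        rw [Nat.add_sub_cancel_left] at h5
        nlinarith
      rw [pow_succ]
      nlinarith
    · rw [if_neg hv, zero_add]
      refine (sum_le_card_nsmul _ _ _ fun c _ => ih k _ (h2 c)).trans ?_
      rw [card_univ, Fintype.card_fin, smul_eq_mul, pow_succ]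
      nlinarith

end averaging

end Pool.Agent.Run7.h189.CO
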