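import Mathlib
import Pool.Agent.Run7.h189.CO.Tree

/-!
# Complete trees of primes in the orbits of several affine maps with the same multiplier
-/

set_option autoImplicit false

namespace Pool.Agent.Run7.h189.CO

open Filter Finset

/-- `y` is the root of a complete tree of height `k` in `J`: the vertex `y` is in `J`, and if `k > 0` there
is a word `z` above `y` such that for every letter `c` some word above `c :: z` is the root of a complete
tree of height `k - 1` in `J` -/
def Tree {r : ℕ} (J : Finset (List (Fin r))) : ℕ → List (Fin r) → Prop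
  | 0, y => y ∈ J
  | k + 1, y => y ∈ J ∧ ∃ z, y <:+ z ∧ ∀ c : Fin r, ∃ y', (c :: z) <:+ y' ∧ Tree J k y'

theorem Tree_mem {r : ℕ} {J : Finset (List (Fin r))} {k : ℕ} {y : List (Fin r)} (h : Tree J k y) : y ∈ J := by
  cases k with
  | zero => exact h
  | succ k => exact h.1

/-- the block of a letter -/
def blk {r : ℕ} (N M : ℕ) (c₀ c : Fin r) : List (Fin r) := List.replicate N c ++ List.replicate (N * M) c₀

/-- the trunk of the vertex `v` -/
def trk {r : ℕ} (N M : ℕ) (c₀ : Fin r) (v : List (Fin r)) (i : ℕ) : List (Fin r) :=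
  List.replicate (N * i) c₀ ++ v.flatMap (blk N M c₀)

theorem blk_length {r : ℕ} (N M : ℕ) (c₀ c : Fin r) : (blk N M c₀ c).length = N + N * M := by
  simp [blk]

theorem base_length {r : ℕ} (N M : ℕ) (c₀ : Fin r) (v : List (Fin r)) :
    (v.flatMap (blk N M c₀)).length = v.length * (N + N * M) := by
  induction v with
  | nil => simp
  | cons c v ih => rw [List.flatMap_cons, List.length_append, ih, blk_length, List.length_cons]; ring

theorem base_inj {r : ℕ} {N : ℕ} (hN : 1 ≤ N) (M : ℕ) (c₀ : Fin r) (v v' : List (Fin r))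
    (h : v.flatMap (blk N M c₀) = v'.flatMap (blk N M c₀)) : v = v' := by
  induction v generalizing v' with
  | nil =>
    have h1 := congrArg List.length h
    rw [base_length, base_length, List.length_nil, zero_mul] at h1
    have h2 : v'.length = 0 := by
      rcases Nat.mul_eq_zero.1 h1.symm with h3 | h3
      · exact h3
      · omega
    exact (List.eq_nil_of_length_eq_zero h2).symm
  | cons c v ih =>
    cases v' with
    | nil =>
      exfalso
      have h1 := congrArg List.length h
      rw [base_length, base_length, List.length_nil, zero_mul, List.length_cons] at h1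
      have : 0 < (v.length + 1) * (N + N * M) := by positivity
      omega
    | cons c' v' =>
      rw [List.flatMap_cons, List.flatMap_cons] at h
      obtain ⟨h1, h2⟩ := List.append_inj h (by rw [blk_length, blk_length])
      rw [ih v' h2]
      congr 1
      unfold blk at h1
      obtain ⟨h3, -⟩ := List.append_inj h1 (by simp)
      obtain ⟨n, rfl⟩ := Nat.exists_eq_add_of_le' hN
      rw [List.replicate_succ, List.replicate_succ] at h3
      exact (List.cons_eq_cons.1 h3).1

theorem trk_inj {r : ℕ} {N M : ℕ} (hN : 1 ≤ N) (c₀ : Fin r) {v v' : List (Fin r)} {i i' : ℕ} (hi : i < M)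
    (hi' : i' < M) (h : trk N M c₀ v i = trk N M c₀ v' i') : v = v' ∧ i = i' := by
  have h1 := congrArg List.length h
  unfold trk at h1 h
  rw [List.length_append, List.length_append, base_length, base_length, List.length_replicate,
    List.length_replicate] at h1
  have h2 : N * i < N + N * M := by
    have := Nat.mul_lt_mul_of_pos_left hi (show 0 < N by omega)
    omega
  have h3 : N * i' < N + N * M := by
    have := Nat.mul_lt_mul_of_pos_left hi' (show 0 < N by omega)
    omega
  have h4 : N * i = N * i' := by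
    have e1 := Nat.add_mul_mod_self_right (N * i) v.length (N + N * M)
    have e2 := Nat.add_mul_mod_self_right (N * i') v'.length (N + N * M)
    rw [Nat.mod_eq_of_lt h2] at e1
    rw [Nat.mod_eq_of_lt h3] at e2
    rw [← e1, h1, e2]
  have h5 : i = i' := Nat.eq_of_mul_eq_mul_left (by omega) h4
  subst h5
  exact ⟨base_inj hN M c₀ v v' (List.append_cancel_left h), rfl⟩

theorem trk_suffix {r : ℕ} {N M : ℕ} (c₀ : Fin r) {v : List (Fin r)} {i : ℕ} (hi : i < M) :
    trk N M c₀ v i <:+ List.replicate (N * M) c₀ ++ v.flatMap (blk N M c₀) := by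
  refine ⟨List.replicate (N * (M - i)) c₀, ?_⟩
  unfold trk
  rw [← List.append_assoc, List.replicate_append_replicate, ← Nat.mul_add]
  congr 3
  omega

theorem base_suffix {r : ℕ} (N M : ℕ) (c₀ : Fin r) {v v' : List (Fin r)} (h : v <:+ v') :
    v.flatMap (blk N M c₀) <:+ v'.flatMap (blk N M c₀) := by
  obtain ⟨t, rfl⟩ := h
  rw [List.flatMap_append]
  exact List.suffix_append _ _

/-- from the combinatorial tree to the tree of words -/
theorem tree_of_emb {r : ℕ} {N M : ℕ} (hN : 1 ≤ N) (c₀ : Fin r) (P : Finset (List (Fin r))) (d : ℕ) :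
    ∀ (k : ℕ) (v : List (Fin r)), Emb (fun v => ∃ i < M, trk N M c₀ v i ∈ P) d (k + 1) v →
      ∃ v', v <:+ v' ∧ ∃ i < M, Tree P k (trk N M c₀ v' i) := by
  induction d with
  | zero => intro k v h; simp [Emb] at h
  | succ d ih =>
    intro k v h
    rw [Emb] at h
    rcases h with h | ⟨⟨i, hi, hP⟩, h⟩ | ⟨c, h⟩
    · omega
    · refine ⟨v, List.suffix_refl _, i, hi, ?_⟩
      rw [Nat.add_sub_cancel] at h
      rcases k with - | k
      · exact hP
      · refine ⟨hP, _, trk_suffix c₀ hi, fun c => ?_⟩
        obtain ⟨v', hv', i', hi', hT⟩ := ih k _ (h c)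
        refine ⟨_, ?_, hT⟩
        have h1 := base_suffix N M c₀ hv'
        have h2 : (c :: (List.replicate (N * M) c₀ ++ v.flatMap (blk N M c₀))) <:+
            (c :: v).flatMap (blk N M c₀) := by
          rw [List.flatMap_cons, blk]
          obtain ⟨n, rfl⟩ := Nat.exists_eq_add_of_le' hN
          refine ⟨List.replicate n c, ?_⟩
          have h3 : List.replicate (n + 1) c = List.replicate n c ++ [c] := List.replicate_succ'
          rw [h3, List.append_assoc, List.append_assoc]
          rfl
        refine (h2.trans h1).trans ?_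
        exact List.suffix_append _ _
    · obtain ⟨v', hv', h'⟩ := ih k _ h
      exact ⟨v', (List.suffix_cons c v).trans hv', h'⟩

/-- the blocks are the identity modulo small primes -/
theorem Val_base {a : ℤ} {r : ℕ} {b : Fin r → ℤ} {p : ℕ} (hp : p.Prime) (hpa : ¬ (p : ℤ) ∣ a) (N M : ℕ)
    (c₀ : Fin r) (h1 : p ∣ N) (h2 : p - 1 ∣ N) (v : List (Fin r)) (i : ℕ) (x : ℤ) :
    (p : ℤ) ∣ Val a b (trk N M c₀ v i) x - x := by
  have hb : ∀ v : List (Fin r), (p : ℤ) ∣ Val a b (v.flatMap (blk N M c₀)) x - x := by
    intro v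
    induction v with
    | nil => simp [Val]
    | cons c v ih =>
      rw [List.flatMap_cons, blk, Val_append, Val_append]
      have e1 := Val_rep (b := b) hp hpa c N h1 h2
        (Val a b (List.replicate (N * M) c₀) (Val a b (v.flatMap (blk N M c₀)) x))
      have e2 := Val_rep (b := b) hp hpa c₀ (N * M) (h1.mul_right _) (h2.mul_right _)
        (Val a b (v.flatMap (blk N M c₀)) x)
      have := dvd_add (dvd_add e1 e2) ih
      rw [sub_add_sub_cancel, sub_add_sub_cancel] at this
      exact this
  unfold trk
  rw [Val_append]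
  have := dvd_add (Val_rep (b := b) hp hpa c₀ (N * i) (h1.mul_right _) (h2.mul_right _)
    (Val a b (v.flatMap (blk N M c₀)) x)) (hb v)
  rw [sub_add_sub_cancel] at this
  exact this

/-- the value `1` modulo the prime divisors of `a` -/
theorem Val_one {a : ℤ} {r : ℕ} {b : Fin r → ℤ} (hb : ∀ c, IsCoprime a (b c)) {p : ℕ} (hp : p.Prime)
    (hpa : (p : ℤ) ∣ a) (w : List (Fin r)) : ¬ (p : ℤ) ∣ Val a b w 1 := by
  have hpz : Prime (p : ℤ) := Nat.prime_iff_prime_int.1 hp
  rcases w with - | ⟨c, w⟩
  · exact hpz.not_dvd_one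
  · intro h
    simp only [Val] at h
    have h2 := (dvd_add_right (hpa.mul_right _)).1 h
    obtain ⟨x, y, hxy⟩ := hb c
    exact hpz.not_dvd_one (hxy ▸ dvd_add (hpa.mul_left x) (h2.mul_left y))

open Classical in
/-- **complete trees of primes in the orbits of several affine maps** -/
theorem trees (r k : ℕ) (hr : 1 ≤ r) : ∃ C : ℕ, ∀ (a : ℤ) (b : Fin r → ℤ), 2 ≤ a → (∀ c, IsCoprime a (b c)) →
    Function.Injective (Val a b) →
    ∃ J : Finset (List (Fin r)), (∀ w ∈ J, w.length ≤ C) ∧ Tree J k [] ∧
      ∀ R : ℕ, {p : ℕ | p.Prime ∧ ∀ w : List (Fin r), w.length ≤ R →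
        ((Val a b w p).toNat.Prime ↔ w ∈ J)}.Infinite := by
  set D : ℕ := 4 * r * (k + 1) + 1 with hD
  set cl : Finset (List (Fin r) × ℕ) := Cl D [] with hcl
  set T : ℕ := cl.card with hT
  obtain ⟨K, hK, hq⟩ := Pool.Agent.H362R2.CM.quarter T
  set M : ℕ := r ^ D * K with hM
  set m : ℕ := T * K with hm
  set N : ℕ := m.factorial * m.factorial with hN
  have hN1 : 1 ≤ N := Nat.mul_pos m.factorial_pos m.factorial_pos
  set c₀ : Fin r := ⟨0, hr⟩ with hc₀
  set e : Fin T ≃ {x // x ∈ cl} := cl.equivFin.symm with he
  set ti : Fin T × Fin K → List (Fin r) := fun u => trk N M c₀ (e u.1).1.1 ((e u.1).1.2 * K + u.2) with hti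
  have hidx : ∀ u : Fin T × Fin K, (e u.1).1.2 * K + u.2 < M := by
    intro u
    have h1 := (Cl_suffix D _ _ (e u.1).2).2.2
    have h2 := u.2.2
    have h3 : ((e u.1).1.2 + 1) * K ≤ r ^ D * K := Nat.mul_le_mul_right K h1
    rw [add_mul, one_mul] at h3
    omega
  have htinj : Function.Injective ti := by
    rintro ⟨g, i⟩ ⟨g', i'⟩ h
    obtain ⟨h1, h2⟩ := trk_inj hN1 c₀ (hidx (g, i)) (hidx (g', i')) h
    simp only at h1 h2
    have hi := i.2
    have hi' := i'.2
    have h3 : (e g).1.2 = (e g').1.2 := by
      have f1 : ((e g).1.2 * K + i) / K = (e g).1.2 := by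
        rw [mul_comm, Nat.mul_add_div (by omega), Nat.div_eq_of_lt hi, add_zero]
      have f2 : ((e g').1.2 * K + i') / K = (e g').1.2 := by
        rw [mul_comm, Nat.mul_add_div (by omega), Nat.div_eq_of_lt hi', add_zero]
      rw [← f1, h2, f2]
    have h4 : e g = e g' := Subtype.ext (Prod.ext h1 h3)
    have h5 : g = g' := e.injective h4
    rw [h3] at h2
    rw [Prod.mk.injEq]
    exact ⟨h5, Fin.ext (by omega)⟩
  set C : ℕ := N * M + D * (N + N * M) with hC
  have hlen : ∀ u, (ti u).length ≤ C := by
    intro u
    simp only [hti, trk]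
    rw [List.length_append, List.length_replicate, base_length]
    have h1 := (Cl_suffix D _ _ (e u.1).2).2.1
    rw [List.length_nil, zero_add] at h1
    exact Nat.add_le_add (Nat.mul_le_mul_left _ (hidx u).le) (Nat.mul_le_mul_right _ h1.le)
  refine ⟨C, fun a b ha hb hinj => ?_⟩
  set B : ℤ := ∑ c, |b c| with hB
  have hB0 : 0 ≤ B := sum_nonneg fun _ _ => abs_nonneg _
  have hBc : ∀ c, -B ≤ b c := fun c => by
    have h1 : |b c| ≤ B := single_le_sum (f := fun c => |b c|) (fun _ _ => abs_nonneg _) (mem_univ c)
    have := neg_abs_le (b c)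
    linarith
  have hα : ∀ w : List (Fin r), (((a ^ w.length).toNat : ℕ) : ℤ) = a ^ w.length := fun w =>
    Int.toNat_of_nonneg (pow_nonneg (by omega) _)
  have hβ : ∀ w : List (Fin r), (((Val a b w B).toNat : ℕ) : ℤ) = Val a b w B := fun w =>
    Int.toNat_of_nonneg (hB0.trans (Val_mono ha hBc hB0 w))
  have hval : ∀ (w : List (Fin r)) (n : ℕ), Val a b w (n + B) =
      (((a ^ w.length).toNat * n + (Val a b w B).toNat : ℕ) : ℤ) := by
    intro w n
    rw [Nat.cast_add, Nat.cast_mul, hα, hβ, Val_add]
  set X : Finset (List (Fin r)) := univ.image ti with hX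
  have hXcard : X.card ≤ m := by
    refine card_image_le.trans (le_of_eq ?_)
    rw [card_univ, Fintype.card_prod, Fintype.card_fin, Fintype.card_fin]
  have hmem : ∀ u, ti u ∈ X := fun u => mem_image_of_mem _ (mem_univ _)
  have hadm : ∀ p : ℕ, p.Prime → ∃ s : ℕ, ∀ w ∈ X, ¬ p ∣ (a ^ w.length).toNat * s + (Val a b w B).toNat := by
    intro p hp
    have : NeZero p := ⟨hp.ne_zero⟩
    have hpz : Prime (p : ℤ) := Nat.prime_iff_prime_int.1 hp
    obtain ⟨s, hs⟩ : ∃ s : ℤ, ∀ w ∈ X, ¬ (p : ℤ) ∣ a ^ w.length * s + Val a b w 0 := by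
      rcases Nat.lt_or_ge X.card p with hpX | hpX
      · exact few_forms X _ _ (fun w _ => Val_cop' hb w) hp hpX
      · refine ⟨1, fun w hw => ?_⟩
        rw [← Val_zero]
        by_cases hpa : (p : ℤ) ∣ a
        · exact Val_one hb hp hpa w
        · obtain ⟨u, -, rfl⟩ := mem_image.1 hw
          intro hd
          have hpm : p ≤ m := hpX.trans hXcard
          have h1 := Val_base (b := b) hp hpa N M c₀ ((Nat.dvd_factorial hp.pos hpm).mul_right _)
            ((Nat.dvd_factorial (by have := hp.two_le; omega) (by omega)).mul_right _)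
            (e u.1).1.1 ((e u.1).1.2 * K + u.2) 1
          have h2 := dvd_sub hd h1
          rw [sub_sub_cancel] at h2
          exact hpz.not_dvd_one h2
    refine ⟨(((s - B : ℤ) : ZMod p).val : ℕ), fun w hw hd => hs w hw ?_⟩
    have h1 : (p : ℤ) ∣ ((((a ^ w.length).toNat * ((((s - B : ℤ) : ZMod p).val : ℕ)) +
        (Val a b w B).toNat : ℕ)) : ℤ) := by exact_mod_cast hd
    rw [← ZMod.intCast_zmod_eq_zero_iff_dvd] at h1 ⊢
    rw [Nat.cast_add, Nat.cast_mul, hα, hβ, Val_zero w B] at h1
    push_cast at h1 ⊢
    rw [ZMod.natCast_zmod_val] at h1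
    push_cast at h1
    rw [← h1]
    ring
  -- the same pattern for all `R`
  have hkey : ∀ R : ℕ, ∃ P ⊆ X, T ≤ 4 * ((univ.filter (fun u => ti u ∈ P)).image Prod.fst).card ∧
      {n : ℕ | ∀ w ∈ (List.finite_length_le (Fin r) R).toFinset,
        ((a ^ w.length).toNat * n + (Val a b w B).toNat).Prime ↔ w ∈ P}.Infinite := by
    intro R
    refine exact_gen (fun w => (a ^ w.length).toNat) (fun w => (Val a b w B).toNat) (fun w => by
        have h1 : (1 : ℤ) ≤ a ^ w.length := one_le_pow₀ (by omega)
        have h2 := hα w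
        omega)
      (fun w v hwv h => Val_nonprop ha hb hinj B w v hwv (by
        have h1 : (((a ^ w.length).toNat * (Val a b v B).toNat : ℕ) : ℤ) =
          (((a ^ v.length).toNat * (Val a b w B).toNat : ℕ) : ℤ) := by exact_mod_cast h
        rw [Nat.cast_mul, Nat.cast_mul, hα, hα, hβ, hβ] at h1
        exact h1)) X _ hadm _ ?_
    intro A B' hA hAB hadm'
    obtain ⟨S', c, hS', hinf⟩ := hq (fun g i => ((A (ti (g, i)) : ℕ) : ℤ))
      (fun g i => ((B' (ti (g, i)) : ℕ) : ℤ))
      (fun g i => by exact_mod_cast hA _ (hmem _))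
      (by
        rintro ⟨g, i⟩ ⟨g', i'⟩ h
        simp only [Prod.mk.injEq] at h
        exact htinj (hAB _ (hmem _) _ (hmem _) (by exact_mod_cast h.1) (by exact_mod_cast h.2)))
      (by
        intro p hp
        obtain ⟨s, hs⟩ := hadm' p hp
        exact ⟨s, fun g i hd => hs _ (hmem (g, i)) (by exact_mod_cast hd)⟩)
    refine hinf.mono ?_
    intro n hn
    refine hS'.trans (Nat.mul_le_mul_left _ (card_le_card ?_))
    intro g hg
    refine mem_image.2 ⟨(g, c g), mem_filter.2 ⟨mem_univ _, mem_filter.2 ⟨hmem _, ?_⟩⟩, rfl⟩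
    exact Nat.prime_iff_prime_int.2 (by exact_mod_cast (hn g hg).2)
  choose Pf hPX hPg hPi using hkey
  obtain ⟨P, hP⟩ : ∃ P : Finset (List (Fin r)), {R : ℕ | Pf R = P}.Infinite := by
    by_contra hcon
    push Not at hcon
    refine Set.infinite_univ (((X.powerset.finite_toSet).biUnion fun J _ => hcon J).subset ?_)
    intro R _
    exact Set.mem_biUnion (mem_coe.2 (mem_powerset.2 (hPX R))) rfl
  obtain ⟨R₀, hR₀⟩ := hP.nonempty
  have hR₀' : Pf R₀ = P := hR₀
  have hPX' : P ⊆ X := hR₀' ▸ hPX R₀
  have hPg' : T ≤ 4 * ((univ.filter (fun u => ti u ∈ P)).image Prod.fst).card := hR₀' ▸ hPg R₀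
  have hPinf : ∀ R : ℕ, {n : ℕ | ∀ w : List (Fin r), w.length ≤ R →
      ((Val a b w (n + B)).toNat.Prime ↔ w ∈ P)}.Infinite := by
    intro R
    obtain ⟨R', hR', hRR'⟩ := hP.exists_gt R
    have hR'' : Pf R' = P := hR'
    refine (hPi R').mono ?_
    intro n hn w hw
    have h1 := hn w ((List.finite_length_le (Fin r) R').mem_toFinset.2 (show w.length ≤ R' by omega))
    rw [hval, Int.toNat_natCast, h1, hR'']
  -- the combinatorial tree
  have hE : Emb (fun v => ∃ i < M, trk N M c₀ v i ∈ P) D (k + 1) [] := by
    by_contra hcon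
    have h1 := avg _ D (k + 1) [] hcon
    have h2 : ((univ.filter (fun u => ti u ∈ P)).image Prod.fst).card ≤
        (cl.filter (fun x => ∃ i < M, trk N M c₀ x.1 i ∈ P)).card := by
      have h3 : (((univ.filter (fun u => ti u ∈ P)).image Prod.fst).image (fun g => (e g).1)) ⊆
          cl.filter (fun x => ∃ i < M, trk N M c₀ x.1 i ∈ P) := by
        intro x hx
        obtain ⟨g, hg, rfl⟩ := mem_image.1 hx
        obtain ⟨u, hu, rfl⟩ := mem_image.1 hg
        exact mem_filter.2 ⟨(e u.1).2, _, hidx u, (mem_filter.1 hu).2⟩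
      rw [← card_image_of_injective _ (fun g g' h => e.injective (Subtype.ext h) :
        Function.Injective (fun g => (e g).1))]
      exact card_le_card h3
    have h3 : T = D * r ^ D := Cl_card D []
    have h4 : D * r ^ D ≤ 4 * (r * (k + 1) * r ^ D) := by
      rw [← h3]
      refine hPg'.trans (Nat.mul_le_mul_left _ (h2.trans (le_of_eq_of_le ?_ h1)))
      congr!
    have h5 : 0 < r ^ D := Nat.pow_pos hr
    have h6 : D ≤ 4 * (r * (k + 1)) := by
      have : D * r ^ D ≤ 4 * (r * (k + 1)) * r ^ D := by
        rw [mul_assoc]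
        exact h4
      exact Nat.le_of_mul_le_mul_right this h5
    have h7 : 4 * r * (k + 1) = 4 * (r * (k + 1)) := by ring
    omega
  obtain ⟨v, -, i, hi, hTree⟩ := tree_of_emb hN1 c₀ P D k [] hE
  set y := trk N M c₀ v i with hy
  have hinjy : Set.InjOn (fun w : List (Fin r) => w ++ y) ((fun w : List (Fin r) => w ++ y) ⁻¹' ↑P) :=
    fun w _ w' _ h => List.append_cancel_right h
  set J : Finset (List (Fin r)) := P.preimage (fun w => w ++ y) hinjy with hJ
  have hJmem : ∀ w, w ∈ J ↔ w ++ y ∈ P := fun w => mem_preimage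
  refine ⟨J, ?_, ?_, ?_⟩
  · intro w hw
    have h1 := hPX' ((hJmem w).1 hw)
    obtain ⟨u, -, hu⟩ := mem_image.1 h1
    have h2 := hlen u
    rw [hu, List.length_append] at h2
    omega
  · have htr : ∀ (k : ℕ) (w : List (Fin r)), Tree P k (w ++ y) → Tree J k w := by
      intro k
      induction k with
      | zero => intro w h; exact (hJmem w).2 h
      | succ k ih =>
        rintro w ⟨h1, z, ⟨t, rfl⟩, h2⟩
        refine ⟨(hJmem w).2 h1, t ++ w, List.suffix_append _ _, fun c => ?_⟩
        obtain ⟨y', ⟨s, rfl⟩, h3⟩ := h2 c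
        refine ⟨s ++ (c :: (t ++ w)), List.suffix_append _ _, ih _ ?_⟩
        have e1 : (s ++ c :: (t ++ w)) ++ y = s ++ c :: (t ++ (w ++ y)) := by simp
        rw [e1]
        exact h3
    exact htr k [] (by rw [List.nil_append]; exact hTree)
  · intro R
    have hyP : y ∈ P := Tree_mem hTree
    have hBn : ((B.toNat : ℕ) : ℤ) = B := Int.toNat_of_nonneg hB0
    have hcast : ∀ n ∈ {n : ℕ | ∀ w : List (Fin r), w.length ≤ R + y.length →
        ((Val a b w (n + B)).toNat.Prime ↔ w ∈ P)},
        (((Val a b y (n + B)).toNat : ℕ) : ℤ) = Val a b y (n + B) := by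
      intro n hn
      rw [hval, Int.toNat_natCast]
    have hinj2 : Set.InjOn (fun n : ℕ => (Val a b y (n + B)).toNat)
        {n : ℕ | ∀ w : List (Fin r), w.length ≤ R + y.length →
          ((Val a b w (n + B)).toNat.Prime ↔ w ∈ P)} := by
      intro n hn n' hn' h
      have h4 := hcast n hn
      have h5 := hcast n' hn'
      simp only at h
      rw [h, h5] at h4
      have := Val_inj ha y h4
      omega
    refine ((hPinf (R + y.length)).image hinj2).mono ?_
    rintro _ ⟨n, hn, rfl⟩
    refine ⟨(hn y (by omega)).2 hyP, fun w hw => ?_⟩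
    rw [hcast n hn, ← Val_append, hJmem]
    exact hn (w ++ y) (by rw [List.length_append]; omega)

/-- incongruent digits give a free semigroup -/
theorem free_of_incong {a : ℤ} {r : ℕ} {b : Fin r → ℤ} (ha : 2 ≤ a)
    (h : ∀ c c' : Fin r, a ∣ b c - b c' → c = c') : Function.Injective (Val a b) := by
  intro w v hwv
  have h0 : ∀ x, Val a b w x = Val a b v x := fun x => congrFun hwv x
  have hl : w.length = v.length := by
    have e1 := h0 0
    have e2 := h0 1
    rw [Val_zero w 1, Val_zero v 1, e1] at e2
    have e3 : a ^ w.length = a ^ v.length := by linarith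
    exact (pow_right_strictMono₀ (by omega : 1 < a)).injective e3
  have key : ∀ w v : List (Fin r), w.length = v.length → Val a b w 0 = Val a b v 0 → w = v := by
    intro w
    induction w with
    | nil => intro v hl _; exact (List.eq_nil_of_length_eq_zero (by simpa using hl.symm)).symm
    | cons c w ih =>
      intro v hl hv
      cases v with
      | nil => simp at hl
      | cons c' v =>
        simp only [Val] at hv
        have h1 : c = c' := h c c' ⟨Val a b v 0 - Val a b w 0, by linarith⟩
        subst h1
        have h2 : Val a b w 0 = Val a b v 0 := by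
          have : a * Val a b w 0 = a * Val a b v 0 := by linarith
          exact mul_left_cancel₀ (by omega) this
        rw [ih v (by simpa using hl) h2]
  exact key w v hl (h0 0)

/-- two different digits give a free semigroup -/
theorem free_of_two {a : ℤ} {b : Fin 2 → ℤ} (ha : 2 ≤ a) (h : b 0 ≠ b 1) : Function.Injective (Val a b) := by
  intro w v hwv
  have h0 : ∀ x, Val a b w x = Val a b v x := fun x => congrFun hwv x
  have hl : w.length = v.length := by
    have e1 := h0 0
    have e2 := h0 1
    rw [Val_zero w 1, Val_zero v 1, e1] at e2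
    have e3 : a ^ w.length = a ^ v.length := by linarith
    exact (pow_right_strictMono₀ (by omega : 1 < a)).injective e3
  have hdig : ∀ c c' : Fin 2, b 1 - b 0 ∣ b c - b c' := by
    intro c c'
    fin_cases c <;> fin_cases c'
    · simp
    · exact ⟨-1, by simp⟩
    · exact ⟨1, by simp⟩
    · simp
  have hdv : ∀ w v : List (Fin 2), w.length = v.length → b 1 - b 0 ∣ Val a b w 0 - Val a b v 0 := by
    intro w
    induction w with
    | nil =>
      intro v hl
      rw [(List.eq_nil_of_length_eq_zero (by simpa using hl.symm) : v = [])]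
      simp
    | cons c w ih =>
      intro v hl
      cases v with
      | nil => simp at hl
      | cons c' v =>
        simp only [Val]
        have e1 := (ih v (by simpa using hl)).mul_left a
        have e2 := dvd_add e1 (hdig c c')
        have e3 : a * Val a b w 0 + b c - (a * Val a b v 0 + b c') =
          a * (Val a b w 0 - Val a b v 0) + (b c - b c') := by ring
        rw [e3]
        exact e2
  have key : ∀ w v : List (Fin 2), w.length = v.length → Val a b w 0 = Val a b v 0 → w = v := by
    intro w
    induction w with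
    | nil => intro v hl _; exact (List.eq_nil_of_length_eq_zero (by simpa using hl.symm)).symm
    | cons c w ih =>
      intro v hl hv
      cases v with
      | nil => simp at hl
      | cons c' v =>
        simp only [Val] at hv
        have hl' : w.length = v.length := by simpa using hl
        have h1 : c = c' := by
          by_contra hcc
          obtain ⟨t, ht⟩ := hdv w v hl'
          have h2 : a * ((b 1 - b 0) * t) = b c' - b c := by
            rw [← ht]
            linarith
          have h3 : b c' - b c = b 1 - b 0 ∨ b c' - b c = -(b 1 - b 0) := by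
            fin_cases c <;> fin_cases c'
            · exact absurd rfl hcc
            · left; rfl
            · right; simp
            · exact absurd rfl hcc
          have hne : b 1 - b 0 ≠ 0 := fun h' => h (by linarith)
          have h4 : a ∣ 1 := by
            rcases h3 with h3 | h3
            · refine ⟨t, ?_⟩
              have : (b 1 - b 0) * (a * t) = (b 1 - b 0) * 1 := by
                rw [h3] at h2
                linarith
              exact (mul_left_cancel₀ hne this).symm
            · refine ⟨-t, ?_⟩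
              have : (b 1 - b 0) * (a * -t) = (b 1 - b 0) * 1 := by
                rw [h3] at h2
                linarith
              exact (mul_left_cancel₀ hne this).symm
          have := Int.le_of_dvd one_pos h4
          omega
        subst h1
        have h2 : Val a b w 0 = Val a b v 0 := by
          have : a * Val a b w 0 = a * Val a b v 0 := by linarith
          exact mul_left_cancel₀ (by omega) this
        rw [ih v hl' h2]
  exact key w v hl (h0 0)

end Pool.Agent.Run7.h189.CO
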