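import Mathlib
import Pool.Agent.Run7.h189.CO.TreeMain
import Pool.Agent.Run7.h189.CO.Aff
import Pool.Agent.H732R3.HausA

/-!
# The primes in the orbits of several affine maps follow every finite set of words up to a bounded error
-/

set_option autoImplicit false

namespace Pool.Agent.Run7.h189.CO

open Filter Finset

/-- powers of an affine map modulo a prime -/
theorem affine_pow {p : ℕ} (hp : p.Prime) {A : ℤ} (hpA : ¬ (p : ℤ) ∣ A) (B : ℤ) (n : ℕ) (h1 : p ∣ n)
    (h2 : p - 1 ∣ n) (x : ℤ) : (p : ℤ) ∣ It A B n x - x := by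
  have : Fact p.Prime := ⟨hp⟩
  have ha0 : (A : ZMod p) ≠ 0 := fun h => hpA ((ZMod.intCast_zmod_eq_zero_iff_dvd _ _).1 h)
  have hpow : (A : ZMod p) ^ n = 1 := by
    obtain ⟨t, rfl⟩ := h2
    rw [pow_mul, ZMod.pow_card_sub_one_eq_one ha0, one_pow]
  have hsum : ∑ i ∈ range n, (A : ZMod p) ^ i = 0 := by
    have h3 := geom_sum_mul (A : ZMod p) n
    rw [hpow, sub_self] at h3
    rcases mul_eq_zero.1 h3 with h4 | h4
    · exact h4
    · have h5 : (A : ZMod p) = 1 := sub_eq_zero.1 h4
      rw [h5]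
      simp only [one_pow, sum_const, card_range, nsmul_eq_mul, mul_one]
      exact (ZMod.natCast_eq_zero_iff _ _).2 h1
  rw [← ZMod.intCast_zmod_eq_zero_iff_dvd]
  unfold It
  push_cast
  rw [hpow, hsum]
  ring

section

variable {r : ℕ} {a : ℤ} {b : Fin r → ℤ}

theorem Val_flatten (s : List (Fin r)) (n : ℕ) (x : ℤ) :
    Val a b (List.replicate n s).flatten x = It (a ^ s.length) (Val a b s 0) n x := by
  induction n with
  | zero => rw [List.replicate_zero, List.flatten_nil, It_zero]; rfl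
  | succ n ih =>
    rw [List.replicate_succ, List.flatten_cons, Val_append, ih, It_succ, Val_zero s (It _ _ n x)]

/-- words which correct the residues modulo small primes -/
theorem correction (a : ℤ) (b : Fin r → ℤ) (nf : ℕ) : ∃ Q₀ : ℕ, ∀ s : List (Fin r), ∃ c : List (Fin r),
    c.length ≤ Q₀ ∧ ∀ p : ℕ, p.Prime → p ≤ nf → ¬ (p : ℤ) ∣ a → ∀ x, (p : ℤ) ∣ Val a b (c ++ s) x - x := by
  classical
  set Q : ℕ := nf.factorial with hQ
  have : NeZero Q := ⟨nf.factorial_ne_zero⟩
  set f : List (Fin r) → ZMod Q × ZMod Q := fun s => (((a ^ s.length : ℤ) : ZMod Q), ((Val a b s 0 : ℤ) : ZMod Q))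
    with hf
  set M : ℕ := Q * Q with hM
  have hM1 : 1 ≤ M := Nat.mul_pos nf.factorial_pos nf.factorial_pos
  set cw : ZMod Q × ZMod Q → List (Fin r) := fun v => if h : ∃ s, f s = v then
    (List.replicate (M - 1) h.choose).flatten else [] with hcw
  refine ⟨∑ v, (cw v).length, fun s => ⟨cw (f s), single_le_sum (f := fun v => (cw v).length)
    (fun _ _ => Nat.zero_le _) (mem_univ _), ?_⟩⟩
  intro p hp hpn hpa x
  have hex : ∃ s', f s' = f s := ⟨s, rfl⟩
  have hs' : f hex.choose = f s := hex.choose_spec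
  set s' := hex.choose with hs'def
  have hc : cw (f s) = (List.replicate (M - 1) s').flatten := by
    simp only [hcw, dif_pos hex]
    rfl
  have hpQ : (p : ℤ) ∣ (Q : ℤ) := by exact_mod_cast Nat.dvd_factorial hp.pos hpn
  have h1 : (p : ℤ) ∣ a ^ s.length - a ^ s'.length := by
    refine hpQ.trans ((ZMod.intCast_zmod_eq_zero_iff_dvd _ _).1 ?_)
    have := congrArg Prod.fst hs'
    simp only [hf] at this
    push_cast at this ⊢
    rw [this, sub_self]
  have h2 : (p : ℤ) ∣ Val a b s 0 - Val a b s' 0 := by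
    refine hpQ.trans ((ZMod.intCast_zmod_eq_zero_iff_dvd _ _).1 ?_)
    have := congrArg Prod.snd hs'
    simp only [hf] at this
    push_cast
    rw [this, sub_self]
  have h3 : (p : ℤ) ∣ Val a b s x - Val a b s' x := by
    rw [Val_zero s x, Val_zero s' x]
    have e : a ^ s.length * x + Val a b s 0 - (a ^ s'.length * x + Val a b s' 0) =
      (a ^ s.length - a ^ s'.length) * x + (Val a b s 0 - Val a b s' 0) := by ring
    rw [e]
    exact dvd_add (h1.mul_right _) h2
  have h4 : (p : ℤ) ∣ Val a b (cw (f s)) (Val a b s x) - Val a b (cw (f s)) (Val a b s' x) := by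
    rw [Val_zero (cw (f s)) (Val a b s x), Val_zero (cw (f s)) (Val a b s' x)]
    have e : a ^ (cw (f s)).length * Val a b s x + Val a b (cw (f s)) 0 -
      (a ^ (cw (f s)).length * Val a b s' x + Val a b (cw (f s)) 0) =
      a ^ (cw (f s)).length * (Val a b s x - Val a b s' x) := by ring
    rw [e]
    exact h3.mul_left _
  have h5 : Val a b (cw (f s)) (Val a b s' x) = It (a ^ s'.length) (Val a b s' 0) M x := by
    rw [← Val_append, hc, ← Val_flatten]
    congr 1
    obtain ⟨M', hM'⟩ := Nat.exists_eq_add_of_le' hM1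
    rw [hM', Nat.add_sub_cancel, List.replicate_succ', List.flatten_append]
    simp
  have h6 : (p : ℤ) ∣ It (a ^ s'.length) (Val a b s' 0) M x - x := by
    refine affine_pow hp (fun h => hpa ((Nat.prime_iff_prime_int.1 hp).dvd_of_dvd_pow h)) _ M
      ((Nat.dvd_factorial hp.pos hpn).mul_right _) ((Nat.dvd_factorial ?_ (by omega)).mul_right _) x
    have := hp.two_le
    omega
  rw [Val_append]
  have := dvd_add h4 h6
  rw [h5, sub_add_sub_cancel] at this
  exact this

end

open Classical in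
/-- **exact patterns of words**, a quarter of the classes is hit -/
theorem pattern_words (T : ℕ) : ∃ K : ℕ, 1 ≤ K ∧ ∀ {r : ℕ} {a : ℤ} {b : Fin r → ℤ}, 2 ≤ a →
    (∀ c, IsCoprime a (b c)) → Function.Injective (Val a b) →
    ∀ ti : Fin T × Fin K → List (Fin r), Function.Injective ti →
    (∀ p : ℕ, p.Prime → p ≤ T * K → ∃ s : ℤ, ∀ u, ¬ (p : ℤ) ∣ Val a b (ti u) s) → ∀ R : ℕ,
    ∃ P ⊆ univ.image ti, T ≤ 4 * ((univ.filter (fun u => ti u ∈ P)).image Prod.fst).card ∧
      {x : ℕ | ∀ w : List (Fin r), w.length ≤ R → ((Val a b w x).toNat.Prime ↔ w ∈ P)}.Infinite := by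
  obtain ⟨K, hK, hq⟩ := Pool.Agent.H362R2.CM.quarter T
  refine ⟨K, hK, ?_⟩
  intro r a b ha hb hinj ti htinj hloc R
  set B : ℤ := ∑ c, |b c| with hB
  have hB0 : 0 ≤ B := sum_nonneg fun _ _ => abs_nonneg _
  have hBc : ∀ c, -B ≤ b c := fun c => by
    have h1 : |b c| ≤ B := single_le_sum (f := fun c => |b c|) (fun _ _ => abs_nonneg _) (mem_univ c)
    have := neg_abs_le (b c)
    linarith
  have hα : ∀ w : List (Fin r), (((a ^ w.length).toNat : ℕ) : ℤ) = a ^ w.length := fun w =>
    Int.toNat_of_nonneg (pow_nonneg (by omega) _)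
  have hβ : ∀ w : List (Fin r), (((Val a b w B).toNat : ℕ) : ℤ) = Val a b w B := fun w =>
    Int.toNat_of_nonneg (hB0.trans (Val_mono ha hBc hB0 w))
  have hval : ∀ (w : List (Fin r)) (n : ℕ), Val a b w (n + B) =
      (((a ^ w.length).toNat * n + (Val a b w B).toNat : ℕ) : ℤ) := by
    intro w n
    rw [Nat.cast_add, Nat.cast_mul, hα, hβ, Val_add]
  set X : Finset (List (Fin r)) := univ.image ti with hX
  have hXcard : X.card ≤ T * K := by
    refine card_image_le.trans (le_of_eq ?_)
    rw [card_univ, Fintype.card_prod, Fintype.card_fin, Fintype.card_fin]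
  have hmem : ∀ u, ti u ∈ X := fun u => mem_image_of_mem _ (mem_univ _)
  have hadm : ∀ p : ℕ, p.Prime → ∃ s : ℕ, ∀ w ∈ X, ¬ p ∣ (a ^ w.length).toNat * s + (Val a b w B).toNat := by
    intro p hp
    have : NeZero p := ⟨hp.ne_zero⟩
    have hpz : Prime (p : ℤ) := Nat.prime_iff_prime_int.1 hp
    obtain ⟨s, hs⟩ : ∃ s : ℤ, ∀ w ∈ X, ¬ (p : ℤ) ∣ a ^ w.length * s + Val a b w 0 := by
      rcases Nat.lt_or_ge X.card p with hpX | hpX
      · exact few_forms X _ _ (fun w _ => Val_cop' hb w) hp hpX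
      · obtain ⟨s, hs⟩ := hloc p hp (hpX.trans hXcard)
        refine ⟨s, fun w hw => ?_⟩
        rw [← Val_zero]
        obtain ⟨u, -, rfl⟩ := mem_image.1 hw
        exact hs u
    refine ⟨(((s - B : ℤ) : ZMod p).val : ℕ), fun w hw hd => hs w hw ?_⟩
    have h1 : (p : ℤ) ∣ ((((a ^ w.length).toNat * ((((s - B : ℤ) : ZMod p).val : ℕ)) +
        (Val a b w B).toNat : ℕ)) : ℤ) := by exact_mod_cast hd
    rw [← ZMod.intCast_zmod_eq_zero_iff_dvd] at h1 ⊢
    rw [Nat.cast_add, Nat.cast_mul, hα, hβ, Val_zero w B] at h1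
    push_cast at h1 ⊢
    rw [ZMod.natCast_zmod_val] at h1
    push_cast at h1
    rw [← h1]
    ring
  obtain ⟨P, hPX, hPg, hPi⟩ : ∃ P ⊆ X, T ≤ 4 * ((univ.filter (fun u => ti u ∈ P)).image Prod.fst).card ∧
      {n : ℕ | ∀ w ∈ (List.finite_length_le (Fin r) R).toFinset,
        ((a ^ w.length).toNat * n + (Val a b w B).toNat).Prime ↔ w ∈ P}.Infinite := by
    refine exact_gen (fun w => (a ^ w.length).toNat) (fun w => (Val a b w B).toNat) (fun w => by
        have h1 : (1 : ℤ) ≤ a ^ w.length := one_le_pow₀ (by omega)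
        have h2 := hα w
        omega)
      (fun w v hwv h => Val_nonprop ha hb hinj B w v hwv (by
        have h1 : (((a ^ w.length).toNat * (Val a b v B).toNat : ℕ) : ℤ) =
          (((a ^ v.length).toNat * (Val a b w B).toNat : ℕ) : ℤ) := by exact_mod_cast h
        rw [Nat.cast_mul, Nat.cast_mul, hα, hα, hβ, hβ] at h1
        exact h1)) X _ hadm _ ?_
    intro A B' hA hAB hadm'
    obtain ⟨S', c, hS', hinf⟩ := hq (fun g i => ((A (ti (g, i)) : ℕ) : ℤ))
      (fun g i => ((B' (ti (g, i)) : ℕ) : ℤ))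
      (fun g i => by exact_mod_cast hA _ (hmem _))
      (by
        rintro ⟨g, i⟩ ⟨g', i'⟩ h
        simp only [Prod.mk.injEq] at h
        exact htinj (hAB _ (hmem _) _ (hmem _) (by exact_mod_cast h.1) (by exact_mod_cast h.2)))
      (by
        intro p hp
        obtain ⟨s, hs⟩ := hadm' p hp
        exact ⟨s, fun g i hd => hs _ (hmem (g, i)) (by exact_mod_cast hd)⟩)
    refine hinf.mono ?_
    intro n hn
    refine hS'.trans (Nat.mul_le_mul_left _ (card_le_card ?_))
    intro g hg
    refine mem_image.2 ⟨(g, c g), mem_filter.2 ⟨mem_univ _, mem_filter.2 ⟨hmem _, ?_⟩⟩, rfl⟩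
    exact Nat.prime_iff_prime_int.2 (by exact_mod_cast (hn g hg).2)
  refine ⟨P, hPX, hPg, ?_⟩
  have hinj' : Set.InjOn (fun n : ℕ => n + B.toNat) {n : ℕ | ∀ w ∈ (List.finite_length_le (Fin r) R).toFinset,
        ((a ^ w.length).toNat * n + (Val a b w B).toNat).Prime ↔ w ∈ P} := by
    intro n _ n' _ e
    simp only at e
    omega
  refine (hPi.image hinj').mono ?_
  rintro _ ⟨n, hn, rfl⟩ w hw
  have h1 := hn w ((List.finite_length_le (Fin r) R).mem_toFinset.2 hw)
  have h2 : (((n + B.toNat : ℕ)) : ℤ) = n + B := by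
    rw [Nat.cast_add, Int.toNat_of_nonneg hB0]
  rw [h2, hval, Int.toNat_natCast, h1]

section clusters

variable {r : ℕ} {a : ℤ} {b : Fin r → ℤ}

/-- `z` is above `s` with an error of at most `E` letters -/
def Abv (E : ℕ) (s z : List (Fin r)) : Prop := ∃ e : List (Fin r), e.length ≤ E ∧ z = e ++ s

/-- the exact pattern at `x` up to the level `R` -/
def Ex (a : ℤ) (b : Fin r → ℤ) (P : Finset (List (Fin r))) (R : ℕ) (x : ℕ) : Prop :=
  ∀ w : List (Fin r), w.length ≤ R → ((Val a b w x).toNat.Prime ↔ w ∈ P)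

open Classical in
theorem clustersW (ha : 2 ≤ a) (hb : ∀ c, IsCoprime a (b c)) (hinj : Function.Injective (Val a b))
    (hr : 1 ≤ r) (W m : ℕ) (hm : 1 ≤ m) : ∃ E : ℕ, ∀ s : Fin W → List (Fin r),
    (∀ g g', g ≠ g' → ∀ e e' : List (Fin r), e.length ≤ E → e'.length ≤ E → e ++ s g ≠ e' ++ s g') →
    ∀ R : ℕ, ∃ (P : Finset (List (Fin r))) (A : Finset (Fin W)), W ≤ 8 * A.card ∧
      (∀ g ∈ A, m ≤ (P.filter (fun z => Abv E (s g) z)).card) ∧ (∀ z ∈ P, ∃ g, Abv E (s g) z) ∧
      {x : ℕ | Ex a b P R x}.Infinite := by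
  obtain ⟨K, hK, hpat⟩ := pattern_words (W * (8 * m))
  set nf : ℕ := W * (8 * m) * K with hnf
  obtain ⟨Q₀, hQ₀⟩ := correction a b nf
  choose c hcl hc using hQ₀
  set N : ℕ := nf.factorial * nf.factorial with hN
  have hN1 : 1 ≤ N := Nat.mul_pos nf.factorial_pos nf.factorial_pos
  set c₀ : Fin r := ⟨0, hr⟩ with hc₀
  set E : ℕ := N * (8 * m * K) + Q₀ with hE
  refine ⟨E, fun s hs R => ?_⟩
  let q : Fin W × Fin (8 * m) ≃ Fin (W * (8 * m)) := finProdFinEquiv
  set ti : Fin (W * (8 * m)) × Fin K → List (Fin r) := fun u =>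
    List.replicate (N * ((q.symm u.1).2 * K + u.2)) c₀ ++ (c (s (q.symm u.1).1) ++ s (q.symm u.1).1) with hti
  have hidx : ∀ u : Fin (W * (8 * m)) × Fin K, ((q.symm u.1).2 : ℕ) * K + u.2 < 8 * m * K := by
    intro u
    have h1 := (q.symm u.1).2.2
    have h2 := u.2.2
    have h3 : (((q.symm u.1).2 : ℕ) + 1) * K ≤ 8 * m * K := Nat.mul_le_mul_right K h1
    rw [add_mul, one_mul] at h3
    omega
  have htE : ∀ u, Abv E (s (q.symm u.1).1) (ti u) := by
    intro u
    refine ⟨List.replicate (N * ((q.symm u.1).2 * K + u.2)) c₀ ++ c (s (q.symm u.1).1), ?_, ?_⟩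
    · rw [List.length_append, List.length_replicate]
      exact Nat.add_le_add (Nat.mul_le_mul_left _ (hidx u).le) (hcl _)
    · simp only [hti, List.append_assoc]
  have htinj : Function.Injective ti := by
    rintro ⟨g, i⟩ ⟨g', i'⟩ h
    have h0 : (q.symm g).1 = (q.symm g').1 := by
      by_contra hne
      obtain ⟨e, he, h1⟩ := htE (g, i)
      obtain ⟨e', he', h2⟩ := htE (g', i')
      exact hs _ _ hne e e' he he' (by rw [← h1, ← h2, h])
    have h1 := congrArg List.length h
    simp only [hti, List.length_append, List.length_replicate] at h1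
    rw [h0] at h1
    have h2 : N * (((q.symm g).2 : ℕ) * K + i) = N * (((q.symm g').2 : ℕ) * K + i') := by omega
    have h3 := Nat.eq_of_mul_eq_mul_left (by omega) h2
    have hi := i.2
    have hi' := i'.2
    have h4 : ((q.symm g).2 : ℕ) = (q.symm g').2 := by
      have f1 : (((q.symm g).2 : ℕ) * K + i) / K = (q.symm g).2 := by
        rw [mul_comm, Nat.mul_add_div (by omega), Nat.div_eq_of_lt hi, add_zero]
      have f2 : (((q.symm g').2 : ℕ) * K + i') / K = (q.symm g').2 := by
        rw [mul_comm, Nat.mul_add_div (by omega), Nat.div_eq_of_lt hi', add_zero]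
      rw [← f1, h3, f2]
    have h5 : q.symm g = q.symm g' := Prod.ext h0 (Fin.ext h4)
    rw [h4] at h3
    rw [Prod.mk.injEq]
    exact ⟨q.symm.injective h5, Fin.ext (by omega)⟩
  obtain ⟨P, hPX, hPg, hPi⟩ := hpat ha hb hinj ti htinj (by
    intro p hp hpn
    have hpz : Prime (p : ℤ) := Nat.prime_iff_prime_int.1 hp
    refine ⟨1, fun u => ?_⟩
    by_cases hpa : (p : ℤ) ∣ a
    · exact Val_one hb hp hpa _
    · intro hd
      simp only [hti] at hd
      rw [Val_append] at hd
      have h1 := Val_rep (b := b) hp hpa c₀ (N * ((q.symm u.1).2 * K + u.2))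
        (((Nat.dvd_factorial hp.pos hpn).mul_right _).mul_right _)
        (((Nat.dvd_factorial (by have := hp.two_le; omega) (by omega)).mul_right _).mul_right _)
        (Val a b (c (s (q.symm u.1).1) ++ s (q.symm u.1).1) 1)
      have h2 := hc (s (q.symm u.1).1) p hp hpn hpa 1
      have h3 := dvd_add h1 h2
      rw [sub_add_sub_cancel] at h3
      have h4 := dvd_sub hd h3
      rw [sub_sub_cancel] at h4
      exact hpz.not_dvd_one h4) R
  set S : Finset (Fin (W * (8 * m))) := (univ.filter (fun u => ti u ∈ P)).image Prod.fst with hS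
  set F : Fin W → Finset (Fin (W * (8 * m))) := fun w => S.filter (fun g => (q.symm g).1 = w) with hF
  set A : Finset (Fin W) := univ.filter (fun w => m ≤ (F w).card) with hA
  refine ⟨P, A, ?_, ?_, ?_, hPi⟩
  · have h1 : S.card = ∑ w, (F w).card := by
      rw [card_eq_sum_card_fiberwise (f := fun g => (q.symm g).1) (t := univ) (fun _ _ => by simp)]
    have h2 : ∀ w, (F w).card ≤ 8 * m := by
      intro w
      have h3 : (F w).card ≤ (univ : Finset (Fin (8 * m))).card := by
        apply card_le_card_of_injOn (fun g => (q.symm g).2) (fun _ _ => by simp)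
        intro g hg g' hg' hgg
        have e1 := (mem_filter.1 hg).2
        have e2 := (mem_filter.1 hg').2
        apply q.symm.injective
        exact Prod.ext (e1.trans e2.symm) hgg
      simpa using h3
    have h3 : S.card ≤ A.card * (8 * m) + W * m := by
      rw [h1]
      calc ∑ w, (F w).card ≤ ∑ w, ((if w ∈ A then 8 * m else 0) + m) := by
            apply sum_le_sum
            intro w _
            by_cases hw : w ∈ A
            · rw [if_pos hw]
              have := h2 w
              omega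
            · rw [if_neg hw]
              have : ¬ m ≤ (F w).card := fun h => hw (mem_filter.2 ⟨mem_univ _, h⟩)
              omega
        _ = A.card * (8 * m) + W * m := by
            rw [sum_add_distrib, sum_const, ← sum_filter, sum_const]
            simp
    have h4 : W * (8 * m) ≤ 4 * (A.card * (8 * m) + W * m) := hPg.trans (by omega)
    have h5 : W * (4 * m) ≤ (8 * A.card) * (4 * m) := by nlinarith
    exact Nat.le_of_mul_le_mul_right h5 (by omega)
  · intro w hw
    refine (mem_filter.1 hw).2.trans ?_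
    have hex : ∀ g ∈ S, ∃ i, ti (g, i) ∈ P := by
      intro g hg
      obtain ⟨u, hu, rfl⟩ := mem_image.1 hg
      exact ⟨u.2, (mem_filter.1 hu).2⟩
    have : Nonempty (Fin K) := ⟨⟨0, hK⟩⟩
    choose! i hi using hex
    apply card_le_card_of_injOn (fun g => ti (g, i g))
    · intro g hg
      have hg' := mem_filter.1 hg
      rw [mem_coe, mem_filter]
      refine ⟨hi g hg'.1, ?_⟩
      have := htE (g, i g)
      simp only [hg'.2] at this
      exact this
    · intro g _ g' _ h
      have := htinj h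
      exact congrArg Prod.fst this
  · intro z hz
    obtain ⟨u, -, rfl⟩ := mem_image.1 (hPX hz)
    exact ⟨_, htE u⟩

/-! ### every finite set of words -/

open Classical in
/-- near the words `v i` -/
def NearW (C m : ℕ) {k : ℕ} (v : Fin k → List (Fin r)) (J : Finset (List (Fin r))) : Prop :=
  (∀ i, m ≤ (J.filter (fun z => Abv C (v i) z)).card) ∧ ∀ z ∈ J, ∃ i, Abv C (v i) z

/-- the statement for `k` words -/
def StW (a : ℤ) (b : Fin r → ℤ) (m k : ℕ) : Prop :=
  ∃ C : ℕ, ∀ (v : Fin k → List (Fin r)) (R : ℕ), ∃ J : Finset (List (Fin r)), NearW C m v J ∧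
    {x : ℕ | Ex a b J R x}.Infinite

theorem Abv.mono {E E' : ℕ} (h : E ≤ E') {s z : List (Fin r)} (hz : Abv E s z) : Abv E' s z := by
  obtain ⟨e, he, rfl⟩ := hz
  exact ⟨e, he.trans h, rfl⟩

open Classical in
theorem mergeW {m k C0 G : ℕ} (h : ∀ (v : Fin k → List (Fin r)) (R : ℕ), ∃ J : Finset (List (Fin r)),
    NearW C0 m v J ∧ {x : ℕ | Ex a b J R x}.Infinite) (v : Fin (k + 1) → List (Fin r)) (R : ℕ)
    {i i' : Fin (k + 1)} (hne : i ≠ i') {e : List (Fin r)} (he : e.length ≤ G) (hv : v i = e ++ v i') :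
    ∃ J : Finset (List (Fin r)), NearW (C0 + G) m v J ∧ {x : ℕ | Ex a b J R x}.Infinite := by
  obtain ⟨J, ⟨h1, h2⟩, h3⟩ := h (fun x => v (i'.succAbove x)) R
  refine ⟨J, ⟨fun x => ?_, fun y hy => ?_⟩, h3⟩
  · by_cases hx : x = i'
    · subst hx
      obtain ⟨z, hz⟩ := Fin.exists_succAbove_eq hne
      refine (h1 z).trans (card_le_card ?_)
      intro y hy
      rw [mem_filter] at hy ⊢
      refine ⟨hy.1, ?_⟩
      obtain ⟨e', he', hy'⟩ := hy.2
      simp only [hz] at hy'
      refine ⟨e' ++ e, ?_, ?_⟩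
      · rw [List.length_append]
        omega
      · rw [hy', hv, List.append_assoc]
    · obtain ⟨z, hz⟩ := Fin.exists_succAbove_eq hx
      refine (h1 z).trans (card_le_card ?_)
      intro y hy
      rw [mem_filter] at hy ⊢
      refine ⟨hy.1, ?_⟩
      have h4 := hy.2
      simp only [hz] at h4
      exact h4.mono (Nat.le_add_right _ _)
  · obtain ⟨z, hz⟩ := h2 y hy
    exact ⟨_, hz.mono (Nat.le_add_right _ _)⟩

/-- the concatenation of the first `j` words, the first one is the head -/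
def cat (f : ℕ → List (Fin r)) : ℕ → List (Fin r)
  | 0 => []
  | j + 1 => cat f j ++ f j

theorem cat_split (f : ℕ → List (Fin r)) (i j : ℕ) :
    cat f (i + j) = cat f i ++ cat (fun l => f (i + l)) j := by
  induction j with
  | zero => simp [cat]
  | succ j ih => rw [← add_assoc, cat, ih, cat, List.append_assoc]

theorem cat_length (f : ℕ → List (Fin r)) (j : ℕ) : (cat f j).length = ∑ i ∈ range j, (f i).length := by
  induction j with
  | zero => simp [cat]
  | succ j ih => rw [cat, List.length_append, ih, sum_range_succ]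

theorem cat_congr {f g : ℕ → List (Fin r)} {j : ℕ} (h : ∀ i < j, f i = g i) : cat f j = cat g j := by
  induction j with
  | zero => rfl
  | succ j ih => rw [cat, cat, ih (fun i hi => h i (by omega)), h j (by omega)]

open Classical in
theorem stepW (ha : 2 ≤ a) (hb : ∀ c, IsCoprime a (b c)) (hinj : Function.Injective (Val a b)) (hr : 1 ≤ r)
    (m k : ℕ) (hm : 1 ≤ m) (hk : k = 0 ∨ StW a b m k) : StW a b m (k + 1) := by
  obtain ⟨C0, hC0⟩ : ∃ C0 : ℕ, k = 0 ∨ ∀ (v : Fin k → List (Fin r)) (R : ℕ), ∃ J : Finset (List (Fin r)),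
      NearW C0 m v J ∧ {x : ℕ | Ex a b J R x}.Infinite := by
    rcases hk with h | ⟨C, hC⟩
    · exact ⟨0, Or.inl h⟩
    · exact ⟨C, Or.inr hC⟩
  by_contra hcon
  have hcon' : ∀ C : ℕ, ∃ (v : Fin (k + 1) → List (Fin r)) (R : ℕ), ∀ J : Finset (List (Fin r)),
      NearW C m v J → ¬ {x : ℕ | Ex a b J R x}.Infinite := by
    intro C
    by_contra h
    apply hcon
    refine ⟨C, fun v R => ?_⟩
    by_contra h2
    apply h
    exact ⟨v, R, fun J hJ hI => h2 ⟨J, hJ, hI⟩⟩
  choose vB RB hB using hcon'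
  -- the patterns are separated
  have hsep : ∀ G : ℕ, ∀ i i' : Fin (k + 1), i ≠ i' → ∀ e e' : List (Fin r), e.length ≤ G → e'.length ≤ G →
      e ++ vB (C0 + G) i ≠ e' ++ vB (C0 + G) i' := by
    intro G i i' hne e e' he he' heq
    rcases hC0 with h0 | h0
    · subst h0
      exact hne (Fin.ext (by omega))
    · rcases Nat.le_total (vB (C0 + G) i).length (vB (C0 + G) i').length with hle | hle
      · have h1 : vB (C0 + G) i <:+ vB (C0 + G) i' :=
          List.suffix_of_suffix_length_le ⟨e, rfl⟩ ⟨e', heq.symm⟩ hle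
        obtain ⟨t, ht⟩ := h1
        have h2 : t.length ≤ G := by
          have h3 := congrArg List.length heq
          rw [← ht] at h3
          simp only [List.length_append] at h3
          omega
        obtain ⟨J, hJ, hI⟩ := mergeW h0 (vB (C0 + G)) (RB (C0 + G)) (i := i') (i' := i) (Ne.symm hne) h2 ht.symm
        exact hB _ J hJ hI
      · have h1 : vB (C0 + G) i' <:+ vB (C0 + G) i :=
          List.suffix_of_suffix_length_le ⟨e', heq.symm⟩ ⟨e, rfl⟩ hle
        obtain ⟨t, ht⟩ := h1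
        have h2 : t.length ≤ G := by
          have h3 := congrArg List.length heq
          rw [← ht] at h3
          simp only [List.length_append] at h3
          omega
        obtain ⟨J, hJ, hI⟩ := mergeW h0 (vB (C0 + G)) (RB (C0 + G)) (i := i) (i' := i') hne h2 ht.symm
        exact hB _ J hJ hI
  obtain ⟨D, hD⟩ := Pool.Agent.H732R3.Haus.dhj_eighth k
  obtain ⟨E, hcl⟩ := clustersW ha hb hinj hr ((k + 1) ^ D) m hm
  obtain ⟨nrm, hnrm⟩ : ∃ nrm : (Fin (k + 1) → List (Fin r)) → ℕ, nrm = fun v => ∑ i, (v i).length := ⟨_, rfl⟩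
  have hnrm1 : ∀ (v : Fin (k + 1) → List (Fin r)) i, (v i).length ≤ nrm v := by
    intro v i
    rw [hnrm]
    exact single_le_sum (f := fun i => (v i).length) (fun _ _ => Nat.zero_le _) (mem_univ i)
  obtain ⟨G, hG0, hGs⟩ : ∃ G : ℕ → ℕ, G 0 = E ∧
      ∀ j, G (j + 1) = G j + nrm (vB (C0 + G j)) + RB (C0 + G j) :=
    ⟨fun j => Nat.rec E (fun _ g => g + nrm (vB (C0 + g)) + RB (C0 + g)) j, rfl, fun _ => rfl⟩
  obtain ⟨v, hv⟩ : ∃ v : ℕ → Fin (k + 1) → List (Fin r), v = fun j => vB (C0 + G j) := ⟨_, rfl⟩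
  obtain ⟨R, hR⟩ : ∃ R : ℕ → ℕ, R = fun j => RB (C0 + G j) := ⟨_, rfl⟩
  obtain ⟨N, hN⟩ : ∃ N : ℕ → ℕ, N = fun j => ∑ i ∈ range j, nrm (v i) := ⟨_, rfl⟩
  have hGsum : ∀ j, G j = E + N j + ∑ i ∈ range j, R i := by
    intro j
    induction j with
    | zero => simp [hG0, hN]
    | succ j ih =>
      rw [hGs, sum_range_succ, hN, hR]
      rw [hN, hR] at ih
      simp only [sum_range_succ, hv] at ih ⊢
      omega
  have hvsep : ∀ j, ∀ i i' : Fin (k + 1), i ≠ i' → ∀ e e' : List (Fin r), e.length ≤ G j → e'.length ≤ G j →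
      e ++ v j i ≠ e' ++ v j i' := by
    intro j i i' hne
    rw [hv]
    exact hsep (G j) i i' hne
  -- words
  obtain ⟨X, hX⟩ : ∃ X : (Fin D → Fin (k + 1)) → ℕ → List (Fin r),
    X = fun w j => if hj : j < D then v j (w ⟨j, hj⟩) else [] := ⟨_, rfl⟩
  have hX1 : ∀ w (j : ℕ) (hj : j < D), X w j = v j (w ⟨j, hj⟩) := by
    intro w j hj
    rw [hX]
    simp only [dif_pos hj]
  have hXb : ∀ w (j : ℕ), (X w j).length ≤ nrm (v j) := by
    intro w j
    by_cases hj : j < D
    · rw [hX1 w j hj]; exact hnrm1 _ _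
    · rw [hX]; simp only [dif_neg hj, List.length_nil]; exact Nat.zero_le _
  have hcatN : ∀ w j, (cat (X w) j).length ≤ N j := by
    intro w j
    rw [cat_length, hN]
    exact sum_le_sum fun i _ => hXb w i
  obtain ⟨s, hs⟩ : ∃ s : (Fin D → Fin (k + 1)) → List (Fin r), s = fun w => cat (X w) D := ⟨_, rfl⟩
  -- splitting at a coordinate
  have hsplit : ∀ w (j : ℕ) (hj : j < D), s w = cat (X w) j ++ (v j (w ⟨j, hj⟩) ++
      cat (fun l => X w (j + 1 + l)) (D - (j + 1))) := by
    intro w j hj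
    rw [hs]
    have h1 : D = (j + 1) + (D - (j + 1)) := by omega
    have h2 : cat (X w) D = cat (X w) ((j + 1) + (D - (j + 1))) := by rw [← h1]
    simp only
    rw [h2, cat_split, cat, hX1 w j hj, List.append_assoc]
  have hsD : ∀ w w' : Fin D → Fin (k + 1), w ≠ w' → ∀ e e' : List (Fin r), e.length ≤ E → e'.length ≤ E →
      e ++ s w ≠ e' ++ s w' := by
    intro w w' hww e e' he he' heq
    set Df : Finset (Fin D) := univ.filter (fun j => w j ≠ w' j) with hDf
    have hDne : Df.Nonempty := by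
      by_contra h
      apply hww
      funext j
      by_contra h2
      exact h ⟨j, mem_filter.2 ⟨mem_univ _, h2⟩⟩
    obtain ⟨j', hj'1, hj'2⟩ : ∃ j' ∈ Df, ∀ j ∈ Df, j ≤ j' :=
      ⟨Df.max' hDne, Df.max'_mem hDne, fun j hj => Df.le_max' j hj⟩
    have hne := (mem_filter.1 hj'1).2
    rw [hsplit w j' j'.2, hsplit w' j' j'.2] at heq
    have htail : cat (fun l => X w (j' + 1 + l)) (D - (j' + 1)) = cat (fun l => X w' (j' + 1 + l)) (D - (j' + 1)) := by
      refine cat_congr fun l hl => ?_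
      have hlD : (j' : ℕ) + 1 + l < D := by omega
      rw [hX1 w _ hlD, hX1 w' _ hlD]
      congr 1
      by_contra h5
      have h6 := hj'2 ⟨(j' : ℕ) + 1 + l, hlD⟩ (mem_filter.2 ⟨mem_univ _, h5⟩)
      have h7 := Fin.le_def.1 h6
      simp only at h7
      omega
    rw [htail, ← List.append_assoc, ← List.append_assoc, ← List.append_assoc, ← List.append_assoc] at heq
    have h8 := List.append_cancel_right heq
    refine hvsep j' _ _ hne _ _ ?_ ?_ h8
    · rw [List.length_append]
      have := hcatN w j'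
      have := hGsum j'
      omega
    · rw [List.length_append]
      have := hcatN w' j'
      have := hGsum j'
      omega
  let q : (Fin D → Fin (k + 1)) ≃ Fin ((k + 1) ^ D) := finFunctionFinEquiv
  obtain ⟨P, A, hA, hAm, hPc, hE⟩ := hcl (fun g => s (q.symm g)) (by
    intro g g' hne
    exact hsD _ _ (fun h => hne (q.symm.injective h))) (G D)
  obtain ⟨L, hL⟩ := hD (A.map q.symm.toEmbedding) (by rw [card_map]; exact hA)
  have hLS : ∀ i, q (L i) ∈ A := by
    intro i
    have := hL i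
    rw [Finset.mem_map] at this
    obtain ⟨g, hg, hgi⟩ := this
    have h2 : q (L i) = g := by
      rw [← hgi]
      simp
    rw [h2]; exact hg
  set Jn : Finset (Fin D) := univ.filter (fun j => L.idxFun j = none) with hJn
  have hJne : Jn.Nonempty := by
    obtain ⟨j, hj⟩ := L.proper
    exact ⟨j, by simp [hJn, hj]⟩
  obtain ⟨jf, hjf1, hjf2⟩ : ∃ jf : Fin D, L.idxFun jf = none ∧
      ∀ j : Fin D, jf < j → ∃ y, L.idxFun j = some y := by
    refine ⟨Jn.max' hJne, (mem_filter.1 (Jn.max'_mem hJne)).2, fun j hj => ?_⟩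
    apply Option.ne_none_iff_exists'.1
    intro h
    have : j ≤ Jn.max' hJne := Jn.le_max' j (by simp [hJn, h])
    exact absurd hj (not_lt.2 this)
  obtain ⟨js, hjs⟩ := jf
  have hact : ∀ i, L i ⟨js, hjs⟩ = i := fun i => Combinatorics.Line.apply_none _ _ _ hjf1
  have hfix : ∀ (j : ℕ) (hj : j < D), js < j → ∀ i, L i ⟨j, hj⟩ = L 0 ⟨j, hj⟩ := by
    intro j hj hlt i
    obtain ⟨y, hy⟩ := hjf2 ⟨j, hj⟩ hlt
    rw [Combinatorics.Line.apply_some hy, Combinatorics.Line.apply_some hy]
  obtain ⟨u, hu⟩ : ∃ u : List (Fin r), u = cat (fun l => X (L 0) (js + 1 + l)) (D - (js + 1)) := ⟨_, rfl⟩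
  let agree : (Fin D → Fin (k + 1)) → Prop := fun w =>
    ∀ (j : ℕ) (hj : j < D), js < j → w ⟨j, hj⟩ = L 0 ⟨j, hj⟩
  have hagree : ∀ w, agree w → s w = cat (X w) js ++ (v js (w ⟨js, hjs⟩) ++ u) := by
    intro w hw
    rw [hsplit w js hjs, hu]
    congr 2
    refine cat_congr fun l hl => ?_
    have hlD : js + 1 + l < D := by omega
    rw [hX1 w _ hlD, hX1 _ _ hlD, hw _ hlD (by omega)]
  have hNle : ∀ j, E + N j ≤ C0 + G j := by
    intro j
    have := hGsum j
    omega
  have hRle : ∀ j j', j < j' → R j + (E + N j') ≤ G j' := by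
    intro j j' hlt
    have h1 : R j ≤ ∑ i ∈ range j', R i :=
      single_le_sum (f := R) (fun _ _ => Nat.zero_le _) (mem_range.2 hlt)
    have := hGsum j'
    omega
  have huN : u.length ≤ N D := by
    rw [hu, cat_length, hN]
    simp only
    have h1 : ∑ i ∈ range (D - (js + 1)), (X (L 0) (js + 1 + i)).length =
        ∑ i ∈ Ico (js + 1) D, (X (L 0) i).length := by
      rw [sum_Ico_eq_sum_range]
    rw [h1]
    calc ∑ i ∈ Ico (js + 1) D, (X (L 0) i).length ≤ ∑ i ∈ Ico (js + 1) D, nrm (v i) :=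
          sum_le_sum fun i _ => hXb _ i
      _ ≤ ∑ i ∈ range D, nrm (v i) := by
          refine sum_le_sum_of_subset ?_
          intro i hi
          exact mem_range.2 (mem_Ico.1 hi).2
  -- the pattern above `u`
  have hinju : Set.InjOn (fun w : List (Fin r) => w ++ u) ((fun w : List (Fin r) => w ++ u) ⁻¹' ↑P) :=
    fun w _ w' _ h => List.append_cancel_right h
  set J : Finset (List (Fin r)) := (P.preimage (fun w => w ++ u) hinju).filter
    (fun w => ∃ y, agree y ∧ Abv E (s y) (w ++ u)) with hJ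
  have hJmem : ∀ w, w ∈ J ↔ w ++ u ∈ P ∧ ∃ y, agree y ∧ Abv E (s y) (w ++ u) := by
    intro w
    rw [hJ, mem_filter, mem_preimage]
  have hnear : ∀ y, agree y → ∀ w, Abv E (s y) (w ++ u) → Abv (C0 + G js) (v js (y ⟨js, hjs⟩)) w := by
    intro y hy w hw
    obtain ⟨e, he, h1⟩ := hw
    rw [hagree y hy, ← List.append_assoc, ← List.append_assoc] at h1
    have h2 := List.append_cancel_right h1
    refine ⟨e ++ cat (X y) js, ?_, h2⟩
    rw [List.length_append]
    have := hcatN y js
    have := hNle js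
    omega
  have hJnear : NearW (C0 + G js) m (v js) J := by
    constructor
    · intro i
      have h1 := hAm (q (L i)) (hLS i)
      rw [Equiv.symm_apply_apply] at h1
      have hag : agree (L i) := fun j hj hlt => hfix j hj hlt i
      refine h1.trans ?_
      have hsub : P.filter (fun z => Abv E (s (L i)) z) ⊆
          (J.filter (fun z => Abv (C0 + G js) (v js i) z)).image (fun w => w ++ u) := by
        intro z hz
        obtain ⟨hzP, hz2⟩ := mem_filter.1 hz
        obtain ⟨e, he, hze⟩ := id hz2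
        rw [hagree _ hag, ← List.append_assoc, ← List.append_assoc] at hze
        refine mem_image.2 ⟨(e ++ cat (X (L i)) js) ++ v js (L i ⟨js, hjs⟩), mem_filter.2 ⟨?_, ?_⟩, hze.symm⟩
        · rw [hJmem, ← hze]
          exact ⟨hzP, L i, hag, hz2⟩
        · have h3 := hnear (L i) hag ((e ++ cat (X (L i)) js) ++ v js (L i ⟨js, hjs⟩)) (by rw [← hze]; exact hz2)
          rw [hact i] at h3 ⊢
          exact h3
      exact (card_le_card hsub).trans card_image_le
    · intro z hz
      obtain ⟨-, y, hy, hz2⟩ := (hJmem z).1 hz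
      exact ⟨_, hnear y hy z hz2⟩
  have hJE : {x : ℕ | Ex a b J (R js) x}.Infinite := by
    set B : ℤ := ∑ c, |b c| with hBdef
    have hB0 : 0 ≤ B := sum_nonneg fun _ _ => abs_nonneg _
    have hBc : ∀ c, -B ≤ b c := fun c => by
      have h1 : |b c| ≤ B := single_le_sum (f := fun c => |b c|) (fun _ _ => abs_nonneg _) (mem_univ c)
      have := neg_abs_le (b c)
      linarith
    have h1 : {x : ℕ | Ex a b P (G D) x ∧ B.toNat ≤ x}.Infinite := by
      intro hfin
      apply hE
      refine (hfin.union (Set.finite_Iio B.toNat)).subset ?_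
      intro x hx
      by_cases h : B.toNat ≤ x
      · exact Or.inl ⟨hx, h⟩
      · exact Or.inr (not_le.1 h)
    have hcast : ∀ x : ℕ, B.toNat ≤ x → (((Val a b u x).toNat : ℕ) : ℤ) = Val a b u x := by
      intro x hx
      apply Int.toNat_of_nonneg
      have h2 : B ≤ (x : ℤ) := by
        have h3 : ((B.toNat : ℕ) : ℤ) ≤ x := by exact_mod_cast hx
        rwa [Int.toNat_of_nonneg hB0] at h3
      have h3 : ∀ w : List (Fin r), (x : ℤ) ≤ Val a b w x ∧ B ≤ Val a b w x := by
        intro w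
        induction w with
        | nil => exact ⟨le_rfl, h2⟩
        | cons c w ih =>
          have := hBc c
          simp only [Val]
          constructor <;> nlinarith [ih.1, ih.2]
      exact hB0.trans (h3 u).2
    have hinj2 : Set.InjOn (fun x : ℕ => (Val a b u x).toNat) {x : ℕ | Ex a b P (G D) x ∧ B.toNat ≤ x} := by
      intro x hx x' hx' hxx
      have e1 := hcast x hx.2
      have e2 := hcast x' hx'.2
      simp only at hxx
      rw [hxx, e2] at e1
      have := Val_inj ha u e1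
      exact_mod_cast this.symm
    refine (h1.image hinj2).mono ?_
    rintro _ ⟨x, ⟨hx, hxB⟩, rfl⟩
    intro w hw
    rw [hcast x hxB, ← Val_append]
    have hlen : (w ++ u).length ≤ G D := by
      rw [List.length_append]
      have := hRle js D hjs
      omega
    rw [hx (w ++ u) hlen, hJmem]
    refine ⟨fun h4 => ⟨h4, ?_⟩, fun h4 => h4.1⟩
    obtain ⟨g, hg⟩ := hPc _ h4
    set y := q.symm g with hy
    refine ⟨y, ?_, hg⟩
    by_contra hna
    set Df : Finset (Fin D) := univ.filter (fun j => js < (j : ℕ) ∧ y j ≠ L 0 j) with hDf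
    have hDne : Df.Nonempty := by
      by_contra h
      apply hna
      intro j hj hlt
      by_contra h2
      exact h ⟨⟨j, hj⟩, mem_filter.2 ⟨mem_univ _, hlt, h2⟩⟩
    obtain ⟨j', hj'1, hj'2⟩ : ∃ j' ∈ Df, ∀ j ∈ Df, j ≤ j' :=
      ⟨Df.max' hDne, Df.max'_mem hDne, fun j hj => Df.le_max' j hj⟩
    obtain ⟨-, hjs', hne⟩ := mem_filter.1 hj'1
    obtain ⟨e, he, h5⟩ := hg
    rw [hsplit y j' j'.2] at h5
    -- the decomposition of `u`
    have husplit : u = cat (fun l => X (L 0) (js + 1 + l)) ((j' : ℕ) - (js + 1)) ++ (v j' (L 0 j') ++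
        cat (fun l => X (L 0) (j' + 1 + l)) (D - (j' + 1))) := by
      have e1 : D - (js + 1) = (((j' : ℕ) - (js + 1)) + 1) + (D - (j' + 1)) := by
        have := j'.2
        omega
      rw [hu, e1, cat_split, cat, List.append_assoc]
      congr 1
      · congr 1
        · have e2 : js + 1 + ((j' : ℕ) - (js + 1)) = j' := by omega
          rw [e2, hX1 _ _ j'.2]
        · refine cat_congr fun l _ => ?_
          congr 1
          omega
    have htail : cat (fun l => X y (j' + 1 + l)) (D - (j' + 1)) =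
        cat (fun l => X (L 0) (j' + 1 + l)) (D - (j' + 1)) := by
      refine cat_congr fun l hl => ?_
      have hlD : (j' : ℕ) + 1 + l < D := by omega
      rw [hX1 y _ hlD, hX1 (L 0) _ hlD]
      congr 1
      by_contra h6
      have h7 := hj'2 ⟨(j' : ℕ) + 1 + l, hlD⟩ (mem_filter.2 ⟨mem_univ _, by simp only; omega, h6⟩)
      have h8 := Fin.le_def.1 h7
      simp only at h8
      omega
    rw [husplit, htail, ← List.append_assoc, ← List.append_assoc, ← List.append_assoc,
      ← List.append_assoc] at h5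
    have h6 := List.append_cancel_right h5
    have hmid : (cat (fun l => X (L 0) (js + 1 + l)) ((j' : ℕ) - (js + 1))).length ≤ N j' := by
      rw [cat_length, hN]
      simp only
      have e1 : ∑ i ∈ range ((j' : ℕ) - (js + 1)), (X (L 0) (js + 1 + i)).length =
          ∑ i ∈ Ico (js + 1) (j' : ℕ), (X (L 0) i).length := by
        rw [sum_Ico_eq_sum_range]
      rw [e1]
      calc ∑ i ∈ Ico (js + 1) (j' : ℕ), (X (L 0) i).length ≤ ∑ i ∈ Ico (js + 1) (j' : ℕ), nrm (v i) :=
            sum_le_sum fun i _ => hXb _ i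
        _ ≤ ∑ i ∈ range (j' : ℕ), nrm (v i) := by
            refine sum_le_sum_of_subset ?_
            intro i hi
            exact mem_range.2 (mem_Ico.1 hi).2
    refine hvsep j' (L 0 j') (y j') (Ne.symm hne) _ _ ?_ ?_ h6
    · rw [List.length_append]
      have := hRle js j' hjs'
      omega
    · rw [List.length_append]
      have := hcatN y j'
      have := hRle js j' hjs'
      omega
  have hfin := hB (C0 + G js) J (by
    have h1 : vB (C0 + G js) = v js := by rw [hv]
    rw [h1]; exact hJnear)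
  apply hfin
  have h1 : RB (C0 + G js) = R js := by rw [hR]
  rw [h1]; exact hJE

theorem stW (ha : 2 ≤ a) (hb : ∀ c, IsCoprime a (b c)) (hinj : Function.Injective (Val a b)) (hr : 1 ≤ r)
    (m : ℕ) (hm : 1 ≤ m) (k : ℕ) : StW a b m (k + 1) := by
  induction k with
  | zero => exact stepW ha hb hinj hr m 0 hm (Or.inl rfl)
  | succ k ih => exact stepW ha hb hinj hr m (k + 1) hm (Or.inr ih)

open Classical in
/-- **every finite set of words up to a bounded error** -/
theorem words_final (ha : 2 ≤ a) (hb : ∀ c, IsCoprime a (b c)) (hinj : Function.Injective (Val a b))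
    (hr : 1 ≤ r) (k m : ℕ) (hm : 1 ≤ m) : ∃ C : ℕ, ∀ V : Finset (List (Fin r)), V.Nonempty → V.card ≤ k →
    ∃ J : Finset (List (Fin r)), (∀ v ∈ V, m ≤ (J.filter (fun z => Abv C v z)).card) ∧
      (∀ z ∈ J, ∃ v ∈ V, Abv C v z) ∧ ∀ R : ℕ, {x : ℕ | Ex a b J R x}.Infinite := by
  rcases Nat.eq_zero_or_pos k with hk | hk
  · refine ⟨0, fun V hV hVk => ?_⟩
    have := hV.card_pos
    omega
  obtain ⟨k, rfl⟩ := Nat.exists_eq_add_of_le' hk
  obtain ⟨C, hC⟩ := stW ha hb hinj hr m hm k
  refine ⟨C, fun V hV hVk => ?_⟩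
  obtain ⟨v, hv⟩ : ∃ v : Fin (k + 1) → List (Fin r), ∀ z, z ∈ V ↔ ∃ i, v i = z := by
    have : Nonempty V := ⟨⟨hV.choose, hV.choose_spec⟩⟩
    obtain ⟨f, hf⟩ : ∃ f : Fin (k + 1) → V, Function.Surjective f := by
      have h1 : Fintype.card V ≤ Fintype.card (Fin (k + 1)) := by
        rw [Fintype.card_coe, Fintype.card_fin]
        exact hVk
      obtain ⟨g⟩ := Function.Embedding.nonempty_of_card_le h1
      exact ⟨Function.invFun g, Function.invFun_surjective g.injective⟩
    refine ⟨fun i => (f i : List (Fin r)), fun z => ⟨fun hz => ?_, ?_⟩⟩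
    · obtain ⟨i, hi⟩ := hf ⟨z, hz⟩
      exact ⟨i, congrArg Subtype.val hi⟩
    · rintro ⟨i, rfl⟩
      exact (f i).2
  choose Jf hJ1 hJ2 using fun R => hC v R
  -- the finite set of all words near `v`
  set Y : Finset (List (Fin r)) := univ.biUnion (fun i =>
    (List.finite_length_le (Fin r) C).toFinset.image (fun e => e ++ v i)) with hY
  have hJY : ∀ R, Jf R ⊆ Y := by
    intro R z hz
    obtain ⟨i, e, he, rfl⟩ := (hJ1 R).2 z hz
    exact mem_biUnion.2 ⟨i, mem_univ _, mem_image.2
      ⟨e, (List.finite_length_le (Fin r) C).mem_toFinset.2 he, rfl⟩⟩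
  obtain ⟨J, hJi⟩ : ∃ J : Finset (List (Fin r)), {R : ℕ | Jf R = J}.Infinite := by
    by_contra hcon
    push Not at hcon
    refine Set.infinite_univ (((Y.powerset.finite_toSet).biUnion fun J _ => hcon J).subset ?_)
    intro R _
    exact Set.mem_biUnion (mem_coe.2 (mem_powerset.2 (hJY R))) rfl
  obtain ⟨R₀, hR₀⟩ := hJi.nonempty
  have hR₀' : Jf R₀ = J := hR₀
  obtain ⟨h1, h2⟩ := hR₀' ▸ hJ1 R₀
  refine ⟨J, ?_, ?_, ?_⟩
  · intro z hz
    obtain ⟨i, rfl⟩ := (hv z).1 hz
    exact h1 i
  · intro z hz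
    obtain ⟨i, hi⟩ := h2 z hz
    exact ⟨v i, (hv _).2 ⟨i, rfl⟩, hi⟩
  · intro R
    obtain ⟨R', hR', hRR'⟩ := hJi.exists_gt R
    have hR'' : Jf R' = J := hR'
    refine (hJ2 R').mono ?_
    intro x hx w hw
    rw [hx w (by omega), hR'']

end clusters

end Pool.Agent.Run7.h189.CO
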