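import Mathlib
import Pool.Agent.Run7.h189.CO.Aff
import Pool.Agent.H362R2.CM.Final
import Pool.Agent.TH779.Shat.Trace

/-!
# The coloured Maynard-Tao theorem with exact patterns, for the orbits of all affine maps
-/

set_option autoImplicit false

namespace Pool.Agent.Run7.h189.CO

open Filter Finset

/-- exact patterns among the members of a sequence of natural forms -/
theorem exact_seq (α β : ℕ → ℕ) (hα : ∀ j, 1 ≤ α j) (hne : ∀ i j, i ≠ j → α i * β j ≠ α j * β i)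
    (X : Finset ℕ) (hadm : ∀ p : ℕ, p.Prime → ∃ r : ℕ, ∀ j ∈ X, ¬ p ∣ α j * r + β j)
    (Good : Finset ℕ → Prop)
    (hgood : ∀ A B : ℕ → ℕ, (∀ j ∈ X, 1 ≤ A j) → (∀ i ∈ X, ∀ j ∈ X, A i = A j → B i = B j → i = j) →
      (∀ p : ℕ, p.Prime → ∃ r : ℕ, ∀ j ∈ X, ¬ p ∣ A j * r + B j) →
      {n : ℕ | Good (X.filter (fun j => (A j * n + B j).Prime))}.Infinite) (R : ℕ) :
    ∃ J ⊆ X, Good J ∧ {n : ℕ | ∀ j ≤ R, (α j * n + β j).Prime ↔ j ∈ J}.Infinite := by
  classical
  set D : ℕ := R + ∑ u ∈ X, u with hD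
  have htD : ∀ u ∈ X, u ≤ D := fun u hu =>
    (single_le_sum (f := fun u => u) (fun _ _ => Nat.zero_le _) hu).trans (Nat.le_add_left _ _)
  set S : Finset (Fin (D + 1)) := univ.filter (fun j => (j : ℕ) ∈ X) with hS
  obtain ⟨w, ν, hw, hE, hSp⟩ := Pool.Agent.TH779.Shat.congruences (fun j : Fin (D + 1) => α j)
    (fun j : Fin (D + 1) => β j) (fun _ => hα _)
    (fun i j hij => hne i j (fun h => hij (Fin.ext h))) S Sᶜ disjoint_compl_left
  have hmem : ∀ u (hu : u ∈ X), (⟨u, Nat.lt_succ_of_le (htD u hu)⟩ : Fin (D + 1)) ∈ S := fun u hu =>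
    mem_filter.2 ⟨mem_univ _, hu⟩
  have hinf := hgood (fun j => α j * w) (fun j => α j * ν + β j) (fun j _ => Nat.mul_pos (hα _) hw)
    (by
      intro i _ j _ h1 h2
      by_contra hcon
      have h4 := Nat.eq_of_mul_eq_mul_right hw h1
      rw [h4] at h2
      have h5 : β i = β j := by omega
      exact hne _ _ hcon (by rw [h4, h5]))
    (by
      intro p hp
      by_cases hpw : p ∣ w
      · refine ⟨0, fun j hj hd => ?_⟩
        rw [mul_zero, zero_add] at hd
        exact hSp p hp hpw _ (hmem j hj) hd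
      · obtain ⟨r, hr⟩ := hadm p hp
        have : Fact p.Prime := ⟨hp⟩
        have hwZ : (w : ZMod p) ≠ 0 := fun h => hpw ((ZMod.natCast_eq_zero_iff _ _).1 h)
        refine ⟨((((r : ZMod p) - ν) / w).val : ℕ), fun j hj hd => hr j hj ?_⟩
        rw [← ZMod.natCast_eq_zero_iff] at hd ⊢
        push_cast at hd ⊢
        rw [ZMod.natCast_zmod_val] at hd
        rw [← hd]
        field_simp
        ring)
  -- the exact pattern
  set Q : ℕ → Finset ℕ := fun n => X.filter (fun j => (α j * (w * n + ν) + β j).Prime) with hQ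
  set A : Set ℕ := {n : ℕ | 2 ≤ n ∧ Good (Q n)} with hA
  have hAinf : A.Infinite := by
    refine (hinf.sdiff (Set.finite_Iio 2)).mono ?_
    rintro n ⟨hn, hn2⟩
    refine ⟨not_lt.1 hn2, ?_⟩
    have h1 : Q n = X.filter (fun j => (α j * w * n + (α j * ν + β j)).Prime) := by
      refine filter_congr fun j _ => ?_
      have : α j * (w * n + ν) + β j = α j * w * n + (α j * ν + β j) := by ring
      rw [this]
    rw [h1]
    exact hn
  obtain ⟨J, hJ⟩ : ∃ J : Finset ℕ, {n ∈ A | Q n = J}.Infinite := by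
    by_contra hcon
    push Not at hcon
    refine hAinf (((X.powerset.finite_toSet).biUnion fun J _ => hcon J).subset ?_)
    intro n hn
    exact Set.mem_biUnion (mem_coe.2 (mem_powerset.2 (filter_subset _ _))) ⟨hn, rfl⟩
  obtain ⟨n₀, hn₀⟩ := hJ.nonempty
  refine ⟨J, by rw [← hn₀.2]; exact filter_subset _ _, by rw [← hn₀.2]; exact hn₀.1.2, ?_⟩
  have hinj' : Set.InjOn (fun n : ℕ => w * n + ν) {n ∈ A | Q n = J} := by
    intro n _ n' _ e
    simp only at e
    exact Nat.eq_of_mul_eq_mul_left hw (by omega)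
  refine (hJ.image hinj').mono ?_
  rintro _ ⟨n, ⟨hn1, hn2⟩, rfl⟩ j hj
  simp only
  constructor
  · intro hp
    have hjD : j < D + 1 := by omega
    by_cases hjS : (⟨j, hjD⟩ : Fin (D + 1)) ∈ S
    · rw [← hn2]
      exact mem_filter.2 ⟨(mem_filter.1 hjS).2, hp⟩
    · exfalso
      obtain ⟨p, hp1, hp2, hp3⟩ := hE ⟨j, hjD⟩ (mem_compl.2 hjS)
      simp only at hp3
      have h1 : p ∣ α j * (w * n + ν) + β j := by
        have h2 : α j * (w * n + ν) + β j = w * (α j * n) + (α j * ν + β j) := by ring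
        rw [h2]
        exact dvd_add (hp2.mul_right _) hp3
      have h2 : p = α j * (w * n + ν) + β j := (Nat.prime_dvd_prime_iff_eq hp1 hp).1 h1
      have h3 : p ≤ w := Nat.le_of_dvd hw hp2
      have h4 : 2 ≤ n := hn1.1
      have h5 : w * 2 ≤ w * n := Nat.mul_le_mul_left _ h4
      have h6 : 1 * (w * n + ν) ≤ α j * (w * n + ν) := Nat.mul_le_mul_right _ (hα j)
      omega
  · intro hjW
    rw [← hn2] at hjW
    exact (mem_filter.1 hjW).2

/-- the base point -/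
theorem It_base_nonneg {a : ℤ} (ha : 2 ≤ a) (b : ℤ) (j : ℕ) : 0 ≤ It a b j |b| := by
  have h1 := geo a j
  have h2 : 0 ≤ ∑ i ∈ range j, a ^ i := sum_nonneg fun i _ => pow_nonneg (by omega) _
  have h3 : ∑ i ∈ range j, a ^ i ≤ a ^ j := by nlinarith
  unfold It
  rcases abs_cases b with ⟨h, hb⟩ | ⟨h, hb⟩
  · rw [h]
    have : 0 ≤ a ^ j * b := mul_nonneg (pow_nonneg (by omega) _) hb
    have := mul_nonneg hb h2
    linarith
  · rw [h]
    nlinarith

theorem It_base (a b : ℤ) (j : ℕ) (n : ℤ) : It a b j (n + |b|) = a ^ j * n + It a b j |b| := by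
  unfold It
  ring

theorem nonprop {a b : ℤ} (ha : 2 ≤ a) (hab : IsCoprime a b) {i j : ℕ} (hij : i ≠ j) :
    a ^ i * It a b j |b| ≠ a ^ j * It a b i |b| := by
  intro h
  unfold It at h
  have hb : b ≠ 0 := by
    rintro rfl
    obtain ⟨x, y, hxy⟩ := hab
    rw [mul_zero, add_zero] at hxy
    have h1 : a ∣ 1 := ⟨x, by linarith⟩
    have h2 := Int.le_of_dvd one_pos h1
    omega
  have h1 : b * (a ^ i * ∑ l ∈ range j, a ^ l) = b * (a ^ j * ∑ l ∈ range i, a ^ l) := by linarith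
  have h2 := mul_left_cancel₀ hb h1
  have h3 := geo a i
  have h4 := geo a j
  have h5 : a ^ i * ((∑ l ∈ range j, a ^ l) * (a - 1)) = a ^ j * ((∑ l ∈ range i, a ^ l) * (a - 1)) := by
    rw [← mul_assoc, ← mul_assoc, h2]
  rw [h3, h4] at h5
  have h6 : a ^ j = a ^ i := by linarith
  exact hij ((pow_right_strictMono₀ (by omega : 1 < a)).injective h6).symm

/-- **exact patterns in orbits**: an abstract form -/
theorem exact_aff {a b : ℤ} (ha : 2 ≤ a) (hab : IsCoprime a b) (X : Finset ℕ)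
    (hloc : ∀ p : ℕ, p.Prime → p ≤ X.card → (p : ℤ) ∣ a - 1 → ¬ (p : ℤ) ∣ b →
      ∃ c : ℕ, ∀ v ∈ X, ¬ v ≡ c [MOD p])
    (Good : Finset ℕ → Prop)
    (hgood : ∀ A B : ℕ → ℕ, (∀ j ∈ X, 1 ≤ A j) → (∀ i ∈ X, ∀ j ∈ X, A i = A j → B i = B j → i = j) →
      (∀ p : ℕ, p.Prime → ∃ r : ℕ, ∀ j ∈ X, ¬ p ∣ A j * r + B j) →
      {n : ℕ | Good (X.filter (fun j => (A j * n + B j).Prime))}.Infinite) :
    ∃ J ⊆ X, Good J ∧ ∀ R : ℕ, {n : ℕ | ∀ j ≤ R, Pr (Fo a b j) n ↔ j ∈ J}.Infinite := by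
  classical
  have hα : ∀ j : ℕ, (((a ^ j).toNat : ℕ) : ℤ) = a ^ j := fun j => Int.toNat_of_nonneg (pow_nonneg (by omega) _)
  have hβ : ∀ j : ℕ, (((It a b j |b|).toNat : ℕ) : ℤ) = It a b j |b| := fun j =>
    Int.toNat_of_nonneg (It_base_nonneg ha b j)
  have hadm : ∀ p : ℕ, p.Prime → ∃ r : ℕ, ∀ j ∈ X, ¬ p ∣ (a ^ j).toNat * r + (It a b j |b|).toNat := by
    intro p hp
    have hpz : Prime (p : ℤ) := Nat.prime_iff_prime_int.1 hp
    have : NeZero p := ⟨hp.ne_zero⟩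
    obtain ⟨r, hr⟩ : ∃ r : ℤ, ∀ j ∈ X, ¬ (p : ℤ) ∣ (Fo a b j).1 * r + (Fo a b j).2 := by
      rcases Nat.lt_or_ge X.card p with hpT | hpT
      · -- few forms
        have : Fact p.Prime := ⟨hp⟩
        by_contra hcon
        push Not at hcon
        choose f hf using hcon
        have hcard : X.card < (univ : Finset (ZMod p)).card := by
          rw [card_univ, ZMod.card]
          exact hpT
        obtain ⟨x, -, y, -, hxy, hfxy⟩ := exists_ne_map_eq_of_card_lt_of_maps_to hcard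
          (f := fun x : ZMod p => f ((x.val : ℕ) : ℤ)) (fun x _ => (hf _).1)
        set v := f ((x.val : ℕ) : ℤ) with hv
        have h1 := (hf ((x.val : ℕ) : ℤ)).2
        have h2 := (hf ((y.val : ℕ) : ℤ)).2
        rw [← hfxy] at h2
        have h3 : (p : ℤ) ∣ (Fo a b v).1 * (((x.val : ℕ) : ℤ) - ((y.val : ℕ) : ℤ)) := by
          have := dvd_sub h1 h2
          have e : (Fo a b v).1 * ((x.val : ℕ) : ℤ) + (Fo a b v).2 -
            ((Fo a b v).1 * ((y.val : ℕ) : ℤ) + (Fo a b v).2) =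
            (Fo a b v).1 * (((x.val : ℕ) : ℤ) - ((y.val : ℕ) : ℤ)) := by ring
          rwa [e] at this
        rcases hpz.dvd_or_dvd h3 with h4 | h4
        · have h5 : (p : ℤ) ∣ (Fo a b v).2 := by
            have := dvd_sub h1 (h4.mul_right ((x.val : ℕ) : ℤ))
            have e : (Fo a b v).1 * ((x.val : ℕ) : ℤ) + (Fo a b v).2 -
              (Fo a b v).1 * ((x.val : ℕ) : ℤ) = (Fo a b v).2 := by ring
            rwa [e] at this
          obtain ⟨x', y', hxy'⟩ := (Fo_ok ha hab v).2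
          exact hpz.not_dvd_one (hxy' ▸ dvd_add (h4.mul_left x') (h5.mul_left y'))
        · apply hxy
          have h5 : ((((x.val : ℕ) : ℤ) - ((y.val : ℕ) : ℤ) : ℤ) : ZMod p) = 0 :=
            (ZMod.intCast_zmod_eq_zero_iff_dvd _ _).2 h4
          push_cast at h5
          rw [ZMod.natCast_zmod_val, ZMod.natCast_zmod_val] at h5
          exact sub_eq_zero.1 h5
      · exact Fo_local hab hp (fun v => v ∈ X) (fun h1 h2 => hloc p hp hpT h1 h2)
    refine ⟨(((r - |b| : ℤ) : ZMod p).val : ℕ), fun u hu hd => hr u hu ?_⟩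
    have h1 : (p : ℤ) ∣ ((((a ^ u).toNat * ((((r - |b| : ℤ) : ZMod p).val : ℕ)) +
        (It a b u |b|).toNat : ℕ)) : ℤ) := by exact_mod_cast hd
    rw [← ZMod.intCast_zmod_eq_zero_iff_dvd] at h1 ⊢
    rw [Nat.cast_add, Nat.cast_mul, hα, hβ] at h1
    simp only [Fo]
    unfold It at h1
    push_cast at h1 ⊢
    rw [ZMod.natCast_zmod_val] at h1
    push_cast at h1
    rw [← h1]
    ring
  -- the same pattern for all `R`
  have hkey : ∀ R : ℕ, ∃ J ⊆ X, Good J ∧ {n : ℕ | ∀ j ≤ R, Pr (Fo a b j) n ↔ j ∈ J}.Infinite := by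
    intro R
    obtain ⟨J, hJX, hJ, hW2⟩ := exact_seq (fun j => (a ^ j).toNat) (fun j => (It a b j |b|).toNat)
      (fun j => by
        have h1 : (1 : ℤ) ≤ a ^ j := one_le_pow₀ (by omega)
        have h2 := hα j
        omega)
      (fun i j hij h => nonprop ha hab hij (by
        have h1 : (((a ^ i).toNat * (It a b j |b|).toNat : ℕ) : ℤ) =
          (((a ^ j).toNat * (It a b i |b|).toNat : ℕ) : ℤ) := by exact_mod_cast h
        rw [Nat.cast_mul, Nat.cast_mul, hα, hα, hβ, hβ] at h1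
        exact h1)) X hadm Good hgood R
    refine ⟨J, hJX, hJ, ?_⟩
    have hinj' : Set.InjOn (fun n : ℕ => n + b.natAbs)
        {n : ℕ | ∀ j ≤ R, ((a ^ j).toNat * n + (It a b j |b|).toNat).Prime ↔ j ∈ J} := by
      intro n _ n' _ e
      simp only at e
      omega
    refine (hW2.image hinj').mono ?_
    rintro _ ⟨n, hn, rfl⟩ j hj
    rw [← hn j hj]
    have h1 : (Fo a b j).1 * ((n + b.natAbs : ℕ) : ℤ) + (Fo a b j).2 =
        (((a ^ j).toNat * n + (It a b j |b|).toNat : ℕ) : ℤ) := by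
      have h2 := It_base a b j n
      have h3 : (((a ^ j).toNat * n + (It a b j |b|).toNat : ℕ) : ℤ) = a ^ j * n + It a b j |b| := by
        rw [Nat.cast_add, Nat.cast_mul, hα, hβ]
      rw [h3, ← h2, Nat.cast_add, ← Int.abs_eq_natAbs]
      simp only [Fo, It]
    unfold Pr
    rw [h1, Int.toNat_natCast]
  choose Jf hJX hJ hW2 using hkey
  obtain ⟨J, hJi⟩ : ∃ J : Finset ℕ, {R : ℕ | Jf R = J}.Infinite := by
    by_contra hcon
    push Not at hcon
    refine Set.infinite_univ (((X.powerset.finite_toSet).biUnion fun J _ => hcon J).subset ?_)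
    intro R _
    exact Set.mem_biUnion (mem_coe.2 (mem_powerset.2 (hJX R))) rfl
  obtain ⟨R₀, hR₀⟩ := hJi.nonempty
  have hR₀' : Jf R₀ = J := hR₀
  refine ⟨J, hR₀' ▸ hJX R₀, hR₀' ▸ hJ R₀, fun R => ?_⟩
  obtain ⟨R', hR', hRR'⟩ := hJi.exists_gt R
  have hR'' : Jf R' = J := hR'
  refine (hW2 R').mono ?_
  intro n hn j hj
  rw [hn j (by omega), hR'']

/-- from the divisibility by `(TK)!` to the local conditions -/
theorem loc_of_dvd {m : ℕ} (X : Finset ℕ) (hX : X.card ≤ m) (h : ∀ v ∈ X, m.factorial ∣ v) (a b : ℤ) :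
    ∀ p : ℕ, p.Prime → p ≤ X.card → (p : ℤ) ∣ a - 1 → ¬ (p : ℤ) ∣ b → ∃ c : ℕ, ∀ v ∈ X, ¬ v ≡ c [MOD p] := by
  intro p hp hpX _ _
  refine ⟨1, fun v hv hmod => ?_⟩
  have h1 : p ∣ v := (Nat.dvd_factorial hp.pos (hpX.trans hX)).trans (h v hv)
  have h2 : p ∣ 1 := (hmod.dvd_iff dvd_rfl).1 h1
  exact hp.one_lt.ne' (Nat.dvd_one.1 h2)

open Classical in
/-- **coloured exact patterns in orbits** -/
theorem col (T : ℕ) : ∃ K : ℕ, 1 ≤ K ∧ ∀ a b : ℤ, 2 ≤ a → IsCoprime a b →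
    ∀ ti : Fin T × Fin K → ℕ, Function.Injective ti → (∀ u, (T * K).factorial ∣ ti u) →
    ∃ W : Finset (Fin T × Fin K), T ≤ 4 * (W.image Prod.fst).card ∧
      ∀ R : ℕ, {n : ℕ | ∀ j ≤ R, Pr (Fo a b j) n ↔ j ∈ W.image ti}.Infinite := by
  obtain ⟨K, hK, hq⟩ := Pool.Agent.H362R2.CM.quarter T
  refine ⟨K, hK, fun a b ha hab ti hinj hdvd => ?_⟩
  have hcard : (univ.image ti).card ≤ T * K := by
    refine card_image_le.trans (le_of_eq ?_)
    rw [card_univ, Fintype.card_prod, Fintype.card_fin, Fintype.card_fin]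
  have hmem : ∀ u, ti u ∈ univ.image ti := fun u => mem_image_of_mem _ (mem_univ _)
  obtain ⟨J, hJX, hJ, hJ2⟩ := exact_aff ha hab (univ.image ti) (loc_of_dvd _ hcard (by
    intro v hv
    obtain ⟨u, -, rfl⟩ := mem_image.1 hv
    exact hdvd u) a b)
    (fun J => T ≤ 4 * ((univ.filter (fun u => ti u ∈ J)).image Prod.fst).card) (by
      intro A B hA hAB hadm
      obtain ⟨S', c, hS', hinf⟩ := hq (fun g i => ((A (ti (g, i)) : ℕ) : ℤ))
        (fun g i => ((B (ti (g, i)) : ℕ) : ℤ))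
        (fun g i => by exact_mod_cast hA _ (hmem _))
        (by
          rintro ⟨g, i⟩ ⟨g', i'⟩ h
          simp only [Prod.mk.injEq] at h
          exact hinj (hAB _ (hmem _) _ (hmem _) (by exact_mod_cast h.1) (by exact_mod_cast h.2)))
        (by
          intro p hp
          obtain ⟨r, hr⟩ := hadm p hp
          exact ⟨r, fun g i hd => hr _ (hmem (g, i)) (by exact_mod_cast hd)⟩)
      refine hinf.mono ?_
      intro n hn
      refine hS'.trans (Nat.mul_le_mul_left _ (card_le_card ?_))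
      intro g hg
      refine mem_image.2 ⟨(g, c g), mem_filter.2 ⟨mem_univ _, mem_filter.2 ⟨hmem _, ?_⟩⟩, rfl⟩
      exact Nat.prime_iff_prime_int.2 (by exact_mod_cast (hn g hg).2))
  refine ⟨univ.filter (fun u => ti u ∈ J), hJ, fun R => ?_⟩
  have h1 : (univ.filter (fun u => ti u ∈ J)).image ti = J := by
    ext j
    constructor
    · intro h
      obtain ⟨u, hu, rfl⟩ := mem_image.1 h
      exact (mem_filter.1 hu).2
    · intro h
      obtain ⟨u, -, rfl⟩ := mem_image.1 (hJX h)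
      exact mem_image.2 ⟨u, mem_filter.2 ⟨mem_univ _, h⟩, rfl⟩
  rw [h1]
  exact hJ2 R

theorem toNat_cast_of_prime {x : ℤ} (h : x.toNat.Prime) : ((x.toNat : ℕ) : ℤ) = x := by
  apply Int.toNat_of_nonneg
  by_contra hcon
  rw [Int.toNat_of_nonpos (by omega)] at h
  exact Nat.not_prime_zero h

open Classical in
/-- **blocks of an exact pattern**: the times `s + t`, `t ∈ B`, are the elements of the pattern between `s - R`
and `s + M + R` -/
theorem block {a b : ℤ} (ha : 2 ≤ a) {P : Finset ℕ}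
    (hP : ∀ R : ℕ, {n : ℕ | ∀ j ≤ R, Pr (Fo a b j) n ↔ j ∈ P}.Infinite) (s R M : ℕ) (hs : R ≤ s) (hsP : s ∈ P)
    (hlow : ∀ j ∈ P, s ≤ j + R → s ≤ j) (B : ℕ → Prop)
    (hB : ∀ j, j ≤ M + R → (B j ↔ s + j ∈ P)) :
    {p : ℕ | p.Prime ∧ (∀ j ≤ M + R, (It a b j p).toNat.Prime ↔ B j) ∧
      ∀ q j : ℕ, q.Prime → 0 < j → j ≤ R → It a b j q ≠ p}.Infinite := by
  have hPr : ∀ (j n : ℕ), Pr (Fo a b j) n ↔ (It a b j n).toNat.Prime := fun j n => Iff.rfl
  have hprime : ∀ n ∈ {n : ℕ | ∀ j ≤ s + M + R, Pr (Fo a b j) n ↔ j ∈ P}, (It a b s n).toNat.Prime := by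
    intro n hn
    exact (hPr _ _).1 ((hn s (by omega)).2 hsP)
  have hinj : Set.InjOn (fun n : ℕ => (It a b s n).toNat)
      {n : ℕ | ∀ j ≤ s + M + R, Pr (Fo a b j) n ↔ j ∈ P} := by
    intro n hn n' hn' hnn
    have h4 := toNat_cast_of_prime (hprime n hn)
    have h5 := toNat_cast_of_prime (hprime n' hn')
    simp only at hnn
    rw [hnn, h5] at h4
    exact_mod_cast (It_inj ha b _ h4).symm
  refine ((hP (s + M + R)).image hinj).mono ?_
  rintro _ ⟨n, hn, rfl⟩
  have hp := hprime n hn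
  have hcast := toNat_cast_of_prime hp
  refine ⟨hp, fun j hj => ?_, fun q j hq hj1 hj2 hqj => ?_⟩
  · rw [hcast, ← It_add, hB j hj, ← hn (s + j) (by omega)]
    exact (hPr _ _).symm
  · have h3 : It a b j q = It a b j (It a b (s - j) n) := by
      rw [hqj, hcast, ← It_add]
      congr 1
      omega
    have h4 := It_inj ha b j h3
    have h5 : Pr (Fo a b (s - j)) n := by
      rw [hPr, ← h4, Int.toNat_natCast]
      exact hq
    have h6 := (hn (s - j) (by omega)).1 h5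
    have := hlow _ h6 (by omega)
    omega

end Pool.Agent.Run7.h189.CO
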