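import Mathlib
import Pool.Agent.Run7.h189.CO.Exact
import Pool.Agent.TH779.Ord.Main

/-!
# Many orders of the gaps between the primes of an orbit
-/

set_option autoImplicit false

namespace Pool.Agent.Run7.h189.CO

open Finset Pool.Agent.TH779.Ord

/-- exact patterns with few repetitions inside the classes -/
theorem few (T : ℕ) (lam : ℝ) (hTp : 1 ≤ T) (hlam : 1 ≤ lam) :
    ∃ K : ℕ, 2 ≤ K ∧ ∀ a b : ℤ, 2 ≤ a → IsCoprime a b → ∀ h : ℕ → ℕ,
      (∀ x < T * K, ∀ y < T * K, h x = h y → x = y) → (∀ x < T * K, (T * K).factorial ∣ h x) →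
      ∃ J : Finset ℕ, (∀ x ∈ J, x < T * K) ∧ (T : ℝ) / (40 * lam) ≤
        ∑ g ∈ range T, fn lam (J.filter (fun x => x / K = g)).card ∧
        ∀ R : ℕ, {n : ℕ | ∀ j ≤ R, Pr (Fo a b j) n ↔ j ∈ J.image h}.Infinite := by
  classical
  obtain ⟨K, hK, hq⟩ := few_nat T lam hTp hlam
  refine ⟨K, hK, fun a b ha hab h hinj hdvd => ?_⟩
  have hcard : ((range (T * K)).image h).card ≤ T * K := card_image_le.trans (le_of_eq (card_range _))
  have hmem : ∀ x < T * K, h x ∈ (range (T * K)).image h := fun x hx => mem_image_of_mem _ (mem_range.2 hx)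
  obtain ⟨J, hJX, hJ, hJ2⟩ := exact_aff ha hab ((range (T * K)).image h) (loc_of_dvd _ hcard (by
    intro v hv
    obtain ⟨u, hu, rfl⟩ := mem_image.1 hv
    exact hdvd u (mem_range.1 hu)) a b)
    (fun J => (T : ℝ) / (40 * lam) ≤
      ∑ g ∈ range T, fn lam ((range (T * K)).filter (fun x => x / K = g ∧ h x ∈ J)).card) (by
      intro A B hA hAB hadm
      rw [Set.infinite_iff_exists_gt]
      intro N0
      obtain ⟨n, hn1, hn2⟩ := hq (fun x => A (h x)) (fun x => B (h x)) (fun x hx => hA _ (hmem x hx))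
        (fun x hx y hy h1 h2 => hinj x hx y hy (hAB _ (hmem x hx) _ (hmem y hy) h1 h2))
        (fun p hp => by
          obtain ⟨r, hr⟩ := hadm p hp
          exact ⟨r, fun x hx => hr _ (hmem x hx)⟩) N0
      refine ⟨n, ?_, hn1⟩
      refine hn2.trans (le_of_eq (sum_congr rfl fun g _ => ?_))
      congr 2
      refine filter_congr fun x hx => ?_
      rw [mem_filter]
      exact ⟨fun h' => ⟨h'.1, hmem x (mem_range.1 hx), h'.2⟩, fun h' => ⟨h'.1, h'.2.2⟩⟩)
  refine ⟨(range (T * K)).filter (fun x => h x ∈ J), fun x hx => mem_range.1 (mem_filter.1 hx).1, ?_, fun R => ?_⟩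
  · refine hJ.trans (le_of_eq (sum_congr rfl fun g _ => ?_))
    congr 2
    rw [filter_filter]
    refine filter_congr fun x _ => ?_
    exact and_comm
  · have h1 : ((range (T * K)).filter (fun x => h x ∈ J)).image h = J := by
      ext j
      constructor
      · intro h'
        obtain ⟨u, hu, rfl⟩ := mem_image.1 h'
        exact (mem_filter.1 hu).2
      · intro h'
        obtain ⟨u, hu, rfl⟩ := mem_image.1 (hJX h')
        exact mem_image.2 ⟨u, mem_filter.2 ⟨hu, h'⟩, rfl⟩
    rw [h1]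
    exact hJ2 R

/-- the orders of `k` consecutive gaps which occur in the orbits of `x ↦ a x + b` -/
def PSO (a b : ℤ) (R k : ℕ) : Set (Equiv.Perm (Fin k)) :=
  {π | ∃ t : ℕ → ℕ, t 0 = 0 ∧ (∀ i < k, t i < t (i + 1)) ∧
    (∀ i j : Fin k, π i < π j ↔ t (i + 1) - t i < t (j + 1) - t j) ∧
    {p : ℕ | p.Prime ∧ (∀ j ≤ t k + R, (It a b j p).toNat.Prime ↔ ∃ i ≤ k, j = t i) ∧
      ∀ q j : ℕ, q.Prime → 0 < j → j ≤ R → It a b j q ≠ p}.Infinite}

/-- the main step -/
theorem perm_many_orb {k c N : ℕ} {lam : ℝ} (hlam : 1 ≤ lam) (hk : 1 ≤ k)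
    (hc : (c : ℝ) ≤ k - 2 * k / lam) (hN : (k : ℝ) + 1 ≤ ((N + 1 : ℕ) : ℝ) / (40 * lam))
    (a b : ℤ) (ha : 2 ≤ a) (hab : IsCoprime a b) (R : ℕ) :
    c.factorial ≤ (PSO a b R k).ncard * 2 ^ (k + N) := by
  classical
  obtain ⟨K, hK, hex⟩ := few (N + 1) lam (by omega) hlam
  have hfin : (PSO a b R k).Finite := Set.toFinite _
  rw [Set.ncard_eq_toFinset_card _ hfin]
  apply patterns_many
  intro σ
  set s : ℕ → ℕ := fun l => if h : l < N then (σ ⟨l, h⟩ : ℕ) else 0 with hs
  have hs' : ∀ (l : ℕ) (h : l < N), s l = (σ ⟨l, h⟩ : ℕ) := by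
    intro l h
    rw [hs]
    simp only [h, dite_true]
  set M := (N + 1) * K with hM
  set B := 2 ^ M + N + 4 with hB
  have hmono : StrictMono (hh s B K) := hh_strictMono s B K
  set F := (R + 1) * M.factorial with hF
  have hF0 : 0 < F := Nat.mul_pos (Nat.succ_pos R) (Nat.factorial_pos _)
  have hFR : R < F := by
    have : R + 1 ≤ F := Nat.le_mul_of_pos_right _ (Nat.factorial_pos _)
    omega
  set h : ℕ → ℕ := fun x => F * (hh s B K x + 1) with hh'
  have hhlt : ∀ {x y : ℕ}, x < y → h x + F ≤ h y := by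
    intro x y hxy
    have h1 := hmono hxy
    simp only [hh']
    have h2 : F * (hh s B K x + 1) + F = F * (hh s B K x + 1 + 1) := by ring
    rw [h2]
    exact Nat.mul_le_mul_left _ (by omega)
  have hhm : StrictMono h := fun x y hxy => by
    have := hhlt hxy
    omega
  obtain ⟨J, hJ1, hJ2, hJ3⟩ := hex a b ha hab h (fun x _ y _ hxy => hhm.injective hxy)
    (fun x _ => (Dvd.intro_left _ rfl : M.factorial ∣ F).mul_right _)
  obtain ⟨e₀, he₀, π, hπ, x, y, hx, hy, hxy⟩ := Pool.Agent.TH779.Ord.block (by omega : 1 ≤ K) rfl hlam hk hc J hJ1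
    (hN.trans hJ2) σ s hs' B (by rw [hB, ← hM, add_assoc]; exact Nat.le_add_right _ _)
    (by rw [hB]; exact Nat.le_add_left _ _)
    (by rw [hB]; exact (Nat.le_add_left N (2 ^ M)).trans (Nat.le_add_right _ _))
  refine ⟨π, ?_, x, y, hx, hy, hxy⟩
  rw [Set.Finite.mem_toFinset]
  -- the times
  have hel : ∀ i j, i < j → j ≤ k → el J (e₀ + i) < el J (e₀ + j) := fun i j hij hj =>
    el_lt J (by omega) (by omega)
  have hle : ∀ i ≤ k, h (el J e₀) ≤ h (el J (e₀ + i)) := by
    intro i hi
    rcases Nat.eq_zero_or_pos i with h0 | h0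
    · rw [h0, add_zero]
    · exact (hhm (hel 0 i h0 hi)).le
  set t : ℕ → ℕ := fun i => h (el J (e₀ + i)) - h (el J e₀) with ht
  have hst : ∀ i ≤ k, h (el J e₀) + t i = h (el J (e₀ + i)) := fun i hi => by
    have := hle i hi
    simp only [ht]
    omega
  have hgap : ∀ i : Fin k, t (i + 1) - t i = F * gp s B K J (e₀ + i) := by
    intro i
    have h1 := hst i i.2.le
    have h2 := hst (i + 1) i.2
    have h3 : t (i + 1) - t i = h (el J (e₀ + (i + 1))) - h (el J (e₀ + i)) := by omega
    rw [h3]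
    unfold gp
    simp only [hh']
    rw [Nat.mul_sub, ← add_assoc]
    have h4 : F * (hh s B K (el J (e₀ + i + 1)) + 1) = F * hh s B K (el J (e₀ + i + 1)) + F := by ring
    have h5 : F * (hh s B K (el J (e₀ + i)) + 1) = F * hh s B K (el J (e₀ + i)) + F := by ring
    rw [h4, h5]
    omega
  refine ⟨t, by simp [ht], fun i hi => ?_, fun i j => ?_, ?_⟩
  · have h1 := hst i hi.le
    have h2 := hst (i + 1) hi
    have h3 := hhm (hel i (i + 1) (Nat.lt_succ_self i) hi)
    omega
  · rw [hgap i, hgap j, hπ i j]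
    constructor
    · intro h'
      exact Nat.mul_lt_mul_of_pos_left h' hF0
    · intro h'
      exact Nat.lt_of_mul_lt_mul_left h'
  · have hs0 : h (el J e₀) ∈ J.image h := mem_image_of_mem _ (el_mem J (by omega))
    refine block ha hJ3 (h (el J e₀)) R (t k) ?_ hs0 ?_ _ ?_
    · have h1 : F * 1 ≤ F * (hh s B K (el J e₀) + 1) := Nat.mul_le_mul_left _ (by omega)
      have h2 : h (el J e₀) = F * (hh s B K (el J e₀) + 1) := rfl
      omega
    · intro j hj hjs
      by_contra hcon
      push Not at hcon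
      obtain ⟨u, -, rfl⟩ := mem_image.1 hj
      have h1 := hhm.lt_iff_lt.1 hcon
      have h2 := hhlt h1
      omega
    · intro j hj
      constructor
      · rintro ⟨i, hi, rfl⟩
        rw [hst i hi]
        exact mem_image_of_mem _ (el_mem J (by omega))
      · intro hjP
        obtain ⟨u, hu, hu2⟩ := mem_image.1 hjP
        obtain ⟨e, he, rfl⟩ := el_surj J hu
        have h1 : e₀ ≤ e := by
          by_contra hcon
          push Not at hcon
          have := hhm (el_lt J hcon (by omega))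
          omega
        have h2 : e ≤ e₀ + k := by
          by_contra hcon
          push Not at hcon
          have h3 := hhlt (el_lt J hcon he)
          have h4 := hst k le_rfl
          omega
        refine ⟨e - e₀, by omega, ?_⟩
        have h3 := hst (e - e₀) (by omega)
        rw [Nat.add_sub_cancel' h1] at h3
        omega

theorem card_le_orb (a b : ℤ) (R k : ℕ) : (PSO a b R k).ncard ≤ k.factorial := by
  classical
  have h1 : (PSO a b R k).ncard ≤ (Set.univ : Set (Equiv.Perm (Fin k))).ncard :=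
    Set.ncard_le_ncard (Set.subset_univ _) (Set.toFinite _)
  rwa [Set.ncard_univ, Nat.card_eq_fintype_card, Fintype.card_perm, Fintype.card_fin] at h1

end Pool.Agent.Run7.h189.CO
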