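import Mathlib

/-!
# The numerical part of the count of orders (from `Pool.Agent.TH779.Ord.Asym`, for an arbitrary count)
-/

set_option autoImplicit false

namespace Pool.Agent.Run7.h189.CO

open Finset

theorem fact_le {c k : ℕ} (h : c ≤ k) : k.factorial ≤ c.factorial * k ^ (k - c) := by
  obtain ⟨d, rfl⟩ := Nat.exists_eq_add_of_le h
  rw [Nat.add_sub_cancel_left, ← Nat.factorial_mul_ascFactorial]
  exact Nat.mul_le_mul_left _ (Nat.ascFactorial_le_pow_add c d)

theorem log_bound {k P : ℕ} (hPm : ∀ (c N : ℕ) (lam : ℝ), 1 ≤ lam → (c : ℝ) ≤ k - 2 * k / lam →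
    (k : ℝ) + 1 ≤ ((N + 1 : ℕ) : ℝ) / (40 * lam) → c.factorial ≤ P * 2 ^ (k + N))
    {lam : ℝ} (hlam : 2 ≤ lam) (hk : 1 ≤ k) :
    1 ≤ P ∧
    Real.log k.factorial ≤ Real.log P + (2 * k / lam + 1) * Real.log k +
      (k + 40 * lam * (k + 1) + 1) * Real.log 2 := by
  have hk1 : (1 : ℝ) ≤ k := by exact_mod_cast hk
  have hlam0 : (0 : ℝ) < lam := by linarith
  set N := ⌈40 * lam * ((k : ℝ) + 1)⌉₊ with hNd
  set c := ⌊(k : ℝ) - 2 * k / lam⌋₊ with hcd
  have h0 : 0 ≤ (k : ℝ) - 2 * k / lam := by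
    have : 2 * k / lam ≤ (k : ℝ) := by
      rw [div_le_iff₀ hlam0]
      nlinarith
    linarith
  have hc : (c : ℝ) ≤ k - 2 * k / lam := Nat.floor_le h0
  have hc2 : (k : ℝ) - 2 * k / lam < c + 1 := Nat.lt_floor_add_one _
  have hN1 : 40 * lam * ((k : ℝ) + 1) ≤ N := Nat.le_ceil _
  have hN2 : (N : ℝ) < 40 * lam * ((k : ℝ) + 1) + 1 := Nat.ceil_lt_add_one (by positivity)
  have hck : c ≤ k := by
    have h1 : 0 ≤ 2 * (k : ℝ) / lam := by positivity
    have : (c : ℝ) ≤ k := by linarith
    exact_mod_cast this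
  have hmain := hPm c N lam (by linarith) hc (by
    rw [le_div_iff₀ (by positivity)]
    push_cast
    nlinarith)
  have hP : 1 ≤ P := by
    by_contra hcon
    push Not at hcon
    have h1 : P = 0 := by omega
    rw [h1, zero_mul] at hmain
    exact absurd (Nat.factorial_pos c) (by omega)
  refine ⟨hP, ?_⟩
  have hP' : (0 : ℝ) < P := by exact_mod_cast hP
  have h1 : Real.log c.factorial ≤ Real.log P + (k + N) * Real.log 2 := by
    have h2 : (c.factorial : ℝ) ≤ P * 2 ^ (k + N) := by exact_mod_cast hmain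
    have h3 := Real.log_le_log (by exact_mod_cast Nat.factorial_pos c) h2
    rw [Real.log_mul hP'.ne' (by positivity), Real.log_pow] at h3
    push_cast at h3
    exact h3
  have h2 : Real.log k.factorial ≤ Real.log c.factorial + (k - c) * Real.log k := by
    have h3 : (k.factorial : ℝ) ≤ c.factorial * (k : ℝ) ^ (k - c) := by exact_mod_cast fact_le hck
    have h4 := Real.log_le_log (by exact_mod_cast Nat.factorial_pos k) h3
    have hcf : (0 : ℝ) < c.factorial := by exact_mod_cast Nat.factorial_pos c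
    rw [Real.log_mul hcf.ne' (by positivity), Real.log_pow, Nat.cast_sub hck] at h4
    exact h4
  have hlogk : 0 ≤ Real.log k := Real.log_nonneg hk1
  have hlog2 : 0 ≤ Real.log 2 := Real.log_nonneg (by norm_num)
  have h3 : ((k : ℝ) - c) * Real.log k ≤ (2 * k / lam + 1) * Real.log k :=
    mul_le_mul_of_nonneg_right (by linarith) hlogk
  have h4 : ((k : ℝ) + N) * Real.log 2 ≤ (k + 40 * lam * (k + 1) + 1) * Real.log 2 :=
    mul_le_mul_of_nonneg_right (by linarith) hlog2
  linarith

/-- the explicit form -/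
theorem explicit {k P : ℕ} (hPm : ∀ (c N : ℕ) (lam : ℝ), 1 ≤ lam → (c : ℝ) ≤ k - 2 * k / lam →
    (k : ℝ) + 1 ≤ ((N + 1 : ℕ) : ℝ) / (40 * lam) → c.factorial ≤ P * 2 ^ (k + N)) (hk : 1 ≤ k) :
    (k.factorial : ℝ) * Real.exp (-(150 * k * Real.sqrt (Real.log k))) ≤ P := by
  have hk1 : (1 : ℝ) ≤ k := by exact_mod_cast hk
  set L := Real.log k with hL
  have hL0 : 0 ≤ L := Real.log_nonneg hk1
  set s := Real.sqrt L with hs
  have hs0 : 0 ≤ s := Real.sqrt_nonneg _
  have hsL : s * s = L := Real.mul_self_sqrt hL0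
  obtain ⟨hP, hb1⟩ := log_bound hPm (lam := 2 + s) (by linarith) hk
  have hP' : (0 : ℝ) < P := by exact_mod_cast hP
  rcases Nat.lt_or_ge k 2 with h2 | h2
  · have h3 : k = 1 := by omega
    subst h3
    have h4 : L = 0 := by rw [hL, Nat.cast_one, Real.log_one]
    have h5 : s = 0 := by rw [hs, h4, Real.sqrt_zero]
    rw [h5, mul_zero, neg_zero, Real.exp_zero, mul_one, Nat.factorial_one]
    exact_mod_cast hP
  · have hk2 : (2 : ℝ) ≤ k := by exact_mod_cast h2
    have hlog2 : Real.log 2 < 0.6932 := by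
      have := Real.log_two_lt_d9
      linarith
    have hlog2' : 0.69 < Real.log 2 := by
      have := Real.log_two_gt_d9
      linarith
    have hL2 : 0.69 < L := hlog2'.trans_le (Real.log_le_log (by norm_num) hk2)
    have hs1 : 0.83 ≤ s := by
      rw [hs]
      apply Real.le_sqrt_of_sq_le
      norm_num
      linarith
    have hsk : s ≤ k := by
      rw [hs, Real.sqrt_le_left (by linarith)]
      have := Real.log_le_sub_one_of_pos (show (0 : ℝ) < k by linarith)
      nlinarith
    have e1 : 2 * k / (2 + s) * L ≤ 2 * (k * s) := by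
      rw [div_mul_eq_mul_div, div_le_iff₀ (by linarith), ← hsL]
      have : 0 ≤ (k : ℝ) * s := by positivity
      nlinarith
    have e2 : L ≤ k * s := by
      rw [← hsL]
      exact mul_le_mul_of_nonneg_right hsk hs0
    have e3 : ((k : ℝ) + 40 * (2 + s) * (k + 1) + 1) * Real.log 2 ≤ 147 * (k * s) := by
      have h1 : (k : ℝ) + 40 * (2 + s) * (k + 1) + 1 ≤ 121.5 * k + 60 * (k * s) := by nlinarith
      have h3 : (k : ℝ) * 0.83 ≤ k * s := mul_le_mul_of_nonneg_left hs1 (by linarith)
      have h4 : 0 ≤ 121.5 * (k : ℝ) + 60 * (k * s) := by positivity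
      have h5 : ((k : ℝ) + 40 * (2 + s) * (k + 1) + 1) * Real.log 2 ≤
          (121.5 * k + 60 * (k * s)) * 0.6932 := by
        calc _ ≤ (121.5 * (k : ℝ) + 60 * (k * s)) * Real.log 2 :=
              mul_le_mul_of_nonneg_right h1 (by linarith)
          _ ≤ _ := mul_le_mul_of_nonneg_left hlog2.le h4
      linarith
    have e4 : (2 * k / (2 + s) + 1) * L = 2 * k / (2 + s) * L + L := by ring
    have e5 : Real.log k.factorial ≤ Real.log P + 150 * k * s := by linarith
    have hf : (0 : ℝ) < k.factorial := by exact_mod_cast Nat.factorial_pos k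
    rw [← Real.log_le_log_iff (by positivity) hP', Real.log_mul hf.ne' (Real.exp_pos _).ne',
      Real.log_exp]
    linarith


end Pool.Agent.Run7.h189.CO
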