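import Pool.Agent.Run7.h189.CO.Exact
import Pool.Agent.H358R5.MainC

/-!
# The number of words of the prime indicator along the orbits of affine maps
-/

set_option autoImplicit false

namespace Pool.Agent.Run7.h189.CO

open Filter Finset

/-- many primes in orbits, exact, with explicit numbers -/
theorem many_orb {a b : ℤ} (ha : 2 ≤ a) (hab : IsCoprime a b) (m K : ℕ) (hm : 2 ≤ m)
    (hK : 4 * (m : ℝ) + 29 / 50 ≤ Real.log K) (X : Finset ℕ) (hX : X.card = K)
    (hloc : ∀ p : ℕ, p.Prime → p ≤ X.card → (p : ℤ) ∣ a - 1 → ¬ (p : ℤ) ∣ b →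
      ∃ c : ℕ, ∀ v ∈ X, ¬ v ≡ c [MOD p]) :
    ∃ J ⊆ X, m + 1 ≤ J.card ∧ ∀ R : ℕ, {n : ℕ | ∀ j ≤ R, Pr (Fo a b j) n ↔ j ∈ J}.Infinite := by
  classical
  refine exact_aff ha hab X hloc (fun J => m + 1 ≤ J.card) ?_
  intro A B hA hAB hadm
  set e : Fin K ≃ X := (X.equivFinOfCardEq hX).symm with he
  have hcop : ∀ j ∈ X, Nat.Coprime (A j) (B j) := by
    intro j hj
    rw [Nat.coprime_iff_gcd_eq_one]
    by_contra hg
    obtain ⟨p, hp, hpd⟩ := Nat.exists_prime_and_dvd hg
    obtain ⟨r, hr⟩ := hadm p hp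
    exact hr j hj (dvd_add ((hpd.trans (Nat.gcd_dvd_left _ _)).mul_right _) (hpd.trans (Nat.gcd_dvd_right _ _)))
  have hne : ∀ i j : Fin K, i ≠ j → A (e i) * B (e j) ≠ A (e j) * B (e i) := by
    intro i j hij h
    have h1 : A (e i) ∣ A (e j) :=
      (hcop _ (e i).2).dvd_of_dvd_mul_right (Dvd.intro _ h)
    have h2 : A (e j) ∣ A (e i) :=
      (hcop _ (e j).2).dvd_of_dvd_mul_right (Dvd.intro _ h.symm)
    have h3 := Nat.dvd_antisymm h1 h2
    rw [h3] at h
    have h4 := Nat.eq_of_mul_eq_mul_left (hA _ (e j).2) h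
    have h5 := hAB _ (e i).2 _ (e j).2 h3 h4.symm
    exact hij (e.injective (Subtype.ext h5))
  have h := Pool.Agent.H358R5.forms_many m K hm hK (fun i => A (e i)) (fun i => B (e i))
    (fun i => hA _ (e i).2) hne (by
      intro p hp
      obtain ⟨r, hr⟩ := hadm p hp
      exact ⟨r, fun i => hr _ (e i).2⟩) (1 / 2) (by norm_num)
  intro hfin
  set F : Finset ℕ := hfin.toFinset with hF
  obtain ⟨x, hx1, hx2⟩ := (h.and (eventually_gt_atTop (((F.card : ℝ)) ^ 2))).exists
  have hx0 : (0 : ℝ) < x := lt_of_le_of_lt (by positivity) hx2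
  have hsub : {n : ℕ | 1 ≤ n ∧ (n : ℝ) ≤ x ∧ m + 1 ≤ Set.ncard {i : Fin K | (A (e i) * n + B (e i)).Prime}} ⊆
      (F : Set ℕ) := by
    rintro n ⟨-, -, hn⟩
    rw [mem_coe, hF, Set.Finite.mem_toFinset]
    show m + 1 ≤ (X.filter (fun j => (A j * n + B j).Prime)).card
    refine hn.trans ?_
    rw [Set.ncard_eq_toFinset_card']
    refine card_le_card_of_injOn (fun i => ((e i : X) : ℕ)) ?_ (fun i _ j _ hij => e.injective (Subtype.ext hij))
    intro i hi
    have hi' : (A (e i) * n + B (e i)).Prime := by simpa using hi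
    exact mem_coe.2 (mem_filter.2 ⟨(e i).2, hi'⟩)
  have h1 := Set.ncard_le_ncard hsub F.finite_toSet
  rw [Set.ncard_coe_finset] at h1
  have h2 : x ^ (1 - 1 / 2 : ℝ) ≤ (F.card : ℝ) := hx1.trans (by exact_mod_cast h1)
  have h3 : (F.card : ℝ) < x ^ (1 - 1 / 2 : ℝ) := by
    have h4 : (1 - 1 / 2 : ℝ) = 1 / 2 := by norm_num
    rw [h4, ← Real.sqrt_eq_rpow]
    exact (Real.lt_sqrt (by positivity)).2 hx2
  linarith

/-- sets of even squares have no local obstruction -/
theorem loc_sq (X : Finset ℕ) (h : ∀ v ∈ X, ∃ i, v = (2 * i) ^ 2) (p : ℕ) (hp : p.Prime) :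
    ∃ c : ℕ, ∀ v ∈ X, ¬ v ≡ c [MOD p] := by
  have : Fact p.Prime := ⟨hp⟩
  rcases hp.eq_two_or_odd' with rfl | hodd
  · refine ⟨1, fun v hv hmod => ?_⟩
    obtain ⟨i, rfl⟩ := h v hv
    have h1 : (2 * i) ^ 2 % 2 = 0 := by
      rw [mul_pow, show 2 ^ 2 = 2 * 2 by norm_num, mul_assoc, Nat.mul_mod_right]
    unfold Nat.ModEq at hmod
    omega
  · have h2 : ringChar (ZMod p) ≠ 2 := by
      rw [ZMod.ringChar_zmod_n]
      rintro rfl
      exact absurd hodd (by decide)
    obtain ⟨z, hz⟩ := FiniteField.exists_nonsquare (F := ZMod p) h2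
    refine ⟨z.val, fun v hv hmod => hz ?_⟩
    obtain ⟨i, rfl⟩ := h v hv
    have h3 := (ZMod.natCast_eq_natCast_iff _ _ _).2 hmod
    rw [ZMod.natCast_zmod_val] at h3
    rw [← h3]
    exact ⟨((2 * i : ℕ) : ZMod p), by push_cast; ring⟩

/-- the words of length `n + 1` of the prime indicator, which occur at infinitely many primes -/
def words (a b : ℤ) (n : ℕ) : Set (Fin (n + 1) → Bool) :=
  {w | {p : ℕ | p.Prime ∧ ∀ j : Fin (n + 1), (w j = true ↔ (It a b j p).toNat.Prime)}.Infinite}

open Classical in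
/-- **the number of words** -/
theorem words_card {a b : ℤ} (ha : 2 ≤ a) (hab : IsCoprime a b) (m K : ℕ) (hm : 2 ≤ m)
    (hK : 4 * (m : ℝ) + 29 / 50 ≤ Real.log K) (n : ℕ) (hn : 4 * K ^ 4 ≤ n) :
    K ^ (m + 1) ≤ (n + 1) * (words a b n).ncard := by
  have hK1 : 1 ≤ K := by
    rcases Nat.eq_zero_or_pos K with h | h
    · rw [h, Nat.cast_zero, Real.log_zero] at hK
      have : (0 : ℝ) ≤ m := Nat.cast_nonneg m
      linarith
    · exact h
  -- the positions
  set pos : ℕ → ℕ → ℕ := fun i v => (2 * (i * K + v)) ^ 2 with hpos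
  have hposinj : ∀ i i' v v', v < K → v' < K → pos i v = pos i' v' → i = i' ∧ v = v' := by
    intro i i' v v' hv hv' h
    simp only [hpos] at h
    have h1 : 2 * (i * K + v) = 2 * (i' * K + v') := Nat.pow_left_injective (by norm_num : 2 ≠ 0) h
    have h2 : i * K + v = i' * K + v' := by omega
    have h3 : i = i' := by
      have e1 : (i * K + v) / K = i := by
        rw [mul_comm, Nat.mul_add_div (by omega), Nat.div_eq_of_lt hv, add_zero]
      have e2 : (i' * K + v') / K = i' := by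
        rw [mul_comm, Nat.mul_add_div (by omega), Nat.div_eq_of_lt hv', add_zero]
      rw [← e1, h2, e2]
    subst h3
    exact ⟨rfl, by omega⟩
  have hposn : ∀ i v, i < K → v < K → pos i v ≤ n := by
    intro i v hi hv
    have h1 : i * K + v ≤ K * K := by
      have : (i + 1) * K ≤ K * K := Nat.mul_le_mul_right K hi
      rw [add_mul, one_mul] at this
      omega
    calc pos i v ≤ (2 * (K * K)) ^ 2 := Nat.pow_le_pow_left (Nat.mul_le_mul_left 2 h1) 2
      _ = 4 * K ^ 4 := by ring
      _ ≤ n := hn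
  set X : (Fin K → Fin K) → Finset ℕ := fun x => univ.image (fun i : Fin K => pos i (x i)) with hX
  have hXinj : ∀ x : Fin K → Fin K, Function.Injective (fun i : Fin K => pos i (x i)) := by
    intro x i j hij
    exact Fin.ext (hposinj _ _ _ _ (x i).2 (x j).2 hij).1
  have hex : ∀ x : Fin K → Fin K, ∃ J ⊆ X x, m + 1 ≤ J.card ∧
      ∀ R : ℕ, {n : ℕ | ∀ j ≤ R, Pr (Fo a b j) n ↔ j ∈ J}.Infinite := by
    intro x
    refine many_orb ha hab m K hm hK (X x) ?_ ?_
    · rw [hX, card_image_of_injective _ (hXinj x), card_univ, Fintype.card_fin]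
    · intro p hp _ _ _
      refine loc_sq _ ?_ p hp
      intro v hv
      obtain ⟨i, -, rfl⟩ := mem_image.1 hv
      exact ⟨_, rfl⟩
  choose J hJX hJc hJi using hex
  -- the number of the sets
  have hfib : ∀ Z ∈ univ.image J, (univ.filter (fun x => J x = Z)).card ≤ K ^ (K - (m + 1)) := by
    intro Z hZ
    obtain ⟨x₀, -, rfl⟩ := mem_image.1 hZ
    set I : Finset (Fin K) := univ.filter (fun i => pos i (x₀ i) ∈ J x₀) with hI
    have hIc : m + 1 ≤ I.card := by
      refine (hJc x₀).trans ?_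
      have h1 : J x₀ ⊆ I.image (fun i : Fin K => pos i (x₀ i)) := by
        intro v hv
        obtain ⟨i, -, rfl⟩ := mem_image.1 (hJX x₀ hv)
        exact mem_image.2 ⟨i, mem_filter.2 ⟨mem_univ _, hv⟩, rfl⟩
      exact (card_le_card h1).trans card_image_le
    have hsub : univ.filter (fun x => J x = J x₀) ⊆
        Fintype.piFinset (fun i : Fin K => if i ∈ I then {x₀ i} else univ) := by
      intro x hx
      have hx' := (mem_filter.1 hx).2
      refine Fintype.mem_piFinset.2 fun i => ?_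
      split_ifs with hi
      · have h1 : pos i (x₀ i) ∈ J x := by rw [hx']; exact (mem_filter.1 hi).2
        obtain ⟨i', -, h2⟩ := mem_image.1 (hJX x h1)
        obtain ⟨h3, h4⟩ := hposinj _ _ _ _ (x i').2 (x₀ i).2 h2
        have h5 : i' = i := Fin.ext h3
        subst h5
        exact mem_singleton.2 (Fin.ext h4)
      · exact mem_univ _
    refine (card_le_card hsub).trans ?_
    rw [Fintype.card_piFinset]
    have h1 : ∀ j : Fin K, (if j ∈ I then ({x₀ j} : Finset (Fin K)) else univ).card =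
        if j ∈ I then 1 else K := by
      intro j
      split_ifs <;> simp
    rw [prod_congr rfl fun j _ => h1 j, prod_ite, prod_const_one, one_mul, prod_const]
    refine Nat.pow_le_pow_right hK1 ?_
    rw [filter_not, filter_mem_eq_inter, univ_inter, card_sdiff_of_subset (subset_univ _),
      card_univ, Fintype.card_fin]
    omega
  have htot : K ^ K ≤ (univ.image J).card * K ^ (K - (m + 1)) := by
    have h1 : (univ : Finset (Fin K → Fin K)).card = K ^ K := by
      rw [card_univ, Fintype.card_fun, Fintype.card_fin]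
    rw [← h1, card_eq_sum_card_fiberwise (f := J) (t := univ.image J)
      (fun x _ => mem_coe.2 (mem_image_of_mem _ (mem_univ _)))]
    refine (sum_le_card_nsmul _ _ _ hfib).trans (le_of_eq ?_)
    rw [smul_eq_mul]
  have hmK : m + 1 ≤ K := by
    have h1 := hJc (fun i => i)
    have h2 := card_le_card (hJX (fun i => i))
    have h3 : (X (fun i => i)).card ≤ K := by
      rw [hX]
      exact card_image_le.trans (by rw [card_univ, Fintype.card_fin])
    omega
  have hJcount : K ^ (m + 1) ≤ (univ.image J).card := by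
    have h2 : K ^ K = K ^ (m + 1) * K ^ (K - (m + 1)) := by rw [← pow_add]; congr 1; omega
    rw [h2] at htot
    exact Nat.le_of_mul_le_mul_right htot (Nat.pow_pos hK1)
  refine hJcount.trans ?_
  -- from sets to words
  have hJne : ∀ x, (J x).Nonempty := fun x => card_pos.1 (by have := hJc x; omega)
  have hJn : ∀ x, ∀ v ∈ J x, v ≤ n := by
    intro x v hv
    obtain ⟨i, -, rfl⟩ := mem_image.1 (hJX x hv)
    exact hposn _ _ i.2 (x i).2
  set s : Finset ℕ → ℕ := fun Z => if h : Z.Nonempty then Z.min' h else 0 with hs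
  set wd : Finset ℕ → Fin (n + 1) → Bool := fun Z j => decide (s Z + j ∈ Z) with hwd
  have hsmem : ∀ x, s (J x) ∈ J x := by
    intro x
    simp only [hs, dif_pos (hJne x)]
    exact min'_mem _ _
  have hsle : ∀ x, ∀ v ∈ J x, s (J x) ≤ v := by
    intro x v hv
    simp only [hs, dif_pos (hJne x)]
    exact min'_le _ _ hv
  have hword : ∀ x, wd (J x) ∈ words a b n := by
    intro x
    have h1 := block ha (hJi x) (s (J x)) 0 n (Nat.zero_le _) (hsmem x)
      (fun j hj _ => hsle x j hj) (fun j => s (J x) + j ∈ J x) (fun j _ => Iff.rfl)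
    refine h1.mono ?_
    rintro p ⟨hp1, hp2, -⟩
    refine ⟨hp1, fun j => ?_⟩
    simp only [hwd, decide_eq_true_eq]
    exact (hp2 j (by have := j.2; omega)).symm
  have hmaps : Set.MapsTo (fun Z => (s Z, wd Z)) ↑(univ.image J)
      ↑((range (n + 1)) ×ˢ (words a b n).toFinite.toFinset) := by
    intro Z hZ
    obtain ⟨x, -, rfl⟩ := mem_image.1 (mem_coe.1 hZ)
    refine mem_coe.2 (mem_product.2 ⟨mem_range.2 ?_, (Set.Finite.mem_toFinset _).2 (hword x)⟩)
    have := hJn x _ (hsmem x)
    simp only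
    omega
  have hinj : Set.InjOn (fun Z => (s Z, wd Z)) ↑(univ.image J) := by
    intro Z hZ Z' hZ' h
    obtain ⟨x, -, rfl⟩ := mem_image.1 (mem_coe.1 hZ)
    obtain ⟨x', -, rfl⟩ := mem_image.1 (mem_coe.1 hZ')
    simp only [Prod.mk.injEq] at h
    obtain ⟨h1, h2⟩ := h
    have key : ∀ x x', s (J x) = s (J x') → wd (J x) = wd (J x') → J x ⊆ J x' := by
      intro x x' h1 h2 v hv
      have h3 := hsle x v hv
      have h4 := hJn x v hv
      have h5 := congrFun h2 ⟨v - s (J x), by omega⟩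
      simp only [hwd] at h5
      rw [Nat.add_sub_cancel' h3, ← h1, Nat.add_sub_cancel' h3, decide_eq_decide] at h5
      exact h5.1 hv
    exact Finset.Subset.antisymm (key x x' h1 h2) (key x' x h1.symm h2.symm)
  have hc := card_le_card_of_injOn _ hmaps hinj
  rw [card_product, card_range] at hc
  rw [Set.ncard_eq_toFinset_card (words a b n) (words a b n).toFinite]
  exact hc

end Pool.Agent.Run7.h189.CO
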