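import Pool.Agent.Run7.h189.CO.Exact
import Pool.Agent.TH29.GO.Orders

/-!
# Order patterns of the gaps between the primes of an orbit
-/

set_option autoImplicit false

namespace Pool.Agent.Run7.h189.CO

open Filter Finset

/-- the scale sequence belonging to `F` and `W` -/
def bs (F : ℕ → ℕ) (W : ℕ) : ℕ → ℕ
  | 0 => W
  | n + 1 => W * (8 * bs F W n + 2 * ∑ y ∈ range (2 * bs F W n + 1), (F y + 1))

theorem bs_dvd (F : ℕ → ℕ) (W e : ℕ) : W ∣ bs F W e := by
  cases e with
  | zero => exact dvd_rfl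
  | succ n => exact Dvd.intro _ rfl

theorem bs_pos (F : ℕ → ℕ) (W : ℕ) (hW : 1 ≤ W) (e : ℕ) : 1 ≤ bs F W e := by
  induction e with
  | zero => exact hW
  | succ n ih =>
    unfold bs
    nlinarith [Nat.zero_le (2 * ∑ y ∈ range (2 * bs F W n + 1), (F y + 1))]

theorem bs_grow (F : ℕ → ℕ) (W : ℕ) (hW : 1 ≤ W) (e : ℕ) : 8 * bs F W e ≤ bs F W (e + 1) := by
  show 8 * bs F W e ≤ W * (8 * bs F W e + 2 * ∑ y ∈ range (2 * bs F W e + 1), (F y + 1))
  nlinarith [Nat.zero_le (2 * ∑ y ∈ range (2 * bs F W e + 1), (F y + 1)), Nat.zero_le (bs F W e)]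

theorem bs_F (F : ℕ → ℕ) (W : ℕ) (hW : 1 ≤ W) (e y : ℕ) (hy : y ≤ 2 * bs F W e) :
    2 * (F y + 1) ≤ bs F W (e + 1) := by
  have h1 : F y + 1 ≤ ∑ y ∈ range (2 * bs F W e + 1), (F y + 1) :=
    single_le_sum (f := fun y => F y + 1) (fun _ _ => Nat.zero_le _) (mem_range.2 (by omega))
  show 2 * (F y + 1) ≤ W * (8 * bs F W e + 2 * ∑ y ∈ range (2 * bs F W e + 1), (F y + 1))
  nlinarith [Nat.zero_le (bs F W e)]

theorem scale_bs (F : ℕ → ℕ) (W : ℕ) (hW : 1 ≤ W) :
    Pool.Agent.TH29.GO.Scale (fun e => (bs F W e : ℤ)) where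
  pos := fun e => by exact_mod_cast bs_pos F W hW e
  grow := fun e => by exact_mod_cast bs_grow F W hW e

open Classical in
/-- **the order pattern occurs in the orbits** -/
theorem occurs_orb {k : ℕ} {σ : ℕ → ℕ} (h : Pool.Agent.TH29.GO.Forces 4 k σ) (F : ℕ → ℕ) (R : ℕ) :
    ∃ C : ℕ, ∀ a b : ℤ, 2 ≤ a → IsCoprime a b → ∃ t : ℕ → ℕ, t 0 = 0 ∧ (∀ i < k, t i < t (i + 1)) ∧
      t k ≤ C ∧ (∀ i j, i < k → j < k → σ i < σ j → F (t (i + 1) - t i) < t (j + 1) - t j) ∧
      {p : ℕ | p.Prime ∧ (∀ j ≤ t k + R, (It a b j p).toNat.Prime ↔ ∃ i ≤ k, j = t i) ∧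
        ∀ q j : ℕ, q.Prime → 0 < j → j ≤ R → It a b j q ≠ p}.Infinite := by
  obtain ⟨T, hT1, hT⟩ := h
  obtain ⟨K, hK, hcol⟩ := col T
  set W : ℕ := (R + 1) * (T * K).factorial with hW
  have hW1 : 1 ≤ W := Nat.mul_pos (Nat.succ_pos R) (Nat.factorial_pos _)
  have hWR : R < W := by
    have : R + 1 ≤ W := Nat.le_mul_of_pos_right _ (Nat.factorial_pos _)
    omega
  obtain ⟨off, hinj, hdvd, hforce⟩ := hT K hK (fun e => (bs F W e : ℤ)) (scale_bs F W hW1) (W : ℤ)
    (fun e => by exact_mod_cast bs_dvd F W e)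
  set M : ℕ := ∑ u : Fin T × Fin K, (off u.1 u.2).natAbs with hM
  have hoffM : ∀ u : Fin T × Fin K, |off u.1 u.2| ≤ M := by
    intro u
    have h1 : (off u.1 u.2).natAbs ≤ M :=
      single_le_sum (f := fun u : Fin T × Fin K => (off u.1 u.2).natAbs) (fun _ _ => Nat.zero_le _)
        (mem_univ u)
    rw [Int.abs_eq_natAbs]
    exact_mod_cast h1
  -- the shift
  set B : ℤ := (W : ℤ) * (M + R + 1) with hB
  have hBge : (M : ℤ) + R + 1 ≤ B := by
    rw [hB]
    have : (1 : ℤ) ≤ W := by exact_mod_cast hW1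
    nlinarith
  set ti : Fin T × Fin K → ℕ := fun u => (off u.1 u.2 + B).toNat with hti
  have htiz : ∀ u, ((ti u : ℕ) : ℤ) = off u.1 u.2 + B := by
    intro u
    rw [hti]
    apply Int.toNat_of_nonneg
    have := neg_le_of_abs_le (hoffM u)
    linarith [Int.natCast_nonneg R]
  have htinj : Function.Injective ti := by
    intro u v huv
    apply hinj
    have h1 := htiz u
    have h2 := htiz v
    rw [huv, h2] at h1
    simp only
    linarith
  have htiR : ∀ u, R ≤ ti u := by
    intro u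
    have h1 := htiz u
    have := neg_le_of_abs_le (hoffM u)
    have h2 : (R : ℤ) ≤ ti u := by linarith
    exact_mod_cast h2
  have htW : ∀ u, (W : ℤ) ∣ ti u := by
    intro u
    rw [htiz]
    exact dvd_add (hdvd _ _) (Dvd.intro _ rfl)
  refine ⟨2 * M, fun a b ha hab => ?_⟩
  obtain ⟨Wt, hWt1, hWt2⟩ := hcol a b ha hab ti htinj (by
    intro u
    have h2 : (T * K).factorial ∣ W := Dvd.intro_left _ rfl
    have h3 : (((T * K).factorial : ℕ) : ℤ) ∣ ti u :=
      (by exact_mod_cast h2 : (((T * K).factorial : ℕ) : ℤ) ∣ (W : ℤ)).trans (htW u)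
    exact_mod_cast h3)
  -- the window
  set P : Finset ℤ := Wt.image (fun u => off u.1 u.2) with hP
  have hPW : ∀ g ∈ Wt.image Prod.fst, ∃ i, (g, i) ∈ Wt := by
    intro g hg
    obtain ⟨u, hu, rfl⟩ := mem_image.1 hg
    exact ⟨u.2, hu⟩
  have : Nonempty (Fin K) := ⟨⟨0, hK⟩⟩
  choose! c hc using hPW
  obtain ⟨x, E, k1, k2, k3, k4, k5⟩ := hforce P (Wt.image Prod.fst) c (by
    intro y hy
    obtain ⟨z, -, hz⟩ := mem_image.1 hy
    exact ⟨z.1, z.2, hz.symm⟩) hWt1 (by
    intro g hg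
    exact mem_image.2 ⟨_, hc g hg, rfl⟩)
  have hmemP : ∀ y : ℤ, y ∈ P ↔ (y + B).toNat ∈ Wt.image ti ∧ |y| ≤ M := by
    intro y
    constructor
    · intro hy
      obtain ⟨u, hu, rfl⟩ := mem_image.1 hy
      exact ⟨mem_image.2 ⟨u, hu, rfl⟩, hoffM u⟩
    · rintro ⟨h1, h2⟩
      obtain ⟨u, hu, h3⟩ := mem_image.1 h1
      refine mem_image.2 ⟨u, hu, ?_⟩
      have h4 := htiz u
      rw [h3] at h4
      have h5 := neg_le_of_abs_le h2
      rw [Int.toNat_of_nonneg (by linarith [Int.natCast_nonneg R])] at h4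
      linarith
  have hxabs : ∀ i ≤ k, |x i| ≤ M := fun i hi => ((hmemP _).1 (k2 i hi)).2
  have hmono : ∀ i j, i ≤ j → j ≤ k → x i ≤ x j := by
    intro i j hij hj
    rcases hij.lt_or_eq with h | h
    · exact (k1 i j h hj).le
    · rw [h]
  have hx0 : ∀ i ≤ k, 0 ≤ x i - x 0 := fun i hi => by
    have := hmono 0 i (Nat.zero_le _) hi
    linarith
  set t : ℕ → ℕ := fun i => (x i - x 0).toNat with ht
  have htz : ∀ i ≤ k, ((t i : ℕ) : ℤ) = x i - x 0 := fun i hi => Int.toNat_of_nonneg (hx0 i hi)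
  set s : ℕ := (x 0 + B).toNat with hs
  have hsz : (s : ℤ) = x 0 + B := by
    apply Int.toNat_of_nonneg
    have := neg_le_of_abs_le (hxabs 0 (Nat.zero_le _))
    linarith [Int.natCast_nonneg R]
  have hsP : s ∈ Wt.image ti := ((hmemP _).1 (k2 0 (Nat.zero_le _))).1
  -- distances in the pattern
  have hsep : ∀ u ∈ Wt.image ti, ∀ v ∈ Wt.image ti, u < v → u + R < v := by
    intro u hu v hv huv
    obtain ⟨u', -, rfl⟩ := mem_image.1 hu
    obtain ⟨v', -, rfl⟩ := mem_image.1 hv
    have h1 : (W : ℤ) ∣ (ti v' : ℤ) - ti u' := dvd_sub (htW v') (htW u')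
    have h2 : (0 : ℤ) < (ti v' : ℤ) - ti u' := by
      have : (ti u' : ℤ) < ti v' := by exact_mod_cast huv
      linarith
    have h3 := Int.le_of_dvd h2 h1
    have h4 : (R : ℤ) < W := by exact_mod_cast hWR
    have h5 : (ti u' : ℤ) + R < ti v' := by linarith
    exact_mod_cast h5
  refine ⟨t, by simp [ht], fun i hi => ?_, ?_, ?_, ?_⟩
  · have h1 := htz i hi.le
    have h2 := htz (i + 1) hi
    have h3 := k1 i (i + 1) (Nat.lt_succ_self i) hi
    have h4 : ((t i : ℕ) : ℤ) < t (i + 1) := by rw [h1, h2]; linarith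
    exact_mod_cast h4
  · have h1 := htz k le_rfl
    have h2 := abs_le.1 (hxabs k le_rfl)
    have h3 := abs_le.1 (hxabs 0 (Nat.zero_le _))
    have h4 : ((t k : ℕ) : ℤ) ≤ ((2 * M : ℕ) : ℤ) := by
      rw [h1]
      push_cast
      linarith [h2.2, h3.1]
    exact_mod_cast h4
  · intro i j hi hj hij
    have hEE := k5 i j hi hj hij
    have w1 := (k4 i hi).2
    have w2 := (k4 j hj).1
    have g1 : ((t (i + 1) - t i : ℕ) : ℤ) = x (i + 1) - x i := by
      have h1 := htz i hi.le
      have h2 := htz (i + 1) hi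
      have h3 := k1 i (i + 1) (Nat.lt_succ_self i) hi
      have h4 : t i ≤ t (i + 1) := by
        have : ((t i : ℕ) : ℤ) ≤ t (i + 1) := by rw [h1, h2]; linarith
        exact_mod_cast this
      rw [Nat.cast_sub h4, h1, h2]
      ring
    have g2 : ((t (j + 1) - t j : ℕ) : ℤ) = x (j + 1) - x j := by
      have h1 := htz j hj.le
      have h2 := htz (j + 1) hj
      have h3 := k1 j (j + 1) (Nat.lt_succ_self j) hj
      have h4 : t j ≤ t (j + 1) := by
        have : ((t j : ℕ) : ℤ) ≤ t (j + 1) := by rw [h1, h2]; linarith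
        exact_mod_cast this
      rw [Nat.cast_sub h4, h1, h2]
      ring
    have hy : t (i + 1) - t i ≤ 2 * bs F W (E i) := by
      have : ((t (i + 1) - t i : ℕ) : ℤ) ≤ ((2 * bs F W (E i) : ℕ) : ℤ) := by
        rw [g1]
        push_cast
        exact w1
      exact_mod_cast this
    have h1 := bs_F F W hW1 (E i) _ hy
    have h2 : (bs F W (E i + 1) : ℤ) ≤ bs F W (E j) := (scale_bs F W hW1).le (Nat.succ_le_of_lt hEE)
    have h3 : (2 * (F (t (i + 1) - t i) + 1) : ℤ) ≤ bs F W (E i + 1) := by exact_mod_cast h1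
    have h5 : ((F (t (i + 1) - t i) : ℕ) : ℤ) < ((t (j + 1) - t j : ℕ) : ℤ) := by
      rw [g2]
      have w2' : (bs F W (E j) : ℤ) ≤ 2 * (x (j + 1) - x j) := w2
      linarith
    exact_mod_cast h5
  · -- the block
    have hRs : R ≤ s := by
      obtain ⟨u, -, hu⟩ := mem_image.1 hsP
      rw [← hu]
      exact htiR u
    refine block ha hWt2 s R (t k) hRs hsP ?_ _ ?_
    · intro j hj hjs
      by_contra hcon
      push Not at hcon
      have := hsep j hj s hsP hcon
      omega
    · intro j hj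
      have hsk : s + t k ∈ Wt.image ti := by
        have h1 := ((hmemP _).1 (k2 k le_rfl)).1
        have h2 : (x k + B).toNat = s + t k := by
          have h3 := htz k le_rfl
          have h4 : ((s + t k : ℕ) : ℤ) = x k + B := by
            push_cast
            rw [hsz, h3]
            ring
          rw [← h4, Int.toNat_natCast]
        rw [← h2]
        exact h1
      constructor
      · rintro ⟨i, hi, rfl⟩
        have h1 := ((hmemP _).1 (k2 i hi)).1
        have h2 : (x i + B).toNat = s + t i := by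
          have h3 := htz i hi
          have h4 : ((s + t i : ℕ) : ℤ) = x i + B := by
            push_cast
            rw [hsz, h3]
            ring
          rw [← h4, Int.toNat_natCast]
        rw [← h2]
        exact h1
      · intro hjP
        have hjk : s + j ≤ s + t k := by
          by_contra hcon
          push Not at hcon
          have := hsep _ hsk _ hjP hcon
          omega
        obtain ⟨u, hu, hu2⟩ := mem_image.1 hjP
        have h1 := htiz u
        rw [hu2] at h1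
        push_cast at h1
        rw [hsz] at h1
        have h2 : off u.1 u.2 ∈ P := mem_image.2 ⟨u, hu, rfl⟩
        have h3 := htz k le_rfl
        have h4 : (j : ℤ) ≤ t k := by exact_mod_cast (by omega : j ≤ t k)
        obtain ⟨i, hi, h5⟩ := k3 _ h2 (by linarith [Int.natCast_nonneg j]) (by
          rw [h3] at h4
          linarith)
        refine ⟨i, hi, ?_⟩
        have h6 := htz i hi
        have h7 : (j : ℤ) = t i := by
          rw [h6, ← h5]
          linarith
        exact_mod_cast h7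

end Pool.Agent.Run7.h189.CO
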