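import Pool.Agent.Run7.h189.CO.Exact

/-!
# The vectors of consecutive gaps between the primes of an orbit: density and differences
-/

set_option autoImplicit false

namespace Pool.Agent.Run7.h189.CO

open Filter Finset

/-- the sum of the first `r` entries -/
def tm {k : ℕ} (g : Fin k → ℕ) (r : ℕ) : ℕ := ∑ i : Fin k, if (i : ℕ) < r then g i else 0

theorem tm_zero {k : ℕ} (g : Fin k → ℕ) : tm g 0 = 0 := by simp [tm]

theorem tm_succ {k : ℕ} (g : Fin k → ℕ) (r : Fin k) : tm g (r + 1) = tm g r + g r := by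
  unfold tm
  have h1 : ∀ i : Fin k, (if (i : ℕ) < r + 1 then g i else 0) =
      (if (i : ℕ) < r then g i else 0) + (if i = r then g i else 0) := by
    intro i
    by_cases h : i = r
    · subst h
      simp
    · have h2 : (i : ℕ) ≠ r := fun h' => h (Fin.ext h')
      by_cases h3 : (i : ℕ) < r
      · rw [if_pos (by omega), if_pos h3, if_neg h, add_zero]
      · rw [if_neg (by omega), if_neg h3, if_neg h]
  rw [sum_congr rfl fun i _ => h1 i, sum_add_distrib, sum_ite_eq' univ r g, if_pos (mem_univ r)]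

theorem tm_full {k : ℕ} (g : Fin k → ℕ) : tm g k = ∑ i, g i := by
  unfold tm
  exact sum_congr rfl fun i _ => if_pos i.2

/-- **the vector `g` is the vector of the first `k` gaps for infinitely many primes** -/
def GapVec (a b : ℤ) (R : ℕ) {k : ℕ} (g : Fin k → ℕ) : Prop :=
  {p : ℕ | p.Prime ∧ (∀ j ≤ (∑ i, g i) + R, (It a b j p).toNat.Prime ↔ ∃ r ≤ k, j = tm g r) ∧
    ∀ q j : ℕ, q.Prime → 0 < j → j ≤ R → It a b j q ≠ p}.Infinite

/-- the sums over the blocks -/
def bsum {k m : ℕ} (u : ℕ → ℕ) (ι : Fin (k + 1) → Fin m) (r : Fin k) : ℕ :=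
  ∑ j ∈ Ico (ι r.castSucc : ℕ) (ι r.succ : ℕ), u j

theorem exists_gapvec (k : ℕ) : ∃ m : ℕ, 1 ≤ m ∧ ∀ a b : ℤ, 2 ≤ a → IsCoprime a b → ∀ R N : ℕ,
    m.factorial ∣ N → R < N → ∀ u : ℕ → ℕ, (∀ j, 1 ≤ u j) →
    ∃ ι : Fin (k + 1) → Fin m, StrictMono ι ∧ GapVec a b R (fun r => N * bsum u ι r) := by
  classical
  obtain ⟨K, hK, hcol⟩ := col (4 * (k + 1))
  set T : ℕ := 4 * (k + 1) with hT
  set m : ℕ := T * K with hm
  refine ⟨m, Nat.mul_pos (by omega) hK, ?_⟩
  intro a b ha hab R N hN hRN u hu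
  set y : ℕ → ℕ := fun i => N * (1 + ∑ j ∈ range i, u j) with hy
  have hN0 : 0 < N := by omega
  have hmono : StrictMono y := by
    refine strictMono_nat_of_lt_succ fun i => ?_
    simp only [hy]
    refine Nat.mul_lt_mul_of_pos_left ?_ hN0
    rw [sum_range_succ]
    have := hu i
    omega
  set ti : Fin T × Fin K → ℕ := fun v => y (finProdFinEquiv v) with hti
  obtain ⟨W, hW1, hW2⟩ := hcol a b ha hab ti (by
    intro v v' h
    have h1 := hmono.injective h
    exact finProdFinEquiv.injective (Fin.ext h1)) (fun v => hN.trans (Dvd.intro _ rfl))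
  set I₀ : Finset (Fin m) := W.image finProdFinEquiv with hI₀
  have hI₀c : k + 1 ≤ I₀.card := by
    have h1 : I₀.card = W.card := card_image_of_injective _ finProdFinEquiv.injective
    have h2 : (W.image Prod.fst).card ≤ W.card := card_image_le
    omega
  have hJ : ∀ j, j ∈ W.image ti ↔ ∃ i ∈ I₀, j = y i := by
    intro j
    constructor
    · intro h
      obtain ⟨v, hv, rfl⟩ := mem_image.1 h
      exact ⟨finProdFinEquiv v, mem_image_of_mem _ hv, rfl⟩
    · rintro ⟨i, hi, rfl⟩
      obtain ⟨v, hv, rfl⟩ := mem_image.1 hi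
      exact mem_image.2 ⟨v, hv, rfl⟩
  set e : Fin I₀.card ↪o Fin m := I₀.orderEmbOfFin rfl with he
  set ι : Fin (k + 1) → Fin m := fun r => e (Fin.castLE hI₀c r) with hι
  have hιm : StrictMono ι := fun r r' h => e.strictMono (by simpa using h)
  have hιI : ∀ r, ι r ∈ I₀ := fun r => I₀.orderEmbOfFin_mem rfl _
  -- the elements of `I₀` up to the last index
  have hιs : ∀ i ∈ I₀, i ≤ ι (Fin.last k) → ∃ r, i = ι r := by
    intro i hi hle
    obtain ⟨s, hs⟩ : ∃ s, e s = i := by
      have := I₀.range_orderEmbOfFin rfl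
      have h1 : i ∈ Set.range (I₀.orderEmbOfFin rfl) := by rw [this]; exact hi
      exact h1
    have h2 : s ≤ Fin.castLE hI₀c (Fin.last k) := by
      rw [← hs] at hle
      exact e.le_iff_le.1 hle
    have h3 : (s : ℕ) < k + 1 := by
      have := Fin.le_def.1 h2
      simp at this
      omega
    exact ⟨⟨s, h3⟩, by rw [← hs, hι]; rfl⟩
  refine ⟨ι, hιm, ?_⟩
  set g : Fin k → ℕ := fun r => N * bsum u ι r with hg
  -- the times
  have htm : ∀ r : ℕ, ∀ hr : r ≤ k, y (ι 0) + tm g r = y (ι ⟨r, by omega⟩) := by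
    intro r
    induction r with
    | zero => intro _; rw [tm_zero]; rfl
    | succ r ih =>
      intro hr
      have h1 := ih (by omega)
      have h2 := tm_succ g ⟨r, by omega⟩
      simp only at h2
      rw [h2, ← add_assoc, h1]
      simp only [hg, bsum, hy]
      have h3 : (ι (⟨r, by omega⟩ : Fin (k + 1)) : ℕ) ≤ (ι (⟨r + 1, by omega⟩ : Fin (k + 1)) : ℕ) :=
        (hιm (show (⟨r, by omega⟩ : Fin (k + 1)) < ⟨r + 1, by omega⟩ from Nat.lt_succ_self r)).le
      rw [← mul_add]
      congr 1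
      rw [show (Fin.castSucc (⟨r, by omega⟩ : Fin k)) = (⟨r, by omega⟩ : Fin (k + 1)) from rfl,
        show (Fin.succ (⟨r, by omega⟩ : Fin k)) = (⟨r + 1, by omega⟩ : Fin (k + 1)) from rfl,
        add_assoc, sum_range_add_sum_Ico _ h3]
  have hlast := htm k le_rfl
  rw [tm_full] at hlast
  have hlow : ∀ j ∈ W.image ti, y (ι 0) ≤ j + R → y (ι 0) ≤ j := by
    intro j hj hjR
    obtain ⟨i, hi, rfl⟩ := (hJ j).1 hj
    by_contra hcon
    have h1 : (i : ℕ) < ι 0 := hmono.lt_iff_lt.1 (not_le.1 hcon)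
    have h2 : i ≤ ι (Fin.last k) := by
      have h3 : ι 0 ≤ ι (Fin.last k) := hιm.monotone (Fin.zero_le _)
      have h4 := Fin.le_def.1 h3
      exact Fin.le_def.2 (by omega)
    obtain ⟨r, rfl⟩ := hιs i hi h2
    have h3 : ι 0 ≤ ι r := hιm.monotone (Fin.zero_le _)
    have h4 := Fin.le_def.1 h3
    omega
  have hsep : ∀ i i' : ℕ, i < i' → y i + N ≤ y i' := by
    intro i i' h
    have h1 : y (i + 1) ≤ y i' := hmono.monotone h
    have h2 : y i + N ≤ y (i + 1) := by
      simp only [hy]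
      rw [sum_range_succ]
      have := hu i
      nlinarith
    omega
  have hblock := block ha hW2 (y (ι 0)) R (∑ i, g i) (by
      have : N * 1 ≤ y (ι 0) := by
        simp only [hy]
        exact Nat.mul_le_mul_left _ (by omega)
      omega) ((hJ _).2 ⟨ι 0, hιI 0, rfl⟩) hlow (fun j => ∃ r ≤ k, j = tm g r) (by
      intro j hj
      constructor
      · rintro ⟨r, hr, rfl⟩
        rw [htm r hr]
        exact (hJ _).2 ⟨_, hιI _, rfl⟩
      · intro hjJ
        obtain ⟨i, hi, hyi⟩ := (hJ _).1 hjJ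
        have hle : i ≤ ι (Fin.last k) := by
          by_contra hcon
          have h1 : (ι (Fin.last k) : ℕ) < i := Fin.lt_def.1 (not_le.1 hcon)
          have h2 := hsep _ _ h1
          have h3 : y (ι (Fin.last k)) = y (ι 0) + ∑ i, g i := hlast.symm
          omega
        obtain ⟨r, rfl⟩ := hιs i hi hle
        refine ⟨r, by have := r.2; omega, ?_⟩
        have h4 := htm r (by have := r.2; omega)
        have h5 : y (ι 0) + j = y (ι 0) + tm g r := by
          rw [hyi, h4]
        omega)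
  exact hblock

theorem bsum_inj {k m : ℕ} {ι : Fin (k + 1) → Fin m} (hι : StrictMono ι) {u u' : ℕ → ℕ}
    (hoff : ∀ j < m, (∀ r : Fin k, (ι r.castSucc : ℕ) ≠ j) → u j = u' j)
    (hb : ∀ r, bsum u ι r = bsum u' ι r) : ∀ j < m, u j = u' j := by
  intro j hj
  by_cases h : ∀ r : Fin k, (ι r.castSucc : ℕ) ≠ j
  · exact hoff j hj h
  · push Not at h
    obtain ⟨r, rfl⟩ := h
    have h1 := hb r
    unfold bsum at h1
    have hlt : (ι r.castSucc : ℕ) < ι r.succ := Fin.lt_def.1 (hι (Fin.castSucc_lt_succ))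
    rw [sum_eq_sum_Ico_succ_bot hlt, sum_eq_sum_Ico_succ_bot hlt] at h1
    have h2 : ∑ j ∈ Ico ((ι r.castSucc : ℕ) + 1) (ι r.succ : ℕ), u j =
        ∑ j ∈ Ico ((ι r.castSucc : ℕ) + 1) (ι r.succ : ℕ), u' j := by
      refine sum_congr rfl fun j hj' => ?_
      rw [mem_Ico] at hj'
      refine hoff j (by have := (ι r.succ).2; omega) fun s hs => ?_
      rcases lt_trichotomy s r with h3 | h3 | h3
      · have h4 : ι s.castSucc < ι r.castSucc := hι (Fin.castSucc_lt_castSucc_iff.2 h3)
        have := Fin.lt_def.1 h4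
        omega
      · subst h3
        omega
      · have h4 : ι r.succ ≤ ι s.castSucc := hι.monotone (by
          rw [Fin.le_def]
          simpa using h3)
        have := Fin.le_def.1 h4
        omega
    omega

open Classical in
/-- **a positive proportion of all vectors** -/
theorem density (k : ℕ) : ∃ m C : ℕ, 1 ≤ m ∧ 1 ≤ C ∧ ∀ a b : ℤ, 2 ≤ a → IsCoprime a b → ∀ R N : ℕ,
    m.factorial ∣ N → R < N → ∀ H : ℕ, m ≤ H →
    H ^ k ≤ C * ((Fintype.piFinset (fun _ : Fin k => Icc 1 H)).filter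
      (fun g => GapVec a b R (fun i => N * g i))).card := by
  obtain ⟨m, hm, hex⟩ := exists_gapvec k
  refine ⟨m, (2 * m) ^ k * m ^ (k + 1), hm, Nat.mul_pos (Nat.pow_pos (by omega)) (Nat.pow_pos hm), ?_⟩
  intro a b ha hab R N hN hRN H hH
  set A : Finset (Fin k → ℕ) := (Fintype.piFinset (fun _ : Fin k => Icc 1 H)).filter
      (fun g => GapVec a b R (fun i => N * g i)) with hA
  set h : ℕ := H / m with hh
  have hh1 : 1 ≤ h := (Nat.one_le_div_iff hm).2 hH
  set U : Finset (Fin m → ℕ) := Fintype.piFinset (fun _ : Fin m => range h) with hU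
  have hUc : U.card = h ^ m := by
    rw [hU, Fintype.card_piFinset]
    simp
  set uu : (Fin m → ℕ) → ℕ → ℕ := fun u j => if hj : j < m then u ⟨j, hj⟩ + 1 else 1 with huu
  have huu1 : ∀ u j, 1 ≤ uu u j := by
    intro u j
    simp only [huu]
    split_ifs <;> omega
  choose ι hι hgap using fun u : Fin m → ℕ => hex a b ha hab R N hN hRN (uu u) (huu1 u)
  set off : (Fin m → ℕ) → Fin m → ℕ := fun u j => if j ∈ univ.image (fun r : Fin k => ι u r.castSucc)
    then 0 else u j with hoff
  set g : (Fin m → ℕ) → Fin k → ℕ := fun u r => bsum (uu u) (ι u) r with hg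
  have hgA : ∀ u ∈ U, g u ∈ A := by
    intro u hu
    refine mem_filter.2 ⟨Fintype.mem_piFinset.2 fun r => ?_, hgap u⟩
    rw [mem_Icc]
    have hlt : (ι u r.castSucc : ℕ) < ι u r.succ := Fin.lt_def.1 (hι u (Fin.castSucc_lt_succ))
    constructor
    · refine (huu1 u (ι u r.castSucc)).trans ?_
      exact single_le_sum (f := fun j => uu u j) (fun _ _ => Nat.zero_le _) (mem_Ico.2 ⟨le_rfl, hlt⟩)
    · have h1 : ∀ j ∈ Ico (ι u r.castSucc : ℕ) (ι u r.succ : ℕ), uu u j ≤ h := by
        intro j hj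
        rw [mem_Ico] at hj
        have hjm : j < m := by have := (ι u r.succ).2; omega
        simp only [huu, dif_pos hjm]
        have := mem_range.1 (Fintype.mem_piFinset.1 hu ⟨j, hjm⟩)
        omega
      have h2 := sum_le_card_nsmul _ _ _ h1
      rw [Nat.card_Ico, smul_eq_mul] at h2
      refine h2.trans ?_
      have h3 : (ι u r.succ : ℕ) - (ι u r.castSucc : ℕ) ≤ m := by have := (ι u r.succ).2; omega
      exact (Nat.mul_le_mul_right _ h3).trans (Nat.mul_div_le H m)
  -- count
  have hfib : ∀ κ : Fin (k + 1) → Fin m, (U.filter (fun u => ι u = κ)).card ≤ A.card * h ^ (m - k) := by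
    intro κ
    by_cases hne : (U.filter (fun u => ι u = κ)).Nonempty
    · obtain ⟨u₀, hu₀⟩ := hne
      have hκ : StrictMono κ := (mem_filter.1 hu₀).2 ▸ hι u₀
      set Z : Finset (Fin m) := univ.image (fun r : Fin k => κ r.castSucc) with hZ
      have hZc : Z.card = k := by
        rw [hZ, card_image_of_injective _ (fun r r' hrr => Fin.castSucc_injective _ (hκ.injective hrr)),
          card_univ, Fintype.card_fin]
      set B : Finset (Fin m → ℕ) := Fintype.piFinset (fun j : Fin m => if j ∈ Z then {0} else range h) with hB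
      have hBc : B.card = h ^ (m - k) := by
        rw [hB, Fintype.card_piFinset]
        have h1 : ∀ j : Fin m, (if j ∈ Z then ({0} : Finset ℕ) else range h).card =
            if j ∈ Z then 1 else h := by
          intro j
          split_ifs <;> simp
        rw [prod_congr rfl fun j _ => h1 j, prod_ite, prod_const_one, one_mul, prod_const]
        congr 1
        rw [filter_not, filter_mem_eq_inter, univ_inter, card_sdiff_of_subset (subset_univ _), hZc,
          card_univ, Fintype.card_fin]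
      rw [← hBc, ← card_product]
      refine card_le_card_of_injOn (fun u => (g u, off u)) ?_ ?_
      · intro u hu
        obtain ⟨hu1, hu2⟩ := mem_filter.1 (mem_coe.1 hu)
        refine mem_coe.2 (mem_product.2 ⟨hgA u hu1, Fintype.mem_piFinset.2 fun j => ?_⟩)
        simp only [hoff, hu2]
        split_ifs with h1
        · exact mem_singleton_self 0
        · exact Fintype.mem_piFinset.1 hu1 j
      · intro u hu u' hu' huu'
        obtain ⟨hu1, hu2⟩ := mem_filter.1 (mem_coe.1 hu)
        obtain ⟨hu1', hu2'⟩ := mem_filter.1 (mem_coe.1 hu')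
        simp only [Prod.mk.injEq] at huu'
        obtain ⟨h1, h2⟩ := huu'
        have h3 : ∀ j < m, uu u j = uu u' j := by
          refine bsum_inj hκ ?_ ?_
          · intro j hj hne
            have h4 := congrFun h2 ⟨j, hj⟩
            have h5 : (⟨j, hj⟩ : Fin m) ∉ univ.image (fun r : Fin k => κ r.castSucc) := by
              intro hmem
              obtain ⟨r, -, hr⟩ := mem_image.1 hmem
              exact hne r (by rw [hr])
            simp only [hoff, hu2, hu2', if_neg h5] at h4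
            simp only [huu, dif_pos hj, h4]
          · intro r
            have h4 := congrFun h1 r
            simp only [hg, hu2, hu2'] at h4
            exact h4
        funext j
        have h4 := h3 j j.2
        simp only [huu, dif_pos j.2] at h4
        simpa using h4
    · rw [not_nonempty_iff_eq_empty.1 hne, card_empty]
      exact Nat.zero_le _
  have hk : k ≤ m := by
    have h1 := Fintype.card_le_of_injective (ι (fun _ => 0)) (hι (fun _ => 0)).injective
    rw [Fintype.card_fin, Fintype.card_fin] at h1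
    omega
  have htot : h ^ m ≤ m ^ (k + 1) * (A.card * h ^ (m - k)) := by
    rw [← hUc, card_eq_sum_card_fiberwise (f := ι) (t := univ) (fun _ _ => mem_coe.2 (mem_univ _))]
    refine (sum_le_card_nsmul _ _ _ fun κ _ => hfib κ).trans (le_of_eq ?_)
    rw [card_univ, Fintype.card_fun, Fintype.card_fin, Fintype.card_fin, smul_eq_mul]
  have h1 : h ^ k ≤ m ^ (k + 1) * A.card := by
    have h2 : h ^ m = h ^ k * h ^ (m - k) := by rw [← pow_add]; congr 1; omega
    rw [h2, ← mul_assoc] at htot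
    exact Nat.le_of_mul_le_mul_right htot (Nat.pow_pos hh1)
  have h2 : H ≤ 2 * m * h := by
    have h3 := Nat.lt_mul_div_succ H hm
    have h4 : m * (H / m + 1) ≤ 2 * m * h := by
      rw [← hh]
      nlinarith
    omega
  calc H ^ k ≤ (2 * m * h) ^ k := Nat.pow_le_pow_left h2 k
    _ = (2 * m) ^ k * h ^ k := mul_pow _ _ _
    _ ≤ (2 * m) ^ k * (m ^ (k + 1) * A.card) := Nat.mul_le_mul_left _ h1
    _ = (2 * m) ^ k * m ^ (k + 1) * A.card := by ring

open Classical in
/-- **differences of gap vectors**: among any `s + 1` vectors there are two whose difference is the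
difference of two gap vectors -/
theorem diffs (k : ℕ) : ∃ m s : ℕ, 1 ≤ m ∧ 1 ≤ s ∧ ∀ a b : ℤ, 2 ≤ a → IsCoprime a b → ∀ R N : ℕ,
    m.factorial ∣ N → R < N → ∀ x : Fin (s + 1) → Fin k → ℤ,
    ∃ i j : Fin (s + 1), i < j ∧ ∃ g g' : Fin k → ℕ, (∀ l, 1 ≤ g l ∧ 1 ≤ g' l) ∧
      GapVec a b R (fun l => N * g l) ∧ GapVec a b R (fun l => N * g' l) ∧
      ∀ l, x j l - x i l = (g l : ℤ) - g' l := by
  obtain ⟨m, C, hm, hC, hd⟩ := density k
  obtain ⟨s, hs⟩ : ∃ s : ℕ, s = 2 ^ k * C := ⟨_, rfl⟩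
  refine ⟨m, s, hm, by rw [hs]; exact Nat.mul_pos (by positivity) hC, ?_⟩
  intro a b ha hab R N hN hRN x
  set D : ℕ := ∑ i, ∑ l, (x i l).natAbs with hD
  have hxD : ∀ i l, |x i l| ≤ D := by
    intro i l
    have h1 : (x i l).natAbs ≤ ∑ l, (x i l).natAbs :=
      single_le_sum (f := fun l => (x i l).natAbs) (fun _ _ => Nat.zero_le _) (mem_univ l)
    have h2 : ∑ l, (x i l).natAbs ≤ D :=
      single_le_sum (f := fun i => ∑ l, (x i l).natAbs) (fun _ _ => Nat.zero_le _) (mem_univ i)
    rw [Int.abs_eq_natAbs]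
    exact_mod_cast h1.trans h2
  set H : ℕ := m + 2 * D with hH
  set A : Finset (Fin k → ℕ) := (Fintype.piFinset (fun _ : Fin k => Icc 1 H)).filter
      (fun g => GapVec a b R (fun i => N * g i)) with hA
  have hAc : H ^ k ≤ C * A.card := hd a b ha hab R N hN hRN H (by omega)
  by_contra hcon
  push Not at hcon
  -- disjoint translates
  set Φ : Fin (s + 1) × (Fin k → ℕ) → Fin k → ℤ := fun v l => x v.1 l + v.2 l with hΦ
  have hinj : Set.InjOn Φ ↑((univ : Finset (Fin (s + 1))) ×ˢ A) := by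
    have key : ∀ i j : Fin (s + 1), i < j → ∀ g ∈ A, ∀ g' ∈ A, Φ (i, g) ≠ Φ (j, g') := by
      intro i j hij g hg g' hg' h
      obtain ⟨hg1, hg2⟩ := mem_filter.1 hg
      obtain ⟨hg1', hg2'⟩ := mem_filter.1 hg'
      obtain ⟨l, hl⟩ := hcon i j hij g g' (fun l => ⟨(mem_Icc.1 (Fintype.mem_piFinset.1 hg1 l)).1,
        (mem_Icc.1 (Fintype.mem_piFinset.1 hg1' l)).1⟩) hg2 hg2'
      apply hl
      have := congrFun h l
      simp only [hΦ] at this
      linarith
    rintro ⟨i, g⟩ hig ⟨j, g'⟩ hjg h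
    have hg := (mem_product.1 (mem_coe.1 hig)).2
    have hg' := (mem_product.1 (mem_coe.1 hjg)).2
    rcases lt_trichotomy i j with hij | hij | hij
    · exact absurd h (key i j hij g hg g' hg')
    · subst hij
      rw [Prod.mk.injEq]
      refine ⟨rfl, funext fun l => ?_⟩
      have := congrFun h l
      simp only [hΦ] at this
      exact_mod_cast add_left_cancel this
    · exact absurd h.symm (key j i hij g' hg' g hg)
  have hmaps : Set.MapsTo Φ ↑((univ : Finset (Fin (s + 1))) ×ˢ A)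
      ↑(Fintype.piFinset (fun _ : Fin k => Ioc (-(D : ℤ)) (H + D))) := by
    rintro ⟨i, g⟩ hig
    have hg := (mem_product.1 (mem_coe.1 hig)).2
    refine mem_coe.2 (Fintype.mem_piFinset.2 fun l => ?_)
    have h1 := mem_Icc.1 (Fintype.mem_piFinset.1 (mem_filter.1 hg).1 l)
    have h2 := abs_le.1 (hxD i l)
    have h3 : (1 : ℤ) ≤ g l := by exact_mod_cast h1.1
    have h4 : (g l : ℤ) ≤ H := by exact_mod_cast h1.2
    simp only [hΦ, mem_Ioc]
    constructor <;> linarith [h2.1, h2.2]
  have hcard := card_le_card_of_injOn Φ hmaps hinj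
  rw [card_product, card_univ, Fintype.card_fin, Fintype.card_piFinset] at hcard
  simp only [Int.card_Ioc, prod_const, card_univ, Fintype.card_fin] at hcard
  have h1 : ((H : ℤ) + D - -(D : ℤ)).toNat = H + 2 * D := by omega
  rw [h1] at hcard
  have h2 : (H + 2 * D) ^ k ≤ (2 * H) ^ k := Nat.pow_le_pow_left (by omega) k
  rw [mul_pow] at h2
  have h3 : 0 < H ^ k := Nat.pow_pos (by omega)
  have h4 : (s + 1) * H ^ k ≤ (s + 1) * (C * A.card) := Nat.mul_le_mul_left _ hAc
  have h5 : (s + 1) * (C * A.card) ≤ C * (2 ^ k * H ^ k) := by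
    have : (s + 1) * (C * A.card) = C * ((s + 1) * A.card) := by ring
    rw [this]
    exact Nat.mul_le_mul_left _ (hcard.trans h2)
  have h6 : C * (2 ^ k * H ^ k) = s * H ^ k := by rw [hs]; ring
  rw [h6] at h5
  nlinarith

/-- **multiples** of every vector are differences of gap vectors -/
theorem multiples (k : ℕ) : ∃ m s : ℕ, 1 ≤ m ∧ 1 ≤ s ∧ ∀ a b : ℤ, 2 ≤ a → IsCoprime a b → ∀ R N : ℕ,
    m.factorial ∣ N → R < N → (∀ w : Fin k → ℤ, ∃ c : ℕ, 1 ≤ c ∧ c ≤ s ∧ ∃ g g' : Fin k → ℕ,
      (∀ l, 1 ≤ g l ∧ 1 ≤ g' l) ∧ GapVec a b R (fun l => N * g l) ∧ GapVec a b R (fun l => N * g' l) ∧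
      ∀ l, (c : ℤ) * w l = (g l : ℤ) - g' l) ∧
    ∀ w : Fin k → ℤ, ∃ g g' : Fin s.factorial → Fin k → ℕ, (∀ i l, 1 ≤ g i l ∧ 1 ≤ g' i l) ∧
      (∀ i, GapVec a b R (fun l => N * g i l)) ∧ (∀ i, GapVec a b R (fun l => N * g' i l)) ∧
      ∀ l, (N : ℤ) * s.factorial * w l = ∑ i, ((N * g i l : ℕ) : ℤ) - ∑ i, ((N * g' i l : ℕ) : ℤ) := by
  obtain ⟨m, s, hm, hs, hd⟩ := diffs k
  refine ⟨m, s, hm, hs, fun a b ha hab R N hN hRN => ?_⟩
  have h1 : ∀ w : Fin k → ℤ, ∃ c : ℕ, 1 ≤ c ∧ c ≤ s ∧ ∃ g g' : Fin k → ℕ,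
      (∀ l, 1 ≤ g l ∧ 1 ≤ g' l) ∧ GapVec a b R (fun l => N * g l) ∧ GapVec a b R (fun l => N * g' l) ∧
      ∀ l, (c : ℤ) * w l = (g l : ℤ) - g' l := by
    intro w
    obtain ⟨i, j, hij, g, g', h1, h2, h3, h4⟩ := hd a b ha hab R N hN hRN (fun i l => (i : ℕ) * w l)
    have h5 : (i : ℕ) < j := Fin.lt_def.1 hij
    refine ⟨(j : ℕ) - i, by omega, by have := j.2; omega, g, g', h1, h2, h3, fun l => ?_⟩
    rw [← h4 l, Nat.cast_sub h5.le]
    ring
  refine ⟨h1, fun w => ?_⟩
  -- one multiple with factor dividing the factorial, and then padding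
  obtain ⟨c, hc1, hc2, g, g', hg, hg1, hg2, hg3⟩ := h1 w
  obtain ⟨t, ht⟩ : c ∣ s.factorial := Nat.dvd_factorial hc1 hc2
  have htle : t ≤ s.factorial := by
    rw [ht]
    exact Nat.le_mul_of_pos_left _ hc1
  refine ⟨fun _ => g, fun i => if (i : ℕ) < t then g' else g, ?_, fun _ => hg1, ?_, ?_⟩
  · intro i l
    refine ⟨(hg l).1, ?_⟩
    simp only
    split_ifs
    · exact (hg l).2
    · exact (hg l).1
  · intro i
    simp only
    split_ifs
    · exact hg2
    · exact hg1
  · intro l
    rw [← sum_sub_distrib]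
    have h2 : ∀ i : Fin s.factorial, (((N * g l : ℕ) : ℤ) -
        ((N * (if (i : ℕ) < t then g' else g) l : ℕ) : ℤ)) = if (i : ℕ) < t then (N : ℤ) * (c * w l) else 0 := by
      intro i
      split_ifs
      · rw [hg3 l]
        push_cast
        ring
      · ring
    rw [sum_congr rfl fun i _ => h2 i, Fin.sum_univ_eq_sum_range
      (fun i => if i < t then (N : ℤ) * (c * w l) else 0) s.factorial, ← sum_filter, sum_const]
    have h3 : (filter (fun i => i < t) (range s.factorial)) = range t := by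
      ext i
      simp only [mem_filter, mem_range]
      omega
    rw [h3, card_range, nsmul_eq_mul, ht]
    push_cast
    ring

end Pool.Agent.Run7.h189.CO
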