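import Mathlib
import Pool.Agent.Run7.h189.CO.Aff
import Pool.Agent.W68.Her

/-!
# Universal hereditary sets of times for the orbits of all affine maps
-/

set_option autoImplicit false

namespace Pool.Agent.Run7.h189.CO

open Finset

/-- every exact pattern of forms of an orbit gives an exact pattern starting at a prime -/
theorem ex_of_exF {a b : ℤ} (ha : 2 ≤ a) (hab : IsCoprime a b) (V : Set ℕ)
    (h : Pool.Agent.W68.Her.ExF (Fo a b '' V)) (s : ℕ) (hs : s ∈ V) (R : ℕ) :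
    {p : ℕ | p.Prime ∧ ∀ y ≤ R, (It a b y p).toNat.Prime ↔ s + y ∈ V}.Infinite := by
  classical
  have hPr : ∀ (j n : ℕ), (((Fo a b j).1 * (n : ℤ) + (Fo a b j).2).toNat).Prime ↔ (It a b j n).toNat.Prime :=
    fun j n => Iff.rfl
  have h1 := h ((range (s + R + 1)).image (Fo a b)) (by
    intro f hf
    obtain ⟨j, -, rfl⟩ := mem_image.1 hf
    exact (Fo_ok ha hab j).1)
  have h2 : ∀ n ∈ {n : ℕ | ∀ f ∈ (range (s + R + 1)).image (Fo a b),
      (Nat.Prime (f.1 * n + f.2).toNat ↔ f ∈ Fo a b '' V)}, ∀ j ≤ s + R, (It a b j n).toNat.Prime ↔ j ∈ V := by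
    intro n hn j hj
    rw [← hPr, hn (Fo a b j) (mem_image_of_mem _ (mem_range.2 (by omega)))]
    exact ⟨fun ⟨i, hi, hij⟩ => Fo_inj ha b hij ▸ hi, fun hj' => ⟨j, hj', rfl⟩⟩
  have hcast : ∀ x : ℤ, x.toNat.Prime → ((x.toNat : ℕ) : ℤ) = x := by
    intro x hx
    apply Int.toNat_of_nonneg
    by_contra hcon
    rw [Int.toNat_of_nonpos (by omega)] at hx
    exact Nat.not_prime_zero hx
  have hinj : Set.InjOn (fun n : ℕ => (It a b s n).toNat) {n : ℕ | ∀ f ∈ (range (s + R + 1)).image (Fo a b),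
      (Nat.Prime (f.1 * n + f.2).toNat ↔ f ∈ Fo a b '' V)} := by
    intro n hn n' hn' hnn
    have h4 := hcast _ ((h2 n hn s (by omega)).2 hs)
    have h5 := hcast _ ((h2 n' hn' s (by omega)).2 hs)
    simp only at hnn
    rw [hnn, h5] at h4
    exact_mod_cast (It_inj ha b _ h4).symm
  refine (h1.image hinj).mono ?_
  rintro _ ⟨n, hn, rfl⟩
  have hp := (h2 n hn s (by omega)).2 hs
  refine ⟨hp, fun y hy => ?_⟩
  rw [hcast _ hp, ← It_add]
  exact h2 n hn (s + y) (by omega)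

/-- **universal hereditary sequences of times** -/
theorem universal (φ : ℕ → ℕ → ℕ) (hφ : ∀ l, Function.Injective (φ l)) :
    ∃ e : ℕ → ℕ, StrictMono e ∧ ∀ a b : ℤ, 2 ≤ a → IsCoprime a b → ∀ l : ℕ, ∃ N : ℕ, ∀ I : Set ℕ,
      (∀ i ∈ I, N ≤ i) → ∀ i₀ ∈ I, ∀ R : ℕ,
        {p : ℕ | p.Prime ∧ ∀ y ≤ R, (It a b y p).toNat.Prime ↔
          ∃ i ∈ I, φ l (e i) = φ l (e i₀) + y}.Infinite := by
  classical
  -- an enumeration of the maps and of the sequences
  obtain ⟨g, hg⟩ : ∃ g : ℕ → (ℤ × ℤ) × ℕ, Function.Surjective g := exists_surjective_nat _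
  set F : ℕ → ℕ → ℤ × ℤ := fun j t =>
    if 2 ≤ (g j).1.1 then Fo (g j).1.1 (g j).1.2 (φ (g j).2 t) else ((1 : ℤ), (t : ℤ)) with hF
  have hFinj : ∀ j, Function.Injective (F j) := by
    intro j x y hxy
    simp only [hF] at hxy
    split_ifs at hxy with h
    · exact hφ _ (Fo_inj h _ hxy)
    · have := (Prod.ext_iff.1 hxy).2
      simp only at this
      exact_mod_cast this
  obtain ⟨e, he, h⟩ := Pool.Agent.W68.Her.main_forms F hFinj
  refine ⟨e, he, fun a b ha hab l => ?_⟩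
  obtain ⟨j, hj⟩ := hg ((a, b), l)
  refine ⟨j, fun I hI i₀ hi₀ R => ?_⟩
  have hFj : ∀ t, F j t = Fo a b (φ l t) := by
    intro t
    simp only [hF, hj]
    rw [if_pos ha]
  have h1 := h j I (fun i hi => ⟨hI i hi, by rw [hFj]; exact Fo_ok ha hab _⟩)
  have h2 : (fun i => F j (e i)) '' I = Fo a b '' ((fun i => φ l (e i)) '' I) := by
    rw [Set.image_image]
    exact Set.image_congr fun i _ => hFj _
  rw [h2] at h1
  have h3 := ex_of_exF ha hab _ h1 (φ l (e i₀)) ⟨i₀, hi₀, rfl⟩ R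
  refine h3.mono ?_
  rintro p ⟨hp1, hp2⟩
  exact ⟨hp1, fun y hy => hp2 y hy⟩

end Pool.Agent.Run7.h189.CO
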